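import Pool.Agent.Lib.MP_305fdd_al.F2X.Stm

set_option autoImplicit false

namespace Pool.Agent.F2X

noncomputable section

/-- the cyclic group of order two -/
private abbrev ap2C : Type := Multiplicative (ZMod 2)

/-- the generator -/
private def ap2g : ap2C := Multiplicative.ofAdd 1

private theorem ap2_cases (x : ap2C) : x = 1 ∨ x = ap2g := by
  revert x
  decide

private theorem ap2_ne : ap2g ≠ 1 := by decide

private theorem ap2_gg : ap2g * ap2g = 1 := by decide

/-- the homomorphism defined by an element of order two -/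
private def ap2h {G : Type} [Group G] (g : G) (hg : g * g = 1) : ap2C →* G where
  toFun x := if x = 1 then 1 else g
  map_one' := if_pos rfl
  map_mul' x y := by
    rcases ap2_cases x with rfl | rfl <;> rcases ap2_cases y with rfl | rfl <;>
      simp [ap2_ne, ap2_gg, hg]

private theorem ap2h_g {G : Type} [Group G] (g : G) (hg : g * g = 1) : ap2h g hg ap2g = g := by
  show (if ap2g = 1 then 1 else g) = g
  exact if_neg ap2_ne

private theorem ap2_ext {G : Type} [Group G] {f h : ap2C →* G} (H : f ap2g = h ap2g) : f = h := by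
  apply DFunLike.ext
  intro x
  rcases ap2_cases x with rfl | rfl
  · rw [map_one, map_one]
  · exact H

private theorem ap2_aI : aI * aI = 1 := by
  apply aut_ext <;> simp

/-- the action -/
private def ap2f : ap2C →* MulAut F := ap2h aI ap2_aI

/-- the semidirect product -/
private abbrev ap2G : Type := F ⋊[ap2f] ap2C

/-- the free product -/
private def ap2P : Type := Monoid.Coprod ap2C (Monoid.Coprod ap2C ap2C)

private instance ap2PG : Group ap2P :=
  inferInstanceAs (Group (Monoid.Coprod ap2C (Monoid.Coprod ap2C ap2C)))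

private def ap2c1 : ap2P := (Monoid.Coprod.inl ap2g : Monoid.Coprod ap2C (Monoid.Coprod ap2C ap2C))
private def ap2c2 : ap2P :=
  (Monoid.Coprod.inr (Monoid.Coprod.inl ap2g) : Monoid.Coprod ap2C (Monoid.Coprod ap2C ap2C))
private def ap2c3 : ap2P :=
  (Monoid.Coprod.inr (Monoid.Coprod.inr ap2g) : Monoid.Coprod ap2C (Monoid.Coprod ap2C ap2C))

/-- homomorphisms out of the free product -/
private def ap2l {G : Type} [Group G] (a b c : G) (ha : a * a = 1) (hb : b * b = 1)
    (hc : c * c = 1) : ap2P →* G :=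
  (Monoid.Coprod.lift (ap2h a ha) (Monoid.Coprod.lift (ap2h b hb) (ap2h c hc)) :
    Monoid.Coprod ap2C (Monoid.Coprod ap2C ap2C) →* G)

private theorem ap2l_1 {G : Type} [Group G] (a b c : G) (ha : a * a = 1) (hb : b * b = 1)
    (hc : c * c = 1) : ap2l a b c ha hb hc ap2c1 = a := by
  show Monoid.Coprod.lift (ap2h a ha) (Monoid.Coprod.lift (ap2h b hb) (ap2h c hc))
    (Monoid.Coprod.inl ap2g) = a
  rw [Monoid.Coprod.lift_apply_inl, ap2h_g]

private theorem ap2l_2 {G : Type} [Group G] (a b c : G) (ha : a * a = 1) (hb : b * b = 1)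
    (hc : c * c = 1) : ap2l a b c ha hb hc ap2c2 = b := by
  show Monoid.Coprod.lift (ap2h a ha) (Monoid.Coprod.lift (ap2h b hb) (ap2h c hc))
    (Monoid.Coprod.inr (Monoid.Coprod.inl ap2g)) = b
  rw [Monoid.Coprod.lift_apply_inr, Monoid.Coprod.lift_apply_inl, ap2h_g]

private theorem ap2l_3 {G : Type} [Group G] (a b c : G) (ha : a * a = 1) (hb : b * b = 1)
    (hc : c * c = 1) : ap2l a b c ha hb hc ap2c3 = c := by
  show Monoid.Coprod.lift (ap2h a ha) (Monoid.Coprod.lift (ap2h b hb) (ap2h c hc))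
    (Monoid.Coprod.inr (Monoid.Coprod.inr ap2g)) = c
  rw [Monoid.Coprod.lift_apply_inr, Monoid.Coprod.lift_apply_inr, ap2h_g]

private theorem ap2P_ext0 {G : Type} [Group G]
    {f h : Monoid.Coprod ap2C (Monoid.Coprod ap2C ap2C) →* G}
    (h1 : f (Monoid.Coprod.inl ap2g) = h (Monoid.Coprod.inl ap2g))
    (h2 : f (Monoid.Coprod.inr (Monoid.Coprod.inl ap2g)) = h (Monoid.Coprod.inr (Monoid.Coprod.inl ap2g)))
    (h3 : f (Monoid.Coprod.inr (Monoid.Coprod.inr ap2g)) = h (Monoid.Coprod.inr (Monoid.Coprod.inr ap2g))) :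
    f = h :=
  Monoid.Coprod.hom_ext (ap2_ext h1) (Monoid.Coprod.hom_ext (ap2_ext h2) (ap2_ext h3))

private theorem ap2P_ext {G : Type} [Group G] {f h : ap2P →* G}
    (h1 : f ap2c1 = h ap2c1) (h2 : f ap2c2 = h ap2c2) (h3 : f ap2c3 = h ap2c3) : f = h :=
  ap2P_ext0 (f := f) (h := h) h1 h2 h3

private theorem ap2_c1 : ap2c1 * ap2c1 = 1 := by
  have h : (Monoid.Coprod.inl ap2g : Monoid.Coprod ap2C (Monoid.Coprod ap2C ap2C)) *
    Monoid.Coprod.inl ap2g = 1 := by rw [← map_mul, ap2_gg, map_one]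
  exact h
private theorem ap2_c2 : ap2c2 * ap2c2 = 1 := by
  have h : (Monoid.Coprod.inr (Monoid.Coprod.inl ap2g) : Monoid.Coprod ap2C (Monoid.Coprod ap2C ap2C)) *
    Monoid.Coprod.inr (Monoid.Coprod.inl ap2g) = 1 := by
    rw [← map_mul, ← map_mul, ap2_gg, map_one, map_one]
  exact h
private theorem ap2_c3 : ap2c3 * ap2c3 = 1 := by
  have h : (Monoid.Coprod.inr (Monoid.Coprod.inr ap2g) : Monoid.Coprod ap2C (Monoid.Coprod ap2C ap2C)) *
    Monoid.Coprod.inr (Monoid.Coprod.inr ap2g) = 1 := by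
    rw [← map_mul, ← map_mul, ap2_gg, map_one, map_one]
  exact h

private def ap2s : ap2G := SemidirectProduct.inr ap2g

private theorem ap2_ss : ap2s * ap2s = 1 := by
  unfold ap2s
  rw [← map_mul, ap2_gg, map_one]

private theorem ap2_conj (w : F) : ap2s * SemidirectProduct.inl w = SemidirectProduct.inl (aI w) * ap2s := by
  have h := SemidirectProduct.inl_aut (φ := ap2f) ap2g w
  have h2 : ap2f ap2g = aI := ap2h_g _ _
  rw [h2] at h
  unfold ap2s
  rw [h, mul_assoc, ← map_mul, inv_mul_cancel, map_one, mul_one]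

private theorem ap2_sq (w : F) (hw : aI w = w⁻¹) :
    ((SemidirectProduct.inl w * ap2s) * (SemidirectProduct.inl w * ap2s) : ap2G) = 1 := by
  rw [mul_assoc, ← mul_assoc ap2s, ap2_conj, hw, mul_assoc, ap2_ss, mul_one, ← map_mul,
    mul_inv_cancel, map_one]

/-- from the free product to the semidirect product -/
private def ap2F : ap2P →* ap2G :=
  ap2l ap2s (SemidirectProduct.inl ga * ap2s) (SemidirectProduct.inl gb * ap2s) ap2_ss
    (ap2_sq ga aI_ga) (ap2_sq gb aI_gb)

private theorem ap2F_c1 : ap2F ap2c1 = ap2s := ap2l_1 _ _ _ _ _ _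
private theorem ap2F_c2 : ap2F ap2c2 = SemidirectProduct.inl ga * ap2s := ap2l_2 _ _ _ _ _ _
private theorem ap2F_c3 : ap2F ap2c3 = SemidirectProduct.inl gb * ap2s := ap2l_3 _ _ _ _ _ _

/-- from the free group to the free product -/
private def ap2j : F →* ap2P := FreeGroup.lift ![ap2c2 * ap2c1, ap2c3 * ap2c1]

private theorem ap2j_ga : ap2j ga = ap2c2 * ap2c1 := by
  unfold ap2j; rw [FreeGroup.lift_apply_of]; rfl
private theorem ap2j_gb : ap2j gb = ap2c3 * ap2c1 := by
  unfold ap2j; rw [FreeGroup.lift_apply_of]; rfl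

private theorem ap2_inv {G : Type} [Group G] {g : G} (h : g * g = 1) : g⁻¹ = g :=
  inv_eq_of_mul_eq_one_left h

private theorem ap2_comm0 : ap2j.comp aI.toMonoidHom = (MulAut.conj ap2c1).toMonoidHom.comp ap2j := by
  apply hom_ext
  · show ap2j (aI ga) = ap2c1 * ap2j ga * ap2c1⁻¹
    rw [aI_ga, map_inv, ap2j_ga, _root_.mul_inv_rev, ap2_inv ap2_c1, ap2_inv ap2_c2, mul_assoc ap2c1,
      mul_assoc ap2c2, ap2_c1, mul_one]
  · show ap2j (aI gb) = ap2c1 * ap2j gb * ap2c1⁻¹
    rw [aI_gb, map_inv, ap2j_gb, _root_.mul_inv_rev, ap2_inv ap2_c1, ap2_inv ap2_c3, mul_assoc ap2c1,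
      mul_assoc ap2c3, ap2_c1, mul_one]

private theorem ap2_comm1 : ∀ g, ap2j.comp (ap2f g).toMonoidHom =
    (MulAut.conj (ap2h ap2c1 ap2_c1 g)).toMonoidHom.comp ap2j := by
  intro g
  rcases ap2_cases g with rfl | rfl
  · rw [map_one, map_one, map_one]
    rfl
  · have h2 : ap2f ap2g = aI := ap2h_g _ _
    rw [h2, ap2h_g]
    exact ap2_comm0

/-- from the semidirect product to the free product -/
private def ap2H : ap2G →* ap2P :=
  SemidirectProduct.lift ap2j (ap2h ap2c1 ap2_c1) ap2_comm1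

private theorem ap2H_inl (w : F) : ap2H (SemidirectProduct.inl w) = ap2j w :=
  SemidirectProduct.lift_inl _ _ _ _

private theorem ap2_Hs : ap2H ap2s = ap2c1 := by
  unfold ap2H ap2s
  rw [SemidirectProduct.lift_inr, ap2h_g]

private theorem ap2_FH : ap2F.comp ap2H = MonoidHom.id ap2G := by
  apply SemidirectProduct.hom_ext
  · apply hom_ext
    · show ap2F (ap2H (SemidirectProduct.inl ga)) = SemidirectProduct.inl ga
      rw [ap2H_inl, ap2j_ga, map_mul, ap2F_c1, ap2F_c2, mul_assoc, ap2_ss, mul_one]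
    · show ap2F (ap2H (SemidirectProduct.inl gb)) = SemidirectProduct.inl gb
      rw [ap2H_inl, ap2j_gb, map_mul, ap2F_c1, ap2F_c3, mul_assoc, ap2_ss, mul_one]
  · apply ap2_ext
    show ap2F (ap2H ap2s) = ap2s
    rw [ap2_Hs, ap2F_c1]

private theorem ap2_HF : ap2H.comp ap2F = MonoidHom.id ap2P := by
  apply ap2P_ext
  · show ap2H (ap2F ap2c1) = ap2c1
    rw [ap2F_c1, ap2_Hs]
  · show ap2H (ap2F ap2c2) = ap2c2
    rw [ap2F_c2, map_mul, ap2_Hs, ap2H_inl, ap2j_ga, mul_assoc, ap2_c1, mul_one]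
  · show ap2H (ap2F ap2c3) = ap2c3
    rw [ap2F_c3, map_mul, ap2_Hs, ap2H_inl, ap2j_gb, mul_assoc, ap2_c1, mul_one]

private theorem ap2_main : ∃ N : Subgroup ap2P, N.Normal ∧ N.FiniteIndex ∧ Nonempty (N ≃* F) := by
  have hj : ∀ w, ap2F (ap2j w) = SemidirectProduct.inl w := by
    intro w
    have h := DFunLike.congr_fun ap2_FH (SemidirectProduct.inl w)
    rw [← ap2H_inl]
    exact h
  have hinj : Function.Injective ap2j := by
    intro v w hvw
    have := congrArg ap2F hvw
    rw [hj, hj] at this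
    exact SemidirectProduct.inl_injective this
  have hr : ap2j.range = (SemidirectProduct.rightHom.comp ap2F).ker := by
    ext x
    rw [MonoidHom.mem_range, MonoidHom.mem_ker]
    constructor
    · rintro ⟨w, rfl⟩
      rw [MonoidHom.comp_apply, hj, SemidirectProduct.rightHom_inl]
    · intro hx
      have h1 : ap2F x ∈ (SemidirectProduct.inl : F →* ap2G).range := by
        rw [SemidirectProduct.range_inl_eq_ker_rightHom]
        exact hx
      obtain ⟨w, hw⟩ := h1
      refine ⟨w, ?_⟩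
      have h3 : ap2H (ap2F x) = x := DFunLike.congr_fun ap2_HF x
      rw [← h3, ← hw, ap2H_inl]
  refine ⟨(SemidirectProduct.rightHom.comp ap2F).ker, inferInstance, ?_, ?_⟩
  · exact Subgroup.finiteIndex_ker _
  · exact ⟨((MonoidHom.ofInjective hinj).trans (MulEquiv.subgroupCongr hr)).symm⟩

theorem p_ap2 : S_ap2 := ap2_main

end

end Pool.Agent.F2X
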