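import Pool.Agent.Lib.MP_305fdd_al.F2X.Stm

/-!
# MP_305fdd_al, F2X: the centre of the free group of rank two is trivial
-/

set_option autoImplicit false

namespace Pool.Agent.F2X

open FreeGroup

private theorem cen_reduce (L : List (Fin 2 × Bool)) (h : FreeGroup.IsReduced L) :
    (FreeGroup.mk L).toWord = L := by
  rw [FreeGroup.toWord_mk, h.reduce_eq]

private theorem cen_cons (a : Fin 2 × Bool) (L : List (Fin 2 × Bool))
    (h : FreeGroup.IsReduced (a :: L)) (d : Fin 2) (hd : d ≠ a.1) (s : Bool) :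
    FreeGroup.IsReduced ((d, s) :: a :: L) := by
  rw [FreeGroup.isReduced_cons_cons]
  exact ⟨fun h1 => absurd h1 hd, h⟩

private theorem cen_concat (L : List (Fin 2 × Bool)) (b : Fin 2 × Bool)
    (h : FreeGroup.IsReduced (L ++ [b])) (d : Fin 2) :
    FreeGroup.IsReduced ((L ++ [b]) ++ [(d, b.2)]) := by
  refine FreeGroup.IsReduced.append_overlap h ?_ (by simp)
  simp

theorem p_cen : S_cen := by
  intro g hg
  by_contra hne
  have hred : FreeGroup.IsReduced g.toWord := FreeGroup.isReduced_toWord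
  have hne' : g.toWord ≠ [] := fun h => hne (FreeGroup.toWord_eq_nil_iff.1 h)
  obtain ⟨a, L, hL⟩ := List.exists_cons_of_ne_nil hne'
  obtain ⟨L', b, hL'⟩ := List.eq_nil_or_concat' g.toWord |>.resolve_left hne'
  -- the other generator
  obtain ⟨d, hd⟩ : ∃ d : Fin 2, d ≠ a.1 := exists_ne a.1
  have h1 : (FreeGroup.mk [(d, b.2)] * g).toWord = (d, b.2) :: a :: L := by
    conv_lhs => rw [← FreeGroup.mk_toWord (x := g), FreeGroup.mul_mk, hL]
    exact cen_reduce _ (cen_cons a L (hL ▸ hred) d hd b.2)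
  have h2 : (g * FreeGroup.mk [(d, b.2)]).toWord = (a :: L) ++ [(d, b.2)] := by
    conv_lhs => rw [← FreeGroup.mk_toWord (x := g), FreeGroup.mul_mk]
    rw [← hL]
    refine cen_reduce _ ?_
    rw [hL']
    exact cen_concat L' b (hL' ▸ hred) d
  rw [hg, h1, List.cons_append] at h2
  have h3 := (List.cons.inj h2).1
  exact hd (congrArg Prod.fst h3)

end Pool.Agent.F2X
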