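import Pool.Agent.Lib.MP_305fdd_al.F2X.Stm

/-!
# MP_305fdd_al, F2X: pieces cor, gl, tr, fgrf
-/

set_option autoImplicit false

namespace Pool.Agent.F2X

open Matrix Pool.Agent.MP_305fdd_al Pool.Agent.Lib.MP_305fdd_al

theorem p_cor (hm : S_main) (h1 : S_ap1) (h2 : S_ap2) : S_cor := by
  intro hF
  obtain ⟨N, hN, hf, he⟩ := h1
  obtain ⟨N', hN', hf', he'⟩ := h2
  exact ⟨hm hF _ N hN hf he, hm hF _ N' hN' hf' he'⟩

theorem p_gl (h1 : S_g1) (h2 : S_g2) (h3 : S_g3) : S_gl := by
  intro Q _ _ θ θ' h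
  by_cases he : ∃ q₀, (θ q₀).val.det = 1 ∧ |(θ q₀).val.trace| ≤ 1
  · obtain ⟨q₀, hd, ht⟩ := he
    by_cases hc : ∀ q, θ q * θ q₀ = θ q₀ * θ q
    · exact h2 Q θ θ' h q₀ hd ht hc
    · push Not at hc
      obtain ⟨q₁, hq⟩ := hc
      exact h3 Q θ θ' h q₀ hd ht q₁ hq
  · push Not at he
    exact h1 Q θ θ' h fun q hq => he q hq

/-- an integer which vanishes modulo all positive `n` is zero -/
theorem cor_zero (x : ℤ) (h : ∀ n : ℕ, 0 < n → ((x : ℤ) : ZMod n) = 0) : x = 0 := by
  have h1 := h (x.natAbs + 1) (Nat.succ_pos _)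
  rw [ZMod.intCast_zmod_eq_zero_iff_dvd] at h1
  by_contra hx
  have h2 := Int.natAbs_dvd_natAbs.mpr h1
  have h3 : ((x.natAbs + 1 : ℕ) : ℤ).natAbs = x.natAbs + 1 := Int.natAbs_natCast _
  rw [h3] at h2
  have h4 := Nat.le_of_dvd (Int.natAbs_pos.mpr hx) h2
  omega

theorem p_tr : S_tr := by
  intro A B h
  have key : ∀ n : ℕ, 0 < n → ((A.val.trace : ℤ) : ZMod n) = ((B.val.trace : ℤ) : ZMod n) ∧
      ((A.val.det : ℤ) : ZMod n) = ((B.val.det : ℤ) : ZMod n) := by
    intro n hn
    obtain ⟨X, hX⟩ := h n hn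
    have e1 : red n B = X * red n A * X⁻¹ := by rw [hX]; group
    have e2 : (red n B).val = X.val * (red n A).val * (X⁻¹ : GL (Fin 2) (ZMod n)).val := by
      rw [e1]; rfl
    have hA : (red n A).val = A.val.map (Int.castRingHom (ZMod n)) := rfl
    have hB : (red n B).val = B.val.map (Int.castRingHom (ZMod n)) := rfl
    have hXX : (X⁻¹ : GL (Fin 2) (ZMod n)).val * X.val = 1 := by
      rw [← Units.val_mul, inv_mul_cancel]; rfl
    constructor
    · have h3 : (red n B).val.trace = (red n A).val.trace := by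
        rw [e2, Matrix.trace_mul_comm, ← Matrix.mul_assoc, hXX, Matrix.one_mul]
      have t1 : (red n A).val.trace = ((A.val.trace : ℤ) : ZMod n) := by
        rw [hA]; simp [Matrix.trace]
      have t2 : (red n B).val.trace = ((B.val.trace : ℤ) : ZMod n) := by
        rw [hB]; simp [Matrix.trace]
      rw [← t1, ← t2, h3]
    · have h3 : (red n B).val.det = (red n A).val.det := by
        rw [e2, Matrix.det_mul, Matrix.det_mul, mul_comm, ← mul_assoc, ← Matrix.det_mul, hXX,
          Matrix.det_one, one_mul]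
      have t1 : (red n A).val.det = ((A.val.det : ℤ) : ZMod n) := by
        rw [hA]
        exact ((Int.castRingHom (ZMod n)).map_det A.val).symm
      have t2 : (red n B).val.det = ((B.val.det : ℤ) : ZMod n) := by
        rw [hB]
        exact ((Int.castRingHom (ZMod n)).map_det B.val).symm
      rw [← t1, ← t2, h3]
  constructor
  · have := cor_zero (A.val.trace - B.val.trace) fun n hn => by
      push_cast
      rw [(key n hn).1, sub_self]
    omega
  · have := cor_zero (A.val.det - B.val.det) fun n hn => by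
      rw [Int.cast_sub, (key n hn).2, sub_self]
    omega

theorem p_fgrf : S_fgrf := by
  intro Λ _ M hM hfg hrf
  exact ⟨inferInstance, inferInstance⟩

end Pool.Agent.F2X
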