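import Pool.Agent.Lib.MP_305fdd_al.F2X.Stm

/-!
# MP_305fdd_al, finite extensions of the free group of rank two: [FX ell]
-/

set_option autoImplicit false

namespace Pool.Agent.F2X

open Matrix

theorem ell_arith (p q r s a b c d : ℤ) (hJ : p * s - q * r = 1) (ht : |p + s| ≤ 1)
    (hB : a * d - b * c = 1)
    (hx : (q * c - b * r) ^ 2 + (p * b + q * d - a * q - b * s) * (r * a + s * c - c * p - d * r)
      ≤ 0) :
    q * c - b * r = 0 ∧ p * b + q * d - a * q - b * s = 0 ∧ r * a + s * c - c * p - d * r = 0 := by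
  obtain ⟨x, hxd⟩ : ∃ x, x = q * c - b * r := ⟨_, rfl⟩
  obtain ⟨y, hyd⟩ : ∃ y, y = p * b + q * d - a * q - b * s := ⟨_, rfl⟩
  obtain ⟨z, hzd⟩ : ∃ z, z = r * a + s * c - c * p - d * r := ⟨_, rfl⟩
  rw [← hxd, ← hyd, ← hzd] at hx ⊢
  have h1 : (p - s) * x + q * z + r * y = 0 := by rw [hxd, hyd, hzd]; ring
  have ht2 : (p + s) ^ 2 ≤ 1 := by
    have := sq_abs (p + s)
    nlinarith [abs_nonneg (p + s)]
  have hdisc : (p - s) ^ 2 + 4 * (q * r) ≤ -3 := by nlinarith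
  have hqr : q * r < 0 := by nlinarith [sq_nonneg (p - s)]
  have hq : q ≠ 0 := by rintro rfl; simp at hqr
  have hr : r ≠ 0 := by rintro rfl; simp at hqr
  have h2 : 4 * (q * r) * (x ^ 2 + y * z) =
      -((2 * (q * z) + (p - s) * x) ^ 2 + (-4 * (q * r) - (p - s) ^ 2) * x ^ 2) := by
    have h3 : r * y = -((p - s) * x) - q * z := by linarith
    have h4 : 4 * (q * r) * (x ^ 2 + y * z) = 4 * (q * r) * x ^ 2 + 4 * (r * y) * (q * z) := by ring
    rw [h4, h3]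
    ring
  have h5 : 0 ≤ 4 * (q * r) * (x ^ 2 + y * z) := by nlinarith
  have h6 : x ^ 2 = 0 := by
    have h7 : 3 * x ^ 2 ≤ (-4 * (q * r) - (p - s) ^ 2) * x ^ 2 := by
      nlinarith [sq_nonneg x]
    nlinarith [sq_nonneg (2 * (q * z) + (p - s) * x), sq_nonneg x]
  have hx0 : x = 0 := by simpa using h6
  subst hx0
  have h8 : (2 * (q * z)) ^ 2 = 0 := by
    rw [h2] at h5
    nlinarith [sq_nonneg (2 * (q * z))]
  have hz0 : z = 0 := by
    have : 2 * (q * z) = 0 := by simpa using h8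
    have : q * z = 0 := by omega
    rcases mul_eq_zero.1 this with h | h
    · exact absurd h hq
    · exact h
  have hy0 : y = 0 := by
    rw [hz0] at h1
    have : r * y = 0 := by linarith
    rcases mul_eq_zero.1 this with h | h
    · exact absurd h hr
    · exact h
  exact ⟨rfl, hy0, hz0⟩

theorem p_ell : S_ell := by
  intro J B hJ hT hB h
  rw [Matrix.det_fin_two] at hJ hB
  rw [Matrix.trace_fin_two] at hT
  have h2 : (J 0 1 * B 1 0 - B 0 1 * J 1 0) ^ 2 +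
      (J 0 0 * B 0 1 + J 0 1 * B 1 1 - B 0 0 * J 0 1 - B 0 1 * J 1 1) *
      (J 1 0 * B 0 0 + J 1 1 * B 1 0 - B 1 0 * J 0 0 - B 1 1 * J 1 0) =
      (J * B * J.adjugate * B.adjugate).trace -
        2 * ((J 0 0 * J 1 1 - J 0 1 * J 1 0) * (B 0 0 * B 1 1 - B 0 1 * B 1 0)) := by
    rw [Matrix.trace_fin_two]
    simp only [Matrix.mul_apply, Fin.sum_univ_two, Matrix.adjugate_fin_two, Matrix.of_apply,
      Matrix.cons_val', Matrix.cons_val_zero, Matrix.cons_val_one, Matrix.empty_val',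
      Matrix.cons_val_fin_one]
    ring
  rw [hJ, hB] at h2
  obtain ⟨h3, h4, h5⟩ := ell_arith (J 0 0) (J 0 1) (J 1 0) (J 1 1) (B 0 0) (B 0 1) (B 1 0) (B 1 1)
    hJ hT hB (by rw [h2]; linarith)
  ext i j
  rw [Matrix.mul_apply, Matrix.mul_apply, Fin.sum_univ_two, Fin.sum_univ_two]
  fin_cases i <;> fin_cases j
  · show J 0 0 * B 0 0 + J 0 1 * B 1 0 = B 0 0 * J 0 0 + B 0 1 * J 1 0
    linarith
  · show J 0 0 * B 0 1 + J 0 1 * B 1 1 = B 0 0 * J 0 1 + B 0 1 * J 1 1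
    linarith
  · show J 1 0 * B 0 0 + J 1 1 * B 1 0 = B 1 0 * J 0 0 + B 1 1 * J 1 0
    linarith
  · show J 1 0 * B 0 1 + J 1 1 * B 1 1 = B 1 0 * J 0 1 + B 1 1 * J 1 1
    linarith

end Pool.Agent.F2X
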