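import Pool.Agent.Lib.MP_305fdd_al.F2X.Stm

set_option autoImplicit false

namespace Pool.Agent.F2X

private theorem ext_ex (hout : S_out) {Γ Λ Q : Type} [Group Γ] [Group Λ] [Group Q]
    (π : Γ →* Q) (π' : Λ →* Q) (hπ' : Function.Surjective π') (e : π.ker ≃* F)
    (e' : π'.ker ≃* F) (hTh : ∀ (g : Γ) (l : Λ), π g = π' l → Th e g = Th e' l) (g : Γ) :
    ∃ l : Λ, π g = π' l ∧ cj e g = cj e' l := by
  obtain ⟨l₀, hl₀⟩ := hπ' (π g)
  have h1 := hTh g l₀ hl₀.symm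
  rw [Th_apply, Th_apply] at h1
  have h2 : AM ((cj e' l₀)⁻¹ * cj e g) = 1 := by
    rw [map_mul, map_inv, h1, inv_mul_cancel]
  obtain ⟨w, hw⟩ := hout _ h2
  refine ⟨l₀ * (e'.symm w : π'.ker), ?_, ?_⟩
  · have h3 : π' ((e'.symm w : π'.ker) : Λ) = 1 := (e'.symm w).2
    rw [map_mul, h3, mul_one, hl₀]
  · rw [map_mul, cj_mem, MulEquiv.apply_symm_apply, ← hw, mul_inv_cancel_left]

private theorem ext_uq (hcen : S_cen) {Λ Q : Type} [Group Λ] [Group Q]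
    (π' : Λ →* Q) (e' : π'.ker ≃* F) (l l' : Λ) (h1 : π' l = π' l') (h2 : cj e' l = cj e' l') :
    l = l' := by
  have hx : l⁻¹ * l' ∈ π'.ker := by
    rw [MonoidHom.mem_ker, map_mul, map_inv, h1, inv_mul_cancel]
  have h3 : cj e' ((⟨l⁻¹ * l', hx⟩ : π'.ker) : Λ) = 1 := by
    show cj e' (l⁻¹ * l') = 1
    rw [map_mul, map_inv, h2, inv_mul_cancel]
  rw [cj_mem] at h3
  have h4 : e' ⟨l⁻¹ * l', hx⟩ = 1 := by
    apply hcen
    intro w
    have h5 := DFunLike.congr_fun h3 w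
    rw [MulAut.conj_apply, MulAut.one_apply] at h5
    calc e' ⟨l⁻¹ * l', hx⟩ * w
        = (e' ⟨l⁻¹ * l', hx⟩ * w * (e' ⟨l⁻¹ * l', hx⟩)⁻¹) * e' ⟨l⁻¹ * l', hx⟩ := by group
      _ = w * e' ⟨l⁻¹ * l', hx⟩ := by rw [h5]
  have h6 : (⟨l⁻¹ * l', hx⟩ : π'.ker) = 1 := by
    apply e'.injective
    rw [h4, map_one]
  have h7 : l⁻¹ * l' = 1 := congrArg Subtype.val h6
  exact inv_mul_eq_one.1 h7

theorem p_ext : S_out → S_cen → S_ext := by
  intro hout hcen Γ Λ Q _ _ _ π π' hπ hπ' e e' hTh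
  choose f hf1 hf2 using ext_ex hout π π' hπ' e e' hTh
  have hex : ∀ l : Λ, ∃ g : Γ, π' l = π g ∧ cj e' l = cj e g :=
    ext_ex hout π' π hπ e' e (fun l g h => (hTh g l h.symm).symm)
  have hmul : ∀ g g' : Γ, f (g * g') = f g * f g' := by
    intro g g'
    apply ext_uq hcen π' e'
    · rw [← hf1, map_mul, map_mul, ← hf1, ← hf1]
    · rw [← hf2, map_mul, map_mul, ← hf2, ← hf2]
  have hbij : Function.Bijective (MonoidHom.mk' f hmul) := by
    constructor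
    · intro g g' h
      have h' : f g = f g' := h
      apply ext_uq hcen π e
      · rw [hf1, hf1, h']
      · rw [hf2, hf2, h']
    · intro l
      obtain ⟨g, hg1, hg2⟩ := hex l
      refine ⟨g, ?_⟩
      show f g = l
      apply ext_uq hcen π' e'
      · rw [← hf1, hg1]
      · rw [← hf2, hg2]
  exact ⟨(MulEquiv.ofBijective _ hbij).symm⟩

end Pool.Agent.F2X
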