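import Pool.Agent.Lib.MP_305fdd_al.F2X.Stm

set_option autoImplicit false

namespace Pool.Agent.F2X

open Matrix

private lemma fo_CH (A : Matrix (Fin 2) (Fin 2) ℤ) :
    A * A = A.trace • A - A.det • (1 : Matrix (Fin 2) (Fin 2) ℤ) := by
  ext i j
  fin_cases i <;> fin_cases j <;>
    simp [Matrix.mul_apply, Fin.sum_univ_two, Matrix.trace, Matrix.det_fin_two, Matrix.smul_apply,
      -zsmul_eq_mul, -zsmul_one] <;> ring

private lemma fo_rec (A : Matrix (Fin 2) (Fin 2) ℤ) (hd : A.det = 1) (n : ℕ) :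
    (A ^ (n + 2)).trace = A.trace * (A ^ (n + 1)).trace - (A ^ n).trace := by
  have h : A ^ (n + 2) = A.trace • A ^ (n + 1) - A ^ n := by
    rw [pow_add, pow_two, fo_CH, hd, one_smul, mul_sub, mul_smul_comm, mul_one, ← pow_succ]
  rw [h, Matrix.trace_sub, Matrix.trace_smul, smul_eq_mul]

private lemma fo_grow (A : Matrix (Fin 2) (Fin 2) ℤ) (hd : A.det = 1) (ht : 3 ≤ |A.trace|) (n : ℕ) :
    2 ≤ |(A ^ n).trace| ∧ |(A ^ n).trace| < |(A ^ (n + 1)).trace| := by
  induction n with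
  | zero =>
    have h0 : (A ^ 0).trace = 2 := by
      rw [pow_zero, Matrix.trace_one]; simp
    rw [h0, zero_add, pow_one]
    refine ⟨by norm_num, ?_⟩
    have : |(2 : ℤ)| = 2 := by norm_num
    rw [this]; omega
  | succ n ih =>
    obtain ⟨h1, h2⟩ := ih
    refine ⟨by omega, ?_⟩
    rw [fo_rec A hd n]
    have h3 : |A.trace * (A ^ (n + 1)).trace| - |(A ^ n).trace| ≤
        |A.trace * (A ^ (n + 1)).trace - (A ^ n).trace| := abs_sub_abs_le_abs_sub _ _
    rw [abs_mul] at h3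
    nlinarith

private lemma fo_two (A : Matrix (Fin 2) (Fin 2) ℤ) (hd : A.det = 1) (ht : A.trace = 2) (k : ℕ)
    (hk : 0 < k) (h : A ^ k = 1) : A = 1 := by
  have hp : ∀ n : ℕ, A ^ n = 1 + (n : ℤ) • (A - 1) := by
    intro n
    induction n with
    | zero => simp
    | succ n ih =>
      rw [pow_succ, ih]
      have hA : A * A = (2 : ℤ) • A - 1 := by
        rw [fo_CH, hd, ht, one_smul]
      rw [add_mul, one_mul, smul_mul_assoc, sub_mul, one_mul, hA]
      push_cast
      module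
  have h1 := hp k
  rw [h] at h1
  have h2 : (k : ℤ) • (A - 1) = 0 := by
    have := h1.symm
    simpa using this
  rcases smul_eq_zero.mp h2 with h3 | h3
  · exact absurd (Int.natCast_eq_zero.mp h3) (by omega)
  · exact sub_eq_zero.mp h3

private lemma fo_det1 (A : Matrix (Fin 2) (Fin 2) ℤ) (k : ℕ) (hk : 0 < k) (h : A ^ k = 1)
    (hd : A.det = 1) : |A.trace| ≤ 1 ∨ A = 1 ∨ A = -1 := by
  by_contra hcon
  push Not at hcon
  obtain ⟨h1, h2, h3⟩ := hcon
  have h4 : ¬ 3 ≤ |A.trace| := by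
    intro ht
    obtain ⟨j, rfl⟩ : ∃ j, k = j + 1 := ⟨k - 1, by omega⟩
    have := fo_grow A hd ht j
    rw [h, Matrix.trace_one] at this
    simp at this
    omega
  have h5 : |A.trace| = 2 := by omega
  rcases (abs_eq (by norm_num : (0 : ℤ) ≤ 2)).mp h5 with h6 | h6
  · exact h2 (fo_two A hd h6 k hk h)
  · apply h3
    have h7 : -A = 1 := by
      refine fo_two (-A) ?_ ?_ (2 * k) (by omega) ?_
      · rw [Matrix.det_neg, hd]; simp
      · rw [Matrix.trace_neg, h6]; norm_num
      · rw [pow_mul, neg_sq, ← pow_mul, mul_comm, pow_mul, h, one_pow]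
    rw [← h7, neg_neg]

theorem p_fo : S_fo := by
  intro A k hk h
  have hdet : A.det = 1 ∨ A.det = -1 := by
    have h1 : A.det ^ k = 1 := by
      rw [← Matrix.det_pow, h, Matrix.det_one]
    have h2 : IsUnit A.det := IsUnit.of_pow_eq_one h1 (by omega)
    exact Int.isUnit_iff.mp h2
  refine ⟨fo_det1 A k hk h, fun hd => ?_, hdet⟩
  have hd2 : (A * A).det = 1 := by
    rw [Matrix.det_mul, hd]; norm_num
  have hp2 : (A * A) ^ k = 1 := by
    rw [← pow_two, ← pow_mul, mul_comm, pow_mul, h, one_pow]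
  have ht2 : (A * A).trace = A.trace ^ 2 + 2 := by
    rw [fo_CH, hd, Matrix.trace_sub, Matrix.trace_smul, Matrix.trace_smul, Matrix.trace_one]
    simp
    ring
  have hsq : 0 ≤ A.trace ^ 2 := sq_nonneg _
  rcases fo_det1 (A * A) k hk hp2 hd2 with h1 | h1 | h1
  · rw [ht2] at h1
    have := (abs_le.mp h1).2
    omega
  · refine ⟨?_, h1⟩
    rw [h1, Matrix.trace_one] at ht2
    have h0 : A.trace ^ 2 = 0 := by
      simp at ht2
      exact pow_eq_zero_iff (by norm_num) |>.mpr ht2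
    exact pow_eq_zero_iff (by norm_num) |>.mp h0
  · rw [h1, Matrix.trace_neg, Matrix.trace_one] at ht2
    simp at ht2
    omega

end Pool.Agent.F2X
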