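import Pool.Agent.Lib.MP_305fdd_al.F2X.Stm

/-!
# MP_305fdd_al, F_2 by-product, piece [FX four]: the length function is `0`-hyperbolic
-/

set_option autoImplicit false

namespace Pool.Agent.F2X

open FreeGroup (IsReduced invRev)

private lemma four_inv {X : List (Fin 2 × Bool)} (h : IsReduced X) : IsReduced (invRev X) := by
  rw [FreeGroup.isReduced_iff_reduce_eq] at h ⊢
  rw [FreeGroup.reduce_invRev, h]

/-- the longest common prefix -/
private lemma four_split (X : List (Fin 2 × Bool)) : ∀ Y : List (Fin 2 × Bool),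
    IsReduced X → IsReduced Y → ∃ P X' Y', X = P ++ X' ∧ Y = P ++ Y' ∧
      IsReduced (invRev X' ++ Y') := by
  induction X with
  | nil =>
    intro Y _ hY
    exact ⟨[], [], Y, rfl, rfl, by simpa using hY⟩
  | cons a X ih =>
    intro Y hX hY
    cases Y with
    | nil => exact ⟨[], a :: X, [], rfl, rfl, by simpa using four_inv hX⟩
    | cons b Y =>
      by_cases hab : a = b
      · subst hab
        obtain ⟨P, X', Y', h1, h2, h3⟩ := ih Y (List.IsChain.tail hX) (List.IsChain.tail hY)
        exact ⟨a :: P, X', Y', by rw [h1]; rfl, by rw [h2]; rfl, h3⟩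
      · refine ⟨[], a :: X, b :: Y, rfl, rfl, ?_⟩
        have e : invRev (a :: X) = invRev X ++ [(a.1, !a.2)] := by simp [invRev]
        have h1 := four_inv hX
        rw [e] at h1 ⊢
        refine IsReduced.append_overlap h1 ?_ (by simp)
        show IsReduced ((a.1, !a.2) :: b :: Y)
        rw [FreeGroup.isReduced_cons_cons]
        refine ⟨fun h => ?_, hY⟩
        by_contra hne
        apply hab
        have h' : a.1 = b.1 := h
        refine Prod.ext h' ?_
        have h'' : (!a.2) ≠ b.2 := hne
        revert h''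
        cases a.2 <;> cases b.2 <;> simp

/-- a common prefix bounds the product from below -/
private lemma four_le {x y : F} {P : List (Fin 2 × Bool)} (hx : P <+: x.toWord)
    (hy : P <+: y.toWord) : 2 * (P.length : ℤ) ≤ gp x y := by
  obtain ⟨X, hX⟩ := hx
  obtain ⟨Y, hY⟩ := hy
  have e : x⁻¹ * y = FreeGroup.mk (invRev X ++ Y) := by
    rw [← FreeGroup.mk_toWord (x := x), ← FreeGroup.mk_toWord (x := y), ← hX, ← hY,
      ← FreeGroup.mul_mk, ← FreeGroup.mul_mk, ← FreeGroup.mul_mk, ← FreeGroup.inv_mk]
    group
  have h1 : (x⁻¹ * y).norm ≤ X.length + Y.length := by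
    rw [e]
    refine FreeGroup.norm_mk_le.trans ?_
    rw [List.length_append, FreeGroup.invRev_length]
  have h2 : x.norm = P.length + X.length := by
    unfold FreeGroup.norm; rw [← hX, List.length_append]
  have h3 : y.norm = P.length + Y.length := by
    unfold FreeGroup.norm; rw [← hY, List.length_append]
  unfold gp
  omega

/-- the value is attained by a common prefix -/
private lemma four_ex (x y : F) : ∃ P : List (Fin 2 × Bool), P <+: x.toWord ∧ P <+: y.toWord ∧
    gp x y = 2 * (P.length : ℤ) := by
  obtain ⟨P, X, Y, hX, hY, hr⟩ := four_split x.toWord y.toWord FreeGroup.isReduced_toWord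
    FreeGroup.isReduced_toWord
  refine ⟨P, ⟨X, hX.symm⟩, ⟨Y, hY.symm⟩, ?_⟩
  have e : x⁻¹ * y = FreeGroup.mk (invRev X ++ Y) := by
    rw [← FreeGroup.mk_toWord (x := x), ← FreeGroup.mk_toWord (x := y), hX, hY,
      ← FreeGroup.mul_mk, ← FreeGroup.mul_mk, ← FreeGroup.mul_mk, ← FreeGroup.inv_mk]
    group
  have h1 : (x⁻¹ * y).norm = X.length + Y.length := by
    rw [e]
    unfold FreeGroup.norm
    rw [FreeGroup.toWord_mk, hr.reduce_eq, List.length_append, FreeGroup.invRev_length]
  have h2 : x.norm = P.length + X.length := by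
    unfold FreeGroup.norm; rw [hX, List.length_append]
  have h3 : y.norm = P.length + Y.length := by
    unfold FreeGroup.norm; rw [hY, List.length_append]
  unfold gp
  omega

theorem p_four : S_four := by
  constructor
  · intro x y z
    obtain ⟨P, hPx, hPy, hP⟩ := four_ex x y
    obtain ⟨Q, hQy, hQz, hQ⟩ := four_ex y z
    rcases List.prefix_or_prefix_of_prefix hPy hQy with h | h
    · refine (min_le_left _ _).trans ?_
      rw [hP]
      exact four_le hPx (h.trans hQz)
    · refine (min_le_right _ _).trans ?_
      rw [hQ]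
      exact four_le (h.trans hPx) hQz
  · intro x y
    obtain ⟨P, hPx, hPy, hP⟩ := four_ex x y
    refine ⟨?_, ?_, ?_, ⟨P.length, hP⟩⟩
    · unfold gp
      have e : (y⁻¹ * x).norm = (x⁻¹ * y).norm := by
        rw [← FreeGroup.norm_inv_eq (x := y⁻¹ * x), mul_inv_rev, inv_inv]
      rw [e]
      ring
    · rw [hP]; positivity
    · rw [hP]
      have h := hPx.length_le
      have h' : (P.length : ℤ) ≤ (x.norm : ℤ) := by exact_mod_cast h
      linarith

end Pool.Agent.F2X
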