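import Pool.Agent.Lib.MP_305fdd_al.F2X.Stm

/-!
# MP_305fdd_al, F2X: piece g1
-/

set_option autoImplicit false

namespace Pool.Agent.F2X

open Matrix

private theorem g1_pow {Q : Type} [Group Q] [Finite Q] (θ : Q →* GL (Fin 2) ℤ) (q : Q) :
    0 < Nat.card Q ∧ (θ q).val ^ (Nat.card Q) = 1 := by
  refine ⟨Nat.card_pos, ?_⟩
  have h : (θ q) ^ (Nat.card Q) = 1 := by rw [← map_pow, pow_card_eq_one', map_one]
  have h2 := congrArg Units.val h
  rwa [Units.val_pow_eq_pow_val, Units.val_one] at h2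

private theorem g1_kind (hfo : S_fo) {Q : Type} [Group Q] [Finite Q] (θ : Q →* GL (Fin 2) ℤ)
    (hell : ∀ q, (θ q).val.det = 1 → 1 < |(θ q).val.trace|) (q : Q) :
    θ q = 1 ∨ θ q = -1 ∨ ((θ q).val.det = -1 ∧ θ q * θ q = 1) := by
  obtain ⟨hk, hp⟩ := g1_pow θ q
  obtain ⟨h1, h2, h3⟩ := hfo (θ q).val _ hk hp
  rcases h3 with h3 | h3
  · rcases h1 h3 with h | h | h
    · exact absurd (hell q h3) (not_lt.2 h)
    · exact Or.inl (Units.ext h)
    · exact Or.inr (Or.inl (Units.ext h))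
  · exact Or.inr (Or.inr ⟨h3, Units.ext (h2 h3).2⟩)

private theorem g1_tr_one : (1 : Matrix (Fin 2) (Fin 2) ℤ).trace = 2 := by simp

private theorem g1_tr_neg : (-1 : Matrix (Fin 2) (Fin 2) ℤ).trace = -2 := by
  rw [Matrix.trace_neg, g1_tr_one]

private theorem g1_det_neg : (-1 : Matrix (Fin 2) (Fin 2) ℤ).det = 1 := by
  rw [Matrix.det_neg]; simp

private theorem g1_one (hfo : S_fo) (htr : S_tr) {Q : Type} [Group Q] [Finite Q]
    (θ θ' : Q →* GL (Fin 2) ℤ) (hLC : LC θ θ') (q : Q) (h : θ q = 1) : θ' q = 1 := by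
  obtain ⟨hk, hp⟩ := g1_pow θ' q
  obtain ⟨h1, h2, h3⟩ := hfo (θ' q).val _ hk hp
  obtain ⟨ht, hd⟩ := htr (θ q) (θ' q) fun n hn => by
    obtain ⟨X, hX⟩ := hLC n hn
    exact ⟨X, hX q⟩
  rw [h, Units.val_one] at ht hd
  rw [g1_tr_one] at ht
  rw [Matrix.det_one] at hd
  rcases h1 hd.symm with h | h | h
  · rw [← ht] at h
    norm_num at h
  · exact Units.ext h
  · rw [h, g1_tr_neg] at ht
    norm_num at ht

private theorem g1_neg (hfo : S_fo) (htr : S_tr) {Q : Type} [Group Q] [Finite Q]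
    (θ θ' : Q →* GL (Fin 2) ℤ) (hLC : LC θ θ') (q : Q) (h : θ q = -1) : θ' q = -1 := by
  obtain ⟨hk, hp⟩ := g1_pow θ' q
  obtain ⟨h1, h2, h3⟩ := hfo (θ' q).val _ hk hp
  obtain ⟨ht, hd⟩ := htr (θ q) (θ' q) fun n hn => by
    obtain ⟨X, hX⟩ := hLC n hn
    exact ⟨X, hX q⟩
  rw [h, Units.val_neg, Units.val_one] at ht hd
  rw [g1_tr_neg] at ht
  rw [g1_det_neg] at hd
  rcases h1 hd.symm with h | h | h
  · rw [← ht] at h
    norm_num at h
  · rw [h, g1_tr_one] at ht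
    norm_num at ht
  · exact Units.ext h

private theorem g1_refl (hfo : S_fo) (htr : S_tr) {Q : Type} [Group Q] [Finite Q]
    (θ θ' : Q →* GL (Fin 2) ℤ) (hLC : LC θ θ') (q : Q) (h : (θ q).val.det = -1) :
    (θ' q).val.det = -1 ∧ θ' q * θ' q = 1 := by
  obtain ⟨hk, hp⟩ := g1_pow θ' q
  obtain ⟨h1, h2, h3⟩ := hfo (θ' q).val _ hk hp
  obtain ⟨ht, hd⟩ := htr (θ q) (θ' q) fun n hn => by
    obtain ⟨X, hX⟩ := hLC n hn
    exact ⟨X, hX q⟩
  rw [h] at hd
  exact ⟨hd.symm, Units.ext (h2 hd.symm).2⟩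

private theorem g1_nf (hrefl : S_refl) (s : GL (Fin 2) ℤ) (hd : s.val.det = -1)
    (h : s * s = 1) : ∃ X : GL (Fin 2) ℤ, (red 2 s = 1 ∧ X.val * s.val = !![1, 0; 0, -1] * X.val) ∨
      (red 2 s ≠ 1 ∧ X.val * s.val = !![0, 1; 1, 0] * X.val) := by
  refine hrefl s h ?_ ?_
  · rintro rfl
    rw [Units.val_one, Matrix.det_one] at hd
    norm_num at hd
  · intro h1
    rw [h1, g1_det_neg] at hd
    norm_num at hd

theorem p_g1 (hfo : S_fo) (htr : S_tr) (hrefl : S_refl) : S_g1 := by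
  intro Q _ _ θ θ' hLC hell
  by_cases hall : ∀ q, θ q = 1 ∨ θ q = -1
  · refine ⟨1, fun q => ?_⟩
    rw [one_mul, mul_one]
    rcases hall q with h | h
    · rw [h, g1_one hfo htr θ θ' hLC q h]
    · rw [h, g1_neg hfo htr θ θ' hLC q h]
  · push Not at hall
    obtain ⟨q₀, h1, h2⟩ := hall
    obtain ⟨hd, hs⟩ : (θ q₀).val.det = -1 ∧ θ q₀ * θ q₀ = 1 := by
      rcases g1_kind hfo θ hell q₀ with h | h | h
      · exact absurd h h1
      · exact absurd h h2
      · exact h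
    obtain ⟨hd', hs'⟩ := g1_refl hfo htr θ θ' hLC q₀ hd
    -- conjugate reflections
    obtain ⟨X, hX⟩ : ∃ X : GL (Fin 2) ℤ, X * θ q₀ = θ' q₀ * X := by
      obtain ⟨Y, hY⟩ := hLC 2 two_pos
      have hiff : red 2 (θ q₀) = 1 ↔ red 2 (θ' q₀) = 1 := by
        have h3 := hY q₀
        constructor
        · intro h4
          rw [h4, mul_one] at h3
          exact mul_right_cancel (h3.symm.trans (one_mul Y).symm)
        · intro h4
          rw [h4, one_mul] at h3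
          exact mul_left_cancel (h3.trans (mul_one Y).symm)
      obtain ⟨X1, hX1⟩ := g1_nf hrefl (θ q₀) hd hs
      obtain ⟨X2, hX2⟩ := g1_nf hrefl (θ' q₀) hd' hs'
      -- the common normal form
      obtain ⟨D, hD1, hD2⟩ : ∃ D : Matrix (Fin 2) (Fin 2) ℤ, X1.val * (θ q₀).val = D * X1.val ∧
          X2.val * (θ' q₀).val = D * X2.val := by
        rcases hX1 with ⟨h3, h4⟩ | ⟨h3, h4⟩
        · rcases hX2 with ⟨h5, h6⟩ | ⟨h5, h6⟩
          · exact ⟨_, h4, h6⟩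
          · exact absurd (hiff.1 h3) h5
        · rcases hX2 with ⟨h5, h6⟩ | ⟨h5, h6⟩
          · exact absurd (hiff.2 h5) h3
          · exact ⟨_, h4, h6⟩
      have e1 : X1.val * (θ q₀).val * (X1⁻¹).val = D := by
        rw [hD1, mul_assoc, ← Units.val_mul, mul_inv_cancel, Units.val_one, mul_one]
      have e2 : X2.val * (θ' q₀).val * (X2⁻¹).val = D := by
        rw [hD2, mul_assoc, ← Units.val_mul, mul_inv_cancel, Units.val_one, mul_one]
      have e3 : X1 * θ q₀ * X1⁻¹ = X2 * θ' q₀ * X2⁻¹ := by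
        apply Units.ext
        rw [Units.val_mul, Units.val_mul, Units.val_mul, Units.val_mul, e1, e2]
      refine ⟨X2⁻¹ * X1, ?_⟩
      have e4 : X2⁻¹ * (X1 * θ q₀ * X1⁻¹) * X1 = X2⁻¹ * (X2 * θ' q₀ * X2⁻¹) * X1 := by rw [e3]
      calc X2⁻¹ * X1 * θ q₀ = X2⁻¹ * (X1 * θ q₀ * X1⁻¹) * X1 := by group
        _ = X2⁻¹ * (X2 * θ' q₀ * X2⁻¹) * X1 := e4
        _ = θ' q₀ * (X2⁻¹ * X1) := by group
    have hXi : X * (θ q₀)⁻¹ = (θ' q₀)⁻¹ * X := by
      rw [eq_inv_mul_iff_mul_eq, ← mul_assoc, ← hX, mul_assoc, mul_inv_cancel, mul_one]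
    refine ⟨X, fun q => ?_⟩
    rcases g1_kind hfo θ hell q with h | h | ⟨h, -⟩
    · rw [h, g1_one hfo htr θ θ' hLC q h, mul_one, one_mul]
    · rw [h, g1_neg hfo htr θ θ' hLC q h, mul_neg, neg_mul, mul_one, one_mul]
    · -- a reflection
      have hdet : (θ (q * q₀)).val.det = 1 := by
        rw [map_mul, Units.val_mul, Matrix.det_mul, h, hd]
        norm_num
      rcases g1_kind hfo θ hell (q * q₀) with h3 | h3 | ⟨h3, -⟩
      · have h4 := g1_one hfo htr θ θ' hLC _ h3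
        rw [map_mul] at h3 h4
        rw [eq_inv_of_mul_eq_one_left h3, eq_inv_of_mul_eq_one_left h4]
        exact hXi
      · have h4 := g1_neg hfo htr θ θ' hLC _ h3
        rw [map_mul] at h3 h4
        have h5 : θ q = -(θ q₀)⁻¹ := by
          rw [eq_mul_inv_of_mul_eq h3, neg_mul, one_mul]
        have h6 : θ' q = -(θ' q₀)⁻¹ := by
          rw [eq_mul_inv_of_mul_eq h4, neg_mul, one_mul]
        rw [h5, h6, mul_neg, neg_mul, hXi]
      · rw [hdet] at h3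
        norm_num at h3

end Pool.Agent.F2X
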