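import Pool.Agent.Lib.MP_305fdd_al.F2X.Stm

/-!
# MP_305fdd_al, F2X: [FX g2]

An elliptic element `J`, all other elements commute with it.
-/

set_option autoImplicit false

namespace Pool.Agent.F2X

open Matrix

/-- two matrices which commute with `[[0, -1], [1, t]]` commute with each other -/
theorem g2_comm {R : Type} [CommRing R] (t : R) (A B : Matrix (Fin 2) (Fin 2) R)
    (hA : A * !![0, -1; 1, t] = !![0, -1; 1, t] * A)
    (hB : B * !![0, -1; 1, t] = !![0, -1; 1, t] * B) : A * B = B * A := by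
  have key : ∀ C : Matrix (Fin 2) (Fin 2) R, C * !![0, -1; 1, t] = !![0, -1; 1, t] * C →
      C 0 1 = - C 1 0 ∧ C 1 1 = C 0 0 + t * C 1 0 := by
    intro C hC
    have h1 := congrFun (congrFun hC 0) 0
    have h2 := congrFun (congrFun hC 1) 0
    simp [Matrix.mul_apply, Fin.sum_univ_two] at h1 h2
    exact ⟨by linear_combination h1, by linear_combination h2⟩
  obtain ⟨a1, a2⟩ := key A hA
  obtain ⟨b1, b2⟩ := key B hB
  ext i j
  fin_cases i <;> fin_cases j <;>
    simp [Matrix.mul_apply, Fin.sum_univ_two, a1, a2, b1, b2] <;> ring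

/-- integral matrices which are equal modulo all `n` are equal -/
theorem g2_ext (A B : GL (Fin 2) ℤ) (h : ∀ n : ℕ, 0 < n → red n A = red n B) : A = B := by
  apply Units.ext
  ext i j
  set n : ℕ := (B.val i j - A.val i j).natAbs + 1 with hn
  have h1 := h n (Nat.succ_pos _)
  have h1' : (red n A).val = (red n B).val := by rw [h1]
  have h2 : ((A.val i j : ℤ) : ZMod n) = ((B.val i j : ℤ) : ZMod n) :=
    congrFun (congrFun h1' i) j
  rw [ZMod.intCast_eq_intCast_iff_dvd_sub] at h2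
  have h3 : B.val i j - A.val i j = 0 := by
    apply Int.eq_zero_of_abs_lt_dvd h2
    rw [hn]
    push_cast
    omega
  linarith

theorem p_g2 : S_tr → S_std → S_g2 := by
  intro htr hstd Q _ _ θ θ' hLC q₀ hdet htrace hcomm
  obtain ⟨e1, e2⟩ := htr (θ q₀) (θ' q₀) fun n hn => by
    obtain ⟨X, hX⟩ := hLC n hn
    exact ⟨X, hX q₀⟩
  obtain ⟨X₁, h1⟩ := hstd (θ q₀) hdet htrace
  obtain ⟨X₂, h2⟩ := hstd (θ' q₀) (by rw [← e2, hdet]) (by rw [← e1]; exact htrace)
  rw [← e1] at h2
  set t := (θ q₀).val.trace with ht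
  set K : GL (Fin 2) ℤ := X₁ * θ q₀ * X₁⁻¹ with hK
  have hKval : K.val = !![0, -1; 1, t] := by
    show X₁.val * (θ q₀).val * (X₁⁻¹).val = _
    rw [h1, mul_assoc, Units.mul_inv, mul_one]
  have hK1 : X₁ * θ q₀ = K * X₁ := by
    rw [hK, inv_mul_cancel_right]
  have hK2 : X₂ * θ' q₀ = K * X₂ := by
    apply Units.ext
    show X₂.val * (θ' q₀).val = K.val * X₂.val
    rw [h2, hKval]
  have hred : ∀ (n : ℕ), (red n K).val = !![0, -1; 1, (t : ZMod n)] := by
    intro n
    show K.val.map (Int.castRingHom (ZMod n)) = _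
    rw [hKval]
    ext i j
    fin_cases i <;> fin_cases j <;> simp
  have hmain : ∀ q, X₁ * θ q * X₁⁻¹ = X₂ * θ' q * X₂⁻¹ := by
    intro q
    apply g2_ext
    intro n hn
    obtain ⟨X, hX⟩ := hLC n hn
    set A := X₁ * θ q * X₁⁻¹ with hA
    set Y := red n X₂ * X * (red n X₁)⁻¹ with hY
    have c1 : Y * red n K = red n K * Y := by
      have e3 := hX q₀
      have e4 := congrArg (red n) hK1
      have e5 := congrArg (red n) hK2
      rw [map_mul, map_mul] at e4 e5
      have e6 : (red n X₁)⁻¹ * red n K = red n (θ q₀) * (red n X₁)⁻¹ := by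
        rw [inv_mul_eq_iff_eq_mul, ← mul_assoc, e4, mul_inv_cancel_right]
      calc Y * red n K = red n X₂ * X * ((red n X₁)⁻¹ * red n K) := by rw [hY, mul_assoc]
        _ = red n X₂ * (X * red n (θ q₀)) * (red n X₁)⁻¹ := by rw [e6]; simp only [mul_assoc]
        _ = (red n X₂ * red n (θ' q₀)) * X * (red n X₁)⁻¹ := by rw [e3]; simp only [mul_assoc]
        _ = red n K * Y := by rw [e5, hY]; simp only [mul_assoc]
    have c2 : red n A * red n K = red n K * red n A := by
      rw [← map_mul, ← map_mul]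
      congr 1
      rw [hA, hK]
      calc X₁ * θ q * X₁⁻¹ * (X₁ * θ q₀ * X₁⁻¹) = X₁ * (θ q * θ q₀) * X₁⁻¹ := by group
        _ = X₁ * (θ q₀ * θ q) * X₁⁻¹ := by rw [hcomm]
        _ = X₁ * θ q₀ * X₁⁻¹ * (X₁ * θ q * X₁⁻¹) := by group
    have c3 : Y * red n A = red n A * Y := by
      apply Units.ext
      apply g2_comm (t : ZMod n)
      · rw [← hred]
        exact congrArg Units.val c1
      · rw [← hred]
        exact congrArg Units.val c2
    have c4 : Y * red n A = red n (X₂ * θ' q * X₂⁻¹) * Y := by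
      rw [hY, hA, map_mul, map_mul, map_mul, map_mul, map_inv, map_inv]
      calc red n X₂ * X * (red n X₁)⁻¹ * (red n X₁ * red n (θ q) * (red n X₁)⁻¹)
          = red n X₂ * (X * red n (θ q)) * (red n X₁)⁻¹ := by group
        _ = red n X₂ * (red n (θ' q) * X) * (red n X₁)⁻¹ := by rw [hX]
        _ = red n X₂ * red n (θ' q) * (red n X₂)⁻¹ * (red n X₂ * X * (red n X₁)⁻¹) := by group
    rw [c3] at c4
    exact mul_right_cancel c4
  refine ⟨X₂⁻¹ * X₁, fun q => ?_⟩
  have h3 := hmain q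
  rw [mul_inv_eq_iff_eq_mul] at h3
  rw [mul_assoc, h3]
  group

end Pool.Agent.F2X
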