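import Pool.Agent.Lib.MP_305fdd_al.F2X.Stm

/-!
# MP_305fdd_al: [FX gen], a reduced generating pair is a signed permutation of the basis
-/

set_option autoImplicit false

namespace Pool.Agent.F2X

theorem gen_chain (u v : F) : ∀ (n : ℕ) (L : List F), L.length = n → (∀ x ∈ L, x ∈ Lt u v) →
    ∃ L' : List F, (∀ x ∈ L', x ∈ Lt u v) ∧ L'.IsChain (fun x y => x * y ≠ 1) ∧
      L'.prod = L.prod := by
  intro n
  induction n using Nat.strong_induction_on with
  | _ n ih =>
    intro L hn hL
    by_cases hc : L.IsChain (fun x y => x * y ≠ 1)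
    · exact ⟨L, hL, hc, rfl⟩
    · rw [List.isChain_iff_forall_rel_of_append_cons_cons] at hc
      push Not at hc
      obtain ⟨x, y, l1, l2, hl, hxy⟩ := hc
      have hlen : (l1 ++ l2).length < n := by
        rw [← hn, hl]
        simp only [List.length_append, List.length_cons]
        omega
      have hmem : ∀ z ∈ l1 ++ l2, z ∈ Lt u v := by
        intro z hz
        refine hL z ?_
        rw [hl]
        rcases List.mem_append.1 hz with h | h
        · exact List.mem_append.2 (Or.inl h)
        · exact List.mem_append.2 (Or.inr (List.mem_cons_of_mem _ (List.mem_cons_of_mem _ h)))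
      obtain ⟨L', h1, h2, h3⟩ := ih _ hlen (l1 ++ l2) rfl hmem
      refine ⟨L', h1, h2, ?_⟩
      rw [h3, hl, List.prod_append, List.prod_append, List.prod_cons, List.prod_cons,
        ← mul_assoc x y, hxy, one_mul]

theorem gen_mem (h : S_word) (u v : F) (hr : NRed u v)
    (hc : Subgroup.closure ({u, v} : Set F) = ⊤) (w : F) (hw : w.norm = 1) : w ∈ Lt u v := by
  have hw' : w ∈ Submonoid.closure (({u, v} : Set F) ∪ ({u, v} : Set F)⁻¹) := by
    rw [← Subgroup.closure_toSubmonoid, hc]
    exact Subgroup.mem_top w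
  obtain ⟨L, hL, hp⟩ := Submonoid.exists_list_of_mem_closure hw'
  have hL' : ∀ x ∈ L, x ∈ Lt u v := by
    intro x hx
    unfold Lt
    rcases hL x hx with h1 | h1
    · rcases h1 with h1 | h1
      · exact Or.inl h1
      · exact Or.inr (Or.inr (Or.inl h1))
    · rcases Set.mem_inv.1 h1 with h1 | h1
      · exact Or.inr (Or.inl (by rw [← h1, inv_inv]))
      · exact Or.inr (Or.inr (Or.inr (by
          have h2 : x⁻¹ = v := h1
          rw [Set.mem_singleton_iff, ← h2, inv_inv])))
  obtain ⟨L', h1, h2, h3⟩ := gen_chain u v _ L rfl hL'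
  have h4 := h u v hr L' h1 h2
  rw [h3, hp, hw] at h4
  rcases L' with _ | ⟨x, l⟩
  · rw [hp, List.prod_nil] at h3
    rw [← h3, FreeGroup.norm_one] at hw
    exact absurd hw (by norm_num)
  · have h5 : l = [] := by
      rw [List.length_cons] at h4
      exact List.length_eq_zero_iff.1 (by omega)
    rw [hp, h5, List.prod_singleton] at h3
    rw [← h3]
    exact h1 x List.mem_cons_self

theorem gen_ne1 : ga ≠ gb := by
  intro h
  have h1 := congrFun (congrArg vec h) 0
  simp at h1

theorem gen_ne2 : ga ≠ gb⁻¹ := by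
  intro h
  have h1 := congrFun (congrArg vec h) 0
  simp at h1

theorem p_gen (h : S_word) : S_gen := by
  intro u v hr hc
  have ha := gen_mem h u v hr hc ga (FreeGroup.norm_of 0)
  have hb := gen_mem h u v hr hc gb (FreeGroup.norm_of 1)
  have n1 : ga ≠ gb := gen_ne1
  have n2 : ga ≠ gb⁻¹ := gen_ne2
  have n3 : ga⁻¹ ≠ gb := fun h => n2 (by rw [← h, inv_inv])
  have n4 : ga⁻¹ ≠ gb⁻¹ := fun h => n1 (inv_injective h)
  have key : ∀ w t : F, t = w ∨ t = w⁻¹ → w = t ∨ w = t⁻¹ := by
    rintro w t (h | h)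
    · exact Or.inl h.symm
    · exact Or.inr (by rw [h, inv_inv])
  have ha' : (u = ga ∨ u = ga⁻¹) ∨ (v = ga ∨ v = ga⁻¹) := by
    rcases ha with h | h | h | h
    · exact Or.inl (key u ga (Or.inl h))
    · exact Or.inl (key u ga (Or.inr h))
    · exact Or.inr (key v ga (Or.inl h))
    · exact Or.inr (key v ga (Or.inr h))
  have hb' : (u = gb ∨ u = gb⁻¹) ∨ (v = gb ∨ v = gb⁻¹) := by
    rcases hb with h | h | h | h
    · exact Or.inl (key u gb (Or.inl h))
    · exact Or.inl (key u gb (Or.inr h))
    · exact Or.inr (key v gb (Or.inl h))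
    · exact Or.inr (key v gb (Or.inr h))
  have no : ∀ w : F, (w = ga ∨ w = ga⁻¹) → (w = gb ∨ w = gb⁻¹) → False := by
    rintro w (h | h) (h' | h')
    · exact n1 (h.symm.trans h')
    · exact n2 (h.symm.trans h')
    · exact n3 (h.symm.trans h')
    · exact n4 (h.symm.trans h')
  rcases ha' with h1 | h1 <;> rcases hb' with h2 | h2
  · exact (no u h1 h2).elim
  · exact Or.inl ⟨h1, h2⟩
  · exact Or.inr ⟨h2, h1⟩
  · exact (no v h1 h2).elim

end Pool.Agent.F2X
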