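import Pool.Agent.Lib.MP_305fdd_al.F2X.Stm

set_option autoImplicit false

namespace Pool.Agent.F2X

theorem p_half (h1 : S_four) (h2 : S_pre) (h3 : S_sqn) : S_half := by
  intro u v hu hv two
  obtain ⟨hyp, hgp⟩ := h1
  by_cases h3' : ∀ x ∈ Lt u v, ∀ y ∈ Lt u v, ∀ z ∈ Lt u v, x * y ≠ 1 → y * z ≠ 1 →
    gp x⁻¹ y + gp y⁻¹ z < 2 * (y.norm : ℤ)
  · exact Or.inl ⟨hu, hv, two, h3'⟩
  right
  push Not at h3'
  obtain ⟨x, hx, y, hy, z, hz, hxy, hyz, hlong⟩ := h3'
  have hne : ∀ w ∈ Lt u v, w ≠ 1 := by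
    intro w hw
    rcases hw with rfl | rfl | rfl | rfl
    · exact hu
    · exact inv_ne_one.2 hu
    · exact hv
    · exact inv_ne_one.2 hv
  have hy1 := hne y hy
  obtain ⟨t1, t2⟩ := two x hx y hy hxy
  obtain ⟨t3, t4⟩ := two y hy z hz hyz
  have e1 : gp x⁻¹ y = (x.norm : ℤ) + y.norm - (x * y).norm := by
    rw [gp, inv_inv, FreeGroup.norm_inv_eq]
  have e2 : gp y⁻¹ z = (y.norm : ℤ) + z.norm - (y * z).norm := by
    rw [gp, inv_inv, FreeGroup.norm_inv_eq]
  have a1 : gp x⁻¹ y = (y.norm : ℤ) := by omega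
  have a2 : gp y⁻¹ z = (y.norm : ℤ) := by omega
  have b1 : y.norm ≤ x.norm := by omega
  have b2 : y.norm ≤ z.norm := by omega
  have c1 : (x * y).norm = x.norm := by omega
  have c2 : (y * z).norm = z.norm := by omega
  obtain ⟨-, -, -, c, hc⟩ := hgp x⁻¹ y
  obtain ⟨k, hk⟩ : ∃ k : ℕ, y.norm = 2 * k := ⟨c.toNat, by omega⟩
  have hypos : 0 < y.norm := by
    rcases Nat.eq_zero_or_pos y.norm with h | h
    · exact absurd (FreeGroup.norm_eq_zero.1 h) hy1
    · exact h
  have hsq := h3 y hy1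
  have hxney : x ≠ y := by
    rintro rfl
    omega
  have hzney : z ≠ y := by
    rintro rfl
    omega
  have hxney' : x ≠ y⁻¹ := fun h => hxy (by rw [h]; exact inv_mul_cancel y)
  have hzney' : z ≠ y⁻¹ := fun h => hyz (by rw [h]; exact mul_inv_cancel y)
  have hznex : z ≠ x⁻¹ := by
    rintro rfl
    have h4 := hyp y⁻¹ x⁻¹ y
    rw [a1, a2, min_self] at h4
    have e3 : gp y⁻¹ y = (y.norm : ℤ) + y.norm - (y * y).norm := by
      rw [gp, inv_inv, FreeGroup.norm_inv_eq]
    omega
  -- the position of the letters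
  have pos : ((x = u ∨ x = u⁻¹) ∧ (y = v ∨ y = v⁻¹) ∧ (z = u ∨ z = u⁻¹)) ∨
      ((x = v ∨ x = v⁻¹) ∧ (y = u ∨ y = u⁻¹) ∧ (z = v ∨ z = v⁻¹)) := by
    have hx' : x = u ∨ x = u⁻¹ ∨ x = v ∨ x = v⁻¹ := hx
    have hz' : z = u ∨ z = u⁻¹ ∨ z = v ∨ z = v⁻¹ := hz
    have hy' : y = u ∨ y = u⁻¹ ∨ y = v ∨ y = v⁻¹ := hy
    rcases hy' with h | h | h | h
    · right
      rw [h] at hxney hxney' hzney hzney'
      refine ⟨?_, Or.inl h, ?_⟩
      · rcases hx' with g | g | g | g
        · exact absurd g hxney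
        · exact absurd g hxney'
        · exact Or.inl g
        · exact Or.inr g
      · rcases hz' with g | g | g | g
        · exact absurd g hzney
        · exact absurd g hzney'
        · exact Or.inl g
        · exact Or.inr g
    · right
      rw [h] at hxney hxney' hzney hzney'
      rw [inv_inv] at hxney' hzney'
      refine ⟨?_, Or.inr h, ?_⟩
      · rcases hx' with g | g | g | g
        · exact absurd g hxney'
        · exact absurd g hxney
        · exact Or.inl g
        · exact Or.inr g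
      · rcases hz' with g | g | g | g
        · exact absurd g hzney'
        · exact absurd g hzney
        · exact Or.inl g
        · exact Or.inr g
    · left
      rw [h] at hxney hxney' hzney hzney'
      refine ⟨?_, Or.inl h, ?_⟩
      · rcases hx' with g | g | g | g
        · exact Or.inl g
        · exact Or.inr g
        · exact absurd g hxney
        · exact absurd g hxney'
      · rcases hz' with g | g | g | g
        · exact Or.inl g
        · exact Or.inr g
        · exact absurd g hzney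
        · exact absurd g hzney'
    · left
      rw [h] at hxney hxney' hzney hzney'
      rw [inv_inv] at hxney' hzney'
      refine ⟨?_, Or.inr h, ?_⟩
      · rcases hx' with g | g | g | g
        · exact Or.inl g
        · exact Or.inr g
        · exact absurd g hxney'
        · exact absurd g hxney
      · rcases hz' with g | g | g | g
        · exact Or.inl g
        · exact Or.inr g
        · exact absurd g hzney'
        · exact absurd g hzney
  have hzx : z = x := by
    have key : ∀ w : F, (x = w ∨ x = w⁻¹) → (z = w ∨ z = w⁻¹) → z = x := by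
      intro w g1 g2
      rcases g1 with g1 | g1 <;> rcases g2 with g2 | g2
      · rw [g1, g2]
      · exact absurd (by rw [g2, g1]) hznex
      · exact absurd (by rw [g2, g1, inv_inv]) hznex
      · rw [g1, g2]
    rcases pos with ⟨g1, -, g2⟩ | ⟨g1, -, g2⟩
    · exact key u g1 g2
    · exact key v g1 g2
  subst hzx
  -- the halves of `y`
  obtain ⟨p, hp, hp'⟩ := h2 y k (by omega)
  have hq : (y⁻¹ * p).norm = k := by
    rw [show y⁻¹ * p = (p⁻¹ * y)⁻¹ by group, FreeGroup.norm_inv_eq]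
    omega
  set q : F := y⁻¹ * p with hqdef
  have hyq : y * q = p := by rw [hqdef]; group
  have g1 : gp p y = 2 * (k : ℤ) := by
    rw [gp]; omega
  have g2 : gp y z⁻¹ = 2 * (k : ℤ) := by
    rw [(hgp y z⁻¹).1, a1]; omega
  have g3 : 2 * (k : ℤ) ≤ gp p z⁻¹ := by
    have := hyp p y z⁻¹
    rwa [g1, g2, min_self] at this
  have g4 : gp q y⁻¹ = 2 * (k : ℤ) := by
    rw [gp, FreeGroup.norm_inv_eq, hq, show q⁻¹ * y⁻¹ = p⁻¹ by rw [hqdef]; group,
      FreeGroup.norm_inv_eq, hp]
    omega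
  have g5 : 2 * (k : ℤ) ≤ gp q z := by
    have := hyp q y⁻¹ z
    rw [g4, a2] at this
    omega
  have g6 : gp q z = (k : ℤ) + z.norm - (q⁻¹ * z).norm := by
    rw [gp, hq]
  have g7 : z.norm ≤ q.norm + (q⁻¹ * z).norm := by
    have := FreeGroup.norm_mul_le q (q⁻¹ * z)
    rwa [mul_inv_cancel_left] at this
  have g8 : ((q⁻¹ * z).norm : ℤ) = z.norm - k := by omega
  have g9 : gp z⁻¹ (q⁻¹ * z)⁻¹ = 2 * (z.norm : ℤ) - 2 * k := by
    rw [gp, FreeGroup.norm_inv_eq, FreeGroup.norm_inv_eq,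
      show z⁻¹⁻¹ * (q⁻¹ * z)⁻¹ = q by group, hq]
    omega
  have g10 : 2 * (k : ℤ) ≤ gp p (q⁻¹ * z)⁻¹ := by
    have := hyp p z⁻¹ (q⁻¹ * z)⁻¹
    rw [g9] at this
    omega
  have g11 : gp p (q⁻¹ * z)⁻¹ = (k : ℤ) + (q⁻¹ * z).norm - (q⁻¹ * (z * y) * q).norm := by
    rw [gp, FreeGroup.norm_inv_eq, hp,
      show p⁻¹ * (q⁻¹ * z)⁻¹ = (q⁻¹ * (z * y) * q)⁻¹ by
        rw [mul_assoc q⁻¹, mul_assoc z, hyq]; group,
      FreeGroup.norm_inv_eq]
  have g12 : (q⁻¹ * y * q).norm ≤ 2 * k := by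
    rw [mul_assoc, hyq]
    have := FreeGroup.norm_mul_le q⁻¹ p
    rw [FreeGroup.norm_inv_eq] at this
    omega
  have g13 : z.norm + y.norm = u.norm + v.norm := by
    rcases pos with ⟨r1, r2, -⟩ | ⟨r1, r2, -⟩
    · have s1 : z.norm = u.norm := by
        rcases r1 with r | r
        · rw [r]
        · rw [r, FreeGroup.norm_inv_eq]
      have s2 : y.norm = v.norm := by
        rcases r2 with r | r
        · rw [r]
        · rw [r, FreeGroup.norm_inv_eq]
      omega
    · have s1 : z.norm = v.norm := by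
        rcases r1 with r | r
        · rw [r]
        · rw [r, FreeGroup.norm_inv_eq]
      have s2 : y.norm = u.norm := by
        rcases r2 with r | r
        · rw [r]
        · rw [r, FreeGroup.norm_inv_eq]
      omega
  refine ⟨z, y, q, ?_, ?_⟩
  · rcases pos with ⟨r1, r2, -⟩ | ⟨r1, r2, -⟩
    · exact Or.inl ⟨r1, r2⟩
    · exact Or.inr ⟨r1, r2⟩
  · omega

end Pool.Agent.F2X
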