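import Pool.Agent.Lib.MP_305fdd_al.F2X.Stm

/-!
# MP_305fdd_al, finite extensions of the free group of rank two: [FX inv]
-/

set_option autoImplicit false

namespace Pool.Agent.F2X

open Matrix

private theorem inv_aux {p q r s a b c d : ℤ} (hJ : p * s - q * r = 1) (ht : |p + s| ≤ 1)
    (hB : a * d - b * c = 1) (hT : a + d = p + s) (h1 : q * c = b * r)
    (h2 : (p - s) * b = q * (a - d)) :
    (a = p ∧ b = q ∧ c = r ∧ d = s) ∨ (a = s ∧ b = -q ∧ c = -r ∧ d = p) := by
  have ht2 : (p + s) ^ 2 ≤ 1 := by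
    have := sq_abs (p + s)
    nlinarith [abs_nonneg (p + s)]
  have hneg : (p - s) ^ 2 + 4 * (q * r) < 0 := by nlinarith
  have hq : q ≠ 0 := by
    rintro rfl
    nlinarith [sq_nonneg (p - s)]
  have hdisc : (a - d) ^ 2 + 4 * (b * c) = (p - s) ^ 2 + 4 * (q * r) := by
    have e1 : (a + d) ^ 2 = (p + s) ^ 2 := by rw [hT]
    linarith [e1, hJ, hB, show (a - d) ^ 2 + 4 * (b * c) = (a + d) ^ 2 - 4 * (a * d - b * c) by ring,
      show (p - s) ^ 2 + 4 * (q * r) = (p + s) ^ 2 - 4 * (p * s - q * r) by ring]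
  have hmul : (b ^ 2 - q ^ 2) * ((p - s) ^ 2 + 4 * (q * r)) = 0 := by
    have e2 : q ^ 2 * ((a - d) ^ 2 + 4 * (b * c)) = b ^ 2 * ((p - s) ^ 2 + 4 * (q * r)) := by
      have e3 : (q * (a - d)) ^ 2 = ((p - s) * b) ^ 2 := by rw [h2]
      have e4 : (q * c) * (q * b) = (b * r) * (q * b) := by rw [h1]
      linear_combination e3 + 4 * e4
    rw [hdisc] at e2
    linear_combination -e2
  have hbq : b ^ 2 = q ^ 2 := by
    rcases mul_eq_zero.mp hmul with h | h
    · linarith
    · exact absurd h (ne_of_lt hneg)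
  rcases sq_eq_sq_iff_eq_or_eq_neg.mp hbq with h | h
  · left
    subst h
    have hc : c = r := mul_left_cancel₀ hq h1
    have had : a - d = p - s := by
      have : b * (a - d) = b * (p - s) := by rw [← h2]; ring
      exact mul_left_cancel₀ hq this
    refine ⟨by linarith, rfl, hc, by linarith⟩
  · right
    subst h
    have hc : c = -r := by
      have : q * c = q * (-r) := by rw [h1]; ring
      exact mul_left_cancel₀ hq this
    have had : a - d = -(p - s) := by
      have : q * (a - d) = q * (-(p - s)) := by rw [← h2]; ring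
      exact mul_left_cancel₀ hq this
    refine ⟨by linarith, rfl, hc, by linarith⟩

theorem p_inv : S_inv := by
  intro J B hJ ht hB hT hc
  rw [det_fin_two] at hJ hB
  rw [trace_fin_two] at ht hT
  rw [trace_fin_two] at hT
  have h00 := congrFun (congrFun hc 0) 0
  have h01 := congrFun (congrFun hc 0) 1
  simp only [Matrix.mul_apply, Fin.sum_univ_two] at h00 h01
  rcases inv_aux hJ ht hB hT (by linarith) (by linear_combination h01) with
    ⟨h1, h2, h3, h4⟩ | ⟨h1, h2, h3, h4⟩
  · left
    ext i j
    fin_cases i <;> fin_cases j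
    · exact h1
    · exact h2
    · exact h3
    · exact h4
  · right
    rw [adjugate_fin_two]
    ext i j
    fin_cases i <;> fin_cases j
    · exact h1
    · exact h2
    · exact h3
    · exact h4

end Pool.Agent.F2X
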