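import Pool.Agent.Lib.MP_305fdd_al.F2X.Stm
import Pool.Agent.Lib.MP_305fdd_al.Genus

set_option autoImplicit false

namespace Pool.Agent.F2X

open Matrix Pool.Agent.MP_305fdd_al Pool.Agent.Lib.MP_305fdd_al

/-- a group with a finitely generated subgroup of finite index is finitely generated -/
theorem main_fg {Γ : Type} [Group Γ] (N : Subgroup Γ) [N.FiniteIndex] (h : Group.FG N) :
    Group.FG Γ := by
  classical
  obtain ⟨S, hS⟩ := (Group.fg_iff_subgroup_fg N).1 h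
  have hfin : Finite (Γ ⧸ N) := inferInstance
  rw [Group.fg_iff]
  refine ⟨(S : Set Γ) ∪ Set.range (fun q : Γ ⧸ N => q.out), ?_,
    S.finite_toSet.union (Set.finite_range _)⟩
  rw [eq_top_iff]
  intro g _
  have h1 : ((g : Γ ⧸ N).out)⁻¹ * g ∈ N := by
    rw [← QuotientGroup.eq]
    exact QuotientGroup.out_eq' _
  have h2 : N ≤ Subgroup.closure ((S : Set Γ) ∪ Set.range (fun q : Γ ⧸ N => q.out)) := by
    rw [← hS]
    exact Subgroup.closure_mono Set.subset_union_left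
  have h3 : (g : Γ ⧸ N).out ∈
      Subgroup.closure ((S : Set Γ) ∪ Set.range (fun q : Γ ⧸ N => q.out)) :=
    Subgroup.subset_closure (Or.inr ⟨_, rfl⟩)
  have h4 := mul_mem h3 (h2 h1)
  rwa [mul_inv_cancel_left] at h4

theorem main_trans {Γ : Type} [Group Γ] {N : Subgroup Γ} [N.Normal] (e : N ≃* F) (α : MulAut F)
    (g : Γ) : Th (e.trans α) g = AM α * Th e g * (AM α)⁻¹ := by
  rw [Th_apply, Th_apply, ← map_inv, ← map_mul, ← map_mul]
  congr 1

theorem p_main (h_same : S_same) (h_fgrf : S_fgrf) (h_nm : S_nm) (h_gl : S_gl) (h_ext : S_ext)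
    (h_sur : S_sur) : S_main := by
  intro hF Γ _ N hN hfin he0 Λ _ hΛ
  obtain ⟨e0⟩ := he0
  obtain ⟨hfg, hrf, hs⟩ := hΛ
  have hfgN : Group.FG N := by
    have : Group.FG F := inferInstance
    exact Group.fg_of_surjective (f := e0.symm.toMonoidHom) e0.symm.surjective
  have hfgΓ : Group.FG Γ := main_fg N hfgN
  obtain ⟨Φ⟩ := exists_natBij hs.symm
  let π : Γ →* Γ ⧸ N := QuotientGroup.mk' N
  have hπ : Function.Surjective π := QuotientGroup.mk'_surjective N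
  let π' : Λ →* Γ ⧸ N := Φ.toFun (Γ ⧸ N) π
  have hπ' : Function.Surjective π' := by
    rw [← MonoidHom.range_eq_top, Φ.range_eq, MonoidHom.range_eq_top]
    exact hπ
  let e : π.ker ≃* F := (MulEquiv.subgroupCongr (QuotientGroup.ker_mk' N)).trans e0
  have hsame : SameFiniteQuotients π'.ker π.ker := h_same Γ Λ Φ (Γ ⧸ N) π hπ
  have hfi : π'.ker.FiniteIndex := Subgroup.finiteIndex_ker _
  obtain ⟨hMfg, hMrf⟩ := h_fgrf Λ π'.ker hfi hfg hrf
  have hgen : InGenus F π'.ker := ⟨hMfg, hMrf, hsame.trans (sameFQ_of_surj e.toMonoidHom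
    e.surjective e.symm.toMonoidHom e.symm.surjective)⟩
  obtain ⟨e'⟩ := hF π'.ker hgen
  -- the homomorphisms of the quotient
  let θ : (Γ ⧸ N) →* GL (Fin 2) ℤ := π.liftOfSurjective hπ ⟨Th e, fun g hg => Th_mem' e g hg⟩
  have hθ : ∀ g, θ (π g) = Th e g := fun g =>
    MonoidHom.liftOfRightInverse_comp_apply π _ (Function.rightInverse_surjInv hπ) ⟨Th e, _⟩ g
  let θ' : (Γ ⧸ N) →* GL (Fin 2) ℤ := π'.liftOfSurjective hπ' ⟨Th e', fun g hg => Th_mem' e' g hg⟩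
  have hθ' : ∀ g, θ' (π' g) = Th e' g := fun g =>
    MonoidHom.liftOfRightInverse_comp_apply π' _ (Function.rightInverse_surjInv hπ') ⟨Th e', _⟩ g
  have hLC : LC θ θ' := by
    intro n hn
    obtain ⟨X, hX⟩ := h_nm Γ Λ Φ (Γ ⧸ N) π hπ e e' n hn
    refine ⟨X, fun q => ?_⟩
    obtain ⟨g, hg⟩ := hπ q
    obtain ⟨l, hl⟩ := hπ' q
    have h1 : θ q = Th e g := by rw [← hg, hθ]
    have h2 : θ' q = Th e' l := by rw [← hl, hθ']
    rw [h1, h2]
    exact hX g l (hg.trans hl.symm)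
  obtain ⟨X, hX⟩ := h_gl (Γ ⧸ N) θ θ' hLC
  obtain ⟨α, hα⟩ := h_sur X
  refine h_ext Γ Λ (Γ ⧸ N) π π' hπ hπ' (e.trans α) e' fun g l hgl => ?_
  rw [main_trans, hα, ← hθ g, hX, hgl, hθ']
  group

end Pool.Agent.F2X
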