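import Pool.Agent.Lib.MP_305fdd_al.F2X.Stm

/-!
# MP_305fdd_al, [FX mv]: elementary moves and inner automorphisms
-/

set_option autoImplicit false

namespace Pool.Agent.F2X



theorem mv_S : aS ∈ El := Subgroup.subset_closure (by simp)
theorem mv_T : aT ∈ El := Subgroup.subset_closure (by simp)
theorem mv_X : aX ∈ El := Subgroup.subset_closure (by simp)

/-- `a ↦ a⁻¹`, `b ↦ b` -/
private noncomputable def mv_e2 : MulAut F := aS * aX

private theorem mv_e2_mem : mv_e2 ∈ El := El.mul_mem mv_S mv_X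

@[simp] private theorem mv_e2_ga : mv_e2 ga = ga⁻¹ := by
  unfold mv_e2; rw [MulAut.mul_apply, aX_ga, aS_gb]

@[simp] private theorem mv_e2_gb : mv_e2 gb = gb := by
  unfold mv_e2; rw [MulAut.mul_apply, aX_gb, aS_ga]

/-- `a ↦ a`, `b ↦ b⁻¹` -/
private noncomputable def mv_e3 : MulAut F := aX * aS

private theorem mv_e3_mem : mv_e3 ∈ El := El.mul_mem mv_X mv_S

@[simp] private theorem mv_e3_ga : mv_e3 ga = ga := by
  unfold mv_e3; rw [MulAut.mul_apply, aS_ga, aX_gb]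

@[simp] private theorem mv_e3_gb : mv_e3 gb = gb⁻¹ := by
  unfold mv_e3; rw [MulAut.mul_apply, aS_gb, map_inv, aX_ga]

/-- `a ↦ a`, `b ↦ b a` -/
private noncomputable def mv_e7 : MulAut F := mv_e3 * (mv_e2 * (aT * (mv_e2 * mv_e3)))

private theorem mv_e7_mem : mv_e7 ∈ El :=
  El.mul_mem mv_e3_mem (El.mul_mem mv_e2_mem (El.mul_mem mv_T (El.mul_mem mv_e2_mem mv_e3_mem)))

@[simp] private theorem mv_e7_ga : mv_e7 ga = ga := by
  unfold mv_e7
  simp only [MulAut.mul_apply, mv_e3_ga, mv_e2_ga, map_inv, aT_ga, inv_inv]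

@[simp] private theorem mv_e7_gb : mv_e7 gb = gb * ga := by
  unfold mv_e7
  simp only [MulAut.mul_apply, mv_e3_ga, mv_e3_gb, mv_e2_ga, mv_e2_gb, map_inv, map_mul, aT_gb,
    mul_inv_rev, inv_inv]

private theorem mv_conj_ga : MulAut.conj ga ∈ El := by
  have h : MulAut.conj ga = aT * (mv_e3 * (aT * mv_e3)) := by
    apply aut_ext
    · simp only [MulAut.conj_apply, MulAut.mul_apply, mv_e3_ga, aT_ga, mul_inv_cancel_right]
    · simp only [MulAut.conj_apply, MulAut.mul_apply, mv_e3_ga, mv_e3_gb, aT_ga, aT_gb, map_mul,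
        map_inv, mul_inv_rev, inv_inv, mul_assoc]
  rw [h]
  exact El.mul_mem mv_T (El.mul_mem mv_e3_mem (El.mul_mem mv_T mv_e3_mem))

private theorem mv_conj_gb : MulAut.conj gb ∈ El := by
  have h : MulAut.conj gb = aX * (MulAut.conj ga * aX) := by
    apply aut_ext
    · simp only [MulAut.conj_apply, MulAut.mul_apply, aX_ga, aX_gb, map_mul, map_inv]
    · simp only [MulAut.conj_apply, MulAut.mul_apply, aX_ga, aX_gb, mul_inv_cancel_right]
  rw [h]
  exact El.mul_mem mv_X (El.mul_mem mv_conj_ga mv_X)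

/-- [FX mv] -/
theorem p_mv : S_mv := by
  constructor
  · intro β
    refine ⟨β * aX, β * mv_e2, β * mv_e3, β * (aX * (mv_e7 * aX)), β * (aX * (aT * aX)), β * aT,
      β * mv_e7, ⟨?_, ?_, ?_⟩, ⟨?_, ?_, ?_⟩, ⟨?_, ?_, ?_⟩, ⟨?_, ?_, ?_⟩, ⟨?_, ?_, ?_⟩, ⟨?_, ?_, ?_⟩,
      ⟨?_, ?_, ?_⟩⟩
    · rw [inv_mul_cancel_left]; exact mv_X
    · rw [MulAut.mul_apply, aX_ga]
    · rw [MulAut.mul_apply, aX_gb]
    · rw [inv_mul_cancel_left]; exact mv_e2_mem
    · rw [MulAut.mul_apply, mv_e2_ga, map_inv]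
    · rw [MulAut.mul_apply, mv_e2_gb]
    · rw [inv_mul_cancel_left]; exact mv_e3_mem
    · rw [MulAut.mul_apply, mv_e3_ga]
    · rw [MulAut.mul_apply, mv_e3_gb, map_inv]
    · rw [inv_mul_cancel_left]; exact El.mul_mem mv_X (El.mul_mem mv_e7_mem mv_X)
    · simp only [MulAut.mul_apply, aX_ga, aX_gb, mv_e7_gb, map_mul]
    · simp only [MulAut.mul_apply, aX_ga, aX_gb, mv_e7_ga]
    · rw [inv_mul_cancel_left]; exact El.mul_mem mv_X (El.mul_mem mv_T mv_X)
    · simp only [MulAut.mul_apply, aX_ga, aX_gb, aT_gb, map_mul]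
    · simp only [MulAut.mul_apply, aX_ga, aX_gb, aT_ga]
    · rw [inv_mul_cancel_left]; exact mv_T
    · rw [MulAut.mul_apply, aT_ga]
    · rw [MulAut.mul_apply, aT_gb, map_mul]
    · rw [inv_mul_cancel_left]; exact mv_e7_mem
    · rw [MulAut.mul_apply, mv_e7_ga]
    · rw [MulAut.mul_apply, mv_e7_gb, map_mul]
  · intro g
    induction g using FreeGroup.induction_on with
    | C1 => rw [map_one]; exact El.one_mem
    | of i =>
      fin_cases i
      · exact mv_conj_ga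
      · exact mv_conj_gb
    | inv_of i h => rw [map_inv]; exact El.inv_mem h
    | mul x y hx hy => rw [map_mul]; exact El.mul_mem hx hy

end Pool.Agent.F2X
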