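import Pool.Agent.Lib.MP_305fdd_al.F2X.Stm

/-!
# MP_305fdd_al: Nielsen's theorem for rank two
-/

set_option autoImplicit false

namespace Pool.Agent.F2X

/-- the pair `(x, y)` is obtained from `β` by elementary automorphisms -/
private def niel_R (β : MulAut F) (x y : F) : Prop :=
  ∃ β' : MulAut F, β⁻¹ * β' ∈ El ∧ β' ga = x ∧ β' gb = y

private theorem niel_tr {β β' β'' : MulAut F} (h : β⁻¹ * β' ∈ El) (h' : β'⁻¹ * β'' ∈ El) :
    β⁻¹ * β'' ∈ El := by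
  have e : β⁻¹ * β'' = (β⁻¹ * β') * (β'⁻¹ * β'') := by group
  rw [e]
  exact El.mul_mem h h'

private theorem niel_self (β : MulAut F) : niel_R β (β ga) (β gb) :=
  ⟨β, by rw [inv_mul_cancel]; exact El.one_mem, rfl, rfl⟩

private theorem niel_sw (hmv : S_mv) {β : MulAut F} {x y : F} (h : niel_R β x y) :
    niel_R β y x := by
  obtain ⟨β', h1, rfl, rfl⟩ := h
  obtain ⟨b1, b2, b3, b4, b5, b6, b7, m1, m2, m3, m4, m5, m6, m7⟩ := hmv.1 β'
  exact ⟨b1, niel_tr h1 m1.1, m1.2.1, m1.2.2⟩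

private theorem niel_il (hmv : S_mv) {β : MulAut F} {x y : F} (h : niel_R β x y) :
    niel_R β x⁻¹ y := by
  obtain ⟨β', h1, rfl, rfl⟩ := h
  obtain ⟨b1, b2, b3, b4, b5, b6, b7, m1, m2, m3, m4, m5, m6, m7⟩ := hmv.1 β'
  exact ⟨b2, niel_tr h1 m2.1, m2.2.1, m2.2.2⟩

private theorem niel_ir (hmv : S_mv) {β : MulAut F} {x y : F} (h : niel_R β x y) :
    niel_R β x y⁻¹ := by
  obtain ⟨β', h1, rfl, rfl⟩ := h
  obtain ⟨b1, b2, b3, b4, b5, b6, b7, m1, m2, m3, m4, m5, m6, m7⟩ := hmv.1 β'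
  exact ⟨b3, niel_tr h1 m3.1, m3.2.1, m3.2.2⟩

private theorem niel_ml (hmv : S_mv) {β : MulAut F} {x y : F} (h : niel_R β x y) :
    niel_R β (x * y) y := by
  obtain ⟨β', h1, rfl, rfl⟩ := h
  obtain ⟨b1, b2, b3, b4, b5, b6, b7, m1, m2, m3, m4, m5, m6, m7⟩ := hmv.1 β'
  exact ⟨b4, niel_tr h1 m4.1, m4.2.1, m4.2.2⟩

private theorem niel_mr (hmv : S_mv) {β : MulAut F} {x y : F} (h : niel_R β x y) :
    niel_R β x (x * y) := by
  obtain ⟨β', h1, rfl, rfl⟩ := h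
  obtain ⟨b1, b2, b3, b4, b5, b6, b7, m1, m2, m3, m4, m5, m6, m7⟩ := hmv.1 β'
  exact ⟨b6, niel_tr h1 m6.1, m6.2.1, m6.2.2⟩

private theorem niel_cj (hmv : S_mv) {β : MulAut F} {x y : F} (g : F) (h : niel_R β x y) :
    niel_R β (g * x * g⁻¹) (g * y * g⁻¹) := by
  obtain ⟨β', h1, rfl, rfl⟩ := h
  refine ⟨MulAut.conj g * β', ?_, rfl, rfl⟩
  have e : β⁻¹ * (MulAut.conj g * β') = (β⁻¹ * β') * MulAut.conj (β'⁻¹ g) := by
    have e1 : MulAut.conj g * β' = β' * MulAut.conj (β'⁻¹ g) := by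
      ext w
      simp only [MulAut.mul_apply, MulAut.conj_apply, map_mul, map_inv, MulAut.apply_inv_self]
    rw [e1, mul_assoc]
  rw [e]
  exact El.mul_mem h1 (hmv.2 _)

/-- all signed permutations of the pair -/
private theorem niel_pm (hmv : S_mv) {β : MulAut F} {u v : F} (h : niel_R β u v) {x y : F}
    (hxy : ((x = u ∨ x = u⁻¹) ∧ (y = v ∨ y = v⁻¹)) ∨
      ((x = v ∨ x = v⁻¹) ∧ (y = u ∨ y = u⁻¹))) : niel_R β x y := by
  rcases hxy with ⟨hx | hx, hy | hy⟩ | ⟨hx | hx, hy | hy⟩ <;> rw [hx, hy]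
  · exact h
  · exact niel_ir hmv h
  · exact niel_il hmv h
  · exact niel_il hmv (niel_ir hmv h)
  · exact niel_sw hmv h
  · exact niel_ir hmv (niel_sw hmv h)
  · exact niel_il hmv (niel_sw hmv h)
  · exact niel_il hmv (niel_ir hmv (niel_sw hmv h))

private theorem niel_norm {u v x y : F}
    (hxy : ((x = u ∨ x = u⁻¹) ∧ (y = v ∨ y = v⁻¹)) ∨
      ((x = v ∨ x = v⁻¹) ∧ (y = u ∨ y = u⁻¹))) : x.norm + y.norm = u.norm + v.norm := by
  rcases hxy with ⟨hx | hx, hy | hy⟩ | ⟨hx | hx, hy | hy⟩ <;> rw [hx, hy] <;>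
    (try simp only [FreeGroup.norm_inv_eq]) <;> omega

private theorem niel_two (hmv : S_mv) (hsqn : S_sqn) {β : MulAut F} {u v : F}
    (h : niel_R β u v)
    (hmin : ∀ x y, niel_R β x y → u.norm + v.norm ≤ x.norm + y.norm) :
    ∀ x ∈ Lt u v, ∀ y ∈ Lt u v, x * y ≠ 1 → x.norm ≤ (x * y).norm ∧ y.norm ≤ (x * y).norm := by
  have key : ∀ x y : F, (((x = u ∨ x = u⁻¹) ∧ (y = v ∨ y = v⁻¹)) ∨
      ((x = v ∨ x = v⁻¹) ∧ (y = u ∨ y = u⁻¹))) →
      x.norm ≤ (x * y).norm ∧ y.norm ≤ (x * y).norm := by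
    intro x y hxy
    have h1 := niel_pm hmv h hxy
    have h2 := hmin _ _ (niel_ml hmv h1)
    have h3 := hmin _ _ (niel_mr hmv h1)
    have h4 := niel_norm hxy
    omega
  have sq : ∀ x : F, x ≠ 1 → x.norm ≤ (x * x).norm := fun x hx => (hsqn x hx).le
  intro x hx y hy hxy
  simp only [Lt, Set.mem_insert_iff, Set.mem_singleton_iff] at hx hy
  have cases : (x = y) ∨ (x * y = 1) ∨ (((x = u ∨ x = u⁻¹) ∧ (y = v ∨ y = v⁻¹)) ∨
      ((x = v ∨ x = v⁻¹) ∧ (y = u ∨ y = u⁻¹))) := by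
    rcases hx with hx | hx | hx | hx <;> rcases hy with hy | hy | hy | hy <;>
      first
      | exact Or.inr (Or.inr (Or.inl ⟨Or.inl hx, Or.inl hy⟩))
      | exact Or.inr (Or.inr (Or.inl ⟨Or.inl hx, Or.inr hy⟩))
      | exact Or.inr (Or.inr (Or.inl ⟨Or.inr hx, Or.inl hy⟩))
      | exact Or.inr (Or.inr (Or.inl ⟨Or.inr hx, Or.inr hy⟩))
      | exact Or.inr (Or.inr (Or.inr ⟨Or.inl hx, Or.inl hy⟩))
      | exact Or.inr (Or.inr (Or.inr ⟨Or.inl hx, Or.inr hy⟩))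
      | exact Or.inr (Or.inr (Or.inr ⟨Or.inr hx, Or.inl hy⟩))
      | exact Or.inr (Or.inr (Or.inr ⟨Or.inr hx, Or.inr hy⟩))
      | exact Or.inl (hx.trans hy.symm)
      | exact Or.inr (Or.inl (by rw [hx, hy, mul_inv_cancel]))
      | exact Or.inr (Or.inl (by rw [hx, hy, inv_mul_cancel]))
  rcases cases with e | e | e
  · subst e
    have hx1 : x ≠ 1 := by
      rintro rfl
      exact hxy (mul_one 1)
    exact ⟨sq x hx1, sq x hx1⟩
  · exact absurd e hxy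
  · exact key x y e

theorem p_niel (hmv : S_mv) (hhalf : S_half) (hgen : S_gen) (hsqn : S_sqn) : S_niel := by
  rw [S_niel, eq_top_iff]
  intro α _
  -- a minimal element
  obtain ⟨β, hβ, hmin⟩ : ∃ β : MulAut F, α⁻¹ * β ∈ El ∧ ∀ β' : MulAut F, α⁻¹ * β' ∈ El →
      (β ga).norm + (β gb).norm ≤ (β' ga).norm + (β' gb).norm := by
    have hne : ∃ n : ℕ, ∃ β : MulAut F, α⁻¹ * β ∈ El ∧ (β ga).norm + (β gb).norm = n :=
      ⟨_, α, by rw [inv_mul_cancel]; exact El.one_mem, rfl⟩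
    classical
    obtain ⟨β, h1, h2⟩ := Nat.find_spec hne
    refine ⟨β, h1, fun β' h3 => ?_⟩
    rw [h2]
    exact Nat.find_min' hne ⟨β', h3, rfl⟩
  have hR : ∀ x y, niel_R β x y → (β ga).norm + (β gb).norm ≤ x.norm + y.norm := by
    rintro x y ⟨β', h1, rfl, rfl⟩
    exact hmin β' (niel_tr hβ h1)
  have hself := niel_self β
  have hga : (ga : F) ≠ 1 := FreeGroup.of_ne_one 0
  have hgb : (gb : F) ≠ 1 := FreeGroup.of_ne_one 1
  have hu : β ga ≠ 1 := fun h => hga (by rwa [EmbeddingLike.map_eq_one_iff] at h)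
  have hv : β gb ≠ 1 := fun h => hgb (by rwa [EmbeddingLike.map_eq_one_iff] at h)
  have htwo := niel_two hmv hsqn hself hR
  have hred : NRed (β ga) (β gb) := by
    rcases hhalf _ _ hu hv htwo with h | ⟨x, y, q, hxy, hlt⟩
    · exact h
    · exfalso
      have h1 := niel_cj hmv q⁻¹ (niel_ml hmv (niel_pm hmv hself hxy))
      rw [inv_inv] at h1
      have h2 := hR _ _ h1
      omega
  have hcl : Subgroup.closure ({β ga, β gb} : Set F) = ⊤ := by
    have h0 : Subgroup.closure ({ga, gb} : Set F) = ⊤ := by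
      have h1 := FreeGroup.closure_range_of (Fin 2)
      rw [← h1]
      congr 1
      ext w
      simp only [Set.mem_insert_iff, Set.mem_singleton_iff, Set.mem_range, Fin.exists_fin_two]
      constructor
      · rintro (h | h)
        · exact Or.inl h.symm
        · exact Or.inr h.symm
      · rintro (h | h)
        · exact Or.inl h.symm
        · exact Or.inr h.symm
    have h2 : ({β ga, β gb} : Set F) = β.toMonoidHom '' {ga, gb} := by
      rw [Set.image_pair]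
      rfl
    rw [h2, ← MonoidHom.map_closure, h0, ← MonoidHom.range_eq_map, MonoidHom.range_eq_top]
    exact β.surjective
  have hfin : niel_R β ga gb := by
    refine niel_pm hmv hself ?_
    rcases hgen _ _ hred hcl with ⟨h1 | h1, h2 | h2⟩ | ⟨h1 | h1, h2 | h2⟩ <;>
      simp only [h1, h2, inv_inv, true_or, or_true, and_self]
  obtain ⟨β', h1, h2, h3⟩ := hfin
  have h4 : β' = 1 := aut_ext h2 h3
  rw [h4, mul_one] at h1
  have h5 : α = (α⁻¹ * β * β⁻¹)⁻¹ := by group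
  rw [h5]
  exact El.inv_mem (El.mul_mem hβ h1)

end Pool.Agent.F2X
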