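import Pool.Agent.Lib.MP_305fdd_al.F2X.Stm

/-!
# MP_305fdd_al, finite extensions of the free group of rank two: piece [FX nm]
-/

set_option autoImplicit false

namespace Pool.Agent.F2X

open Matrix Pool.Agent.MP_305fdd_al Pool.Agent.Lib.MP_305fdd_al

noncomputable section

/-- the class modulo `n` as a vector -/
private def nm_cv (n : ℕ) (w : F) : Fin 2 → ZMod n := fun i => ((vec w i : ℤ) : ZMod n)

private theorem nm_cv_surj (n : ℕ) (x : Fin 2 → ZMod n) : ∃ w, nm_cv n w = x := by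
  obtain ⟨w, hw⟩ := vec_surj (fun i => (ZMod.intCast_surjective (x i)).choose)
  refine ⟨w, ?_⟩
  funext i
  unfold nm_cv
  rw [hw]
  exact (ZMod.intCast_surjective (x i)).choose_spec

/-- the class modulo `n` -/
private def nmS (n : ℕ) : F →* Multiplicative (Fin 2 → ZMod n) where
  toFun w := Multiplicative.ofAdd (nm_cv n w)
  map_one' := by
    have : nm_cv n 1 = 0 := by
      funext i
      simp [nm_cv]
    rw [this]
    rfl
  map_mul' v w := by
    have : nm_cv n (v * w) = nm_cv n v + nm_cv n w := by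
      funext i
      simp [nm_cv]
    rw [this]
    rfl

private theorem nmS_apply (n : ℕ) (w : F) : nmS n w = Multiplicative.ofAdd (nm_cv n w) := rfl

private theorem nm_red (n : ℕ) (A : GL (Fin 2) ℤ) (x : Fin 2 → ℤ) :
    (fun i => ((A.val.mulVec x i : ℤ) : ZMod n)) =
      (red n A).val.mulVec (fun i => ((x i : ℤ) : ZMod n)) := by
  funext i
  simp only [Matrix.mulVec, dotProduct, red, Matrix.GeneralLinearGroup.map, Units.coe_map]
  push_cast
  rfl

private theorem nm_hom {n : ℕ} (h : F →* Multiplicative (Fin 2 → ZMod n)) :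
    ∃ Y : Matrix (Fin 2) (Fin 2) (ZMod n), ∀ w,
      Multiplicative.toAdd (h w) = Y.mulVec (nm_cv n w) := by
  refine ⟨Matrix.of fun i j => Multiplicative.toAdd (h (FreeGroup.of j)) i, fun w => ?_⟩
  let h2 : F →* Multiplicative (Fin 2 → ZMod n) :=
    (AddMonoidHom.toMultiplicative (Matrix.mulVecLin (Matrix.of fun i j =>
      Multiplicative.toAdd (h (FreeGroup.of j)) i)).toAddMonoidHom).comp (nmS n)
  have e : h = h2 := by
    ext j i
    show Multiplicative.toAdd (h (FreeGroup.of j)) i = (Matrix.of fun i j =>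
      Multiplicative.toAdd (h (FreeGroup.of j)) i).mulVec (nm_cv n (FreeGroup.of j)) i
    have h3 : nm_cv n (FreeGroup.of j) = Pi.single j 1 := by
      funext i
      unfold nm_cv
      rw [vec_of, Pi.single_apply, Pi.single_apply]
      split_ifs <;> simp
    rw [h3, Matrix.mulVec_single_one]
    rfl
  exact congrArg Multiplicative.toAdd (DFunLike.congr_fun e w)

theorem p_nm : S_nm := by
  intro Γ Λ _ _ Φ Q _ _ π hπ e e' n hn
  classical
  have : NeZero n := ⟨hn.ne'⟩
  -- the subgroup `K`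
  obtain ⟨s, hs⟩ : ∃ s : π.ker →* Multiplicative (Fin 2 → ZMod n),
    s = (nmS n).comp e.toMonoidHom := ⟨_, rfl⟩
  have hs_apply : ∀ x, s x = Multiplicative.ofAdd (nm_cv n (e x)) := by
    intro x
    rw [hs]
    rfl
  obtain ⟨K, hK⟩ : ∃ K : Subgroup Γ, K = s.ker.map π.ker.subtype := ⟨_, rfl⟩
  have hKmem : ∀ x : π.ker, (x : Γ) ∈ K ↔ s x = 1 := by
    intro x
    rw [hK, Subgroup.mem_map]
    constructor
    · rintro ⟨y, hy, hyx⟩
      have : y = x := Subtype.ext hyx
      rw [← this]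
      exact hy
    · intro h
      exact ⟨x, h, rfl⟩
  have hKle : K ≤ π.ker := by
    rw [hK]
    exact Subgroup.map_subtype_le _
  have hcj : ∀ (g : Γ) (x : π.ker), Multiplicative.toAdd (s (MulAut.conjNormal g x)) =
      (red n (Th e g)).val.mulVec (Multiplicative.toAdd (s x)) := by
    intro g x
    rw [hs_apply, hs_apply, toAdd_ofAdd, toAdd_ofAdd, ← cj_e]
    unfold nm_cv
    rw [AM_vec, nm_red]
    rfl
  have hKn : K.Normal := by
    refine ⟨fun x hx g => ?_⟩
    have h1 : (⟨x, hKle hx⟩ : π.ker).1 ∈ K := hx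
    rw [hKmem] at h1
    have h2 : s (MulAut.conjNormal g ⟨x, hKle hx⟩) = 1 := by
      apply Multiplicative.toAdd.injective
      rw [hcj, h1, toAdd_one, Matrix.mulVec_zero]
    rw [← hKmem] at h2
    exact h2
  have hKf : K.FiniteIndex := by
    refine ⟨?_⟩
    rw [hK, Subgroup.index_map_subtype]
    exact mul_ne_zero (Subgroup.finiteIndex_ker s).index_ne_zero
      (Subgroup.finiteIndex_ker π).index_ne_zero
  have hfin : Finite (Γ ⧸ K) := inferInstance
  obtain ⟨θ, hθ⟩ : ∃ θ : Γ →* Γ ⧸ K, θ = QuotientGroup.mk' K := ⟨_, rfl⟩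
  have hθs : Function.Surjective θ := by
    rw [hθ]
    exact QuotientGroup.mk'_surjective K
  obtain ⟨f, hf⟩ : ∃ f : Γ ⧸ K →* Q, f.comp θ = π := by
    refine ⟨QuotientGroup.lift K π hKle, ?_⟩
    rw [hθ]
    ext x
    rfl
  have hf' : ∀ x, f (θ x) = π x := fun x => DFunLike.congr_fun hf x
  have hθker : ∀ x, θ x = 1 ↔ x ∈ K := by
    intro x
    rw [hθ]
    exact QuotientGroup.eq_one_iff x
  have hnat : Φ.toFun Q π = f.comp (Φ.toFun _ θ) := by
    rw [← hf]
    exact Φ.nat f θ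
  obtain ⟨θ', hθ'⟩ : ∃ θ' : Λ →* Γ ⧸ K, θ' = Φ.toFun _ θ := ⟨_, rfl⟩
  rw [← hθ'] at hnat
  have hθ's : Function.Surjective θ' := by
    rw [← MonoidHom.range_eq_top, hθ', Φ.range_eq, MonoidHom.range_eq_top]
    exact hθs
  have hf'' : ∀ l, f (θ' l) = Φ.toFun Q π l := fun l => by rw [hnat]; rfl
  -- the homomorphism `j`
  obtain ⟨τ, hτ⟩ : ∃ τ : π.ker →* f.ker, ∀ x, (τ x : Γ ⧸ K) = θ x :=
    ⟨(θ.comp π.ker.subtype).codRestrict f.ker (fun x => by
      rw [MonoidHom.mem_ker]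
      show f (θ (x : Γ)) = 1
      rw [hf']
      exact x.2), fun x => rfl⟩
  have hτs : Function.Surjective τ := by
    intro x
    obtain ⟨g, hg⟩ := hθs x
    have hx := x.2
    rw [MonoidHom.mem_ker, ← hg, hf'] at hx
    exact ⟨⟨g, hx⟩, Subtype.ext (by rw [hτ]; exact hg)⟩
  have hτk : τ.ker ≤ s.ker := by
    intro x hx
    rw [MonoidHom.mem_ker] at hx ⊢
    rw [← hKmem, ← hθker, ← hτ, hx]
    rfl
  obtain ⟨j, hj⟩ : ∃ j : f.ker →* Multiplicative (Fin 2 → ZMod n), ∀ x, j (τ x) = s x :=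
    ⟨τ.liftOfSurjective hτs ⟨s, hτk⟩, fun x =>
      MonoidHom.liftOfRightInverse_comp_apply τ _ (Function.rightInverse_surjInv hτs) ⟨s, hτk⟩ x⟩
  obtain ⟨τ', hτ'⟩ : ∃ τ' : (Φ.toFun Q π).ker →* f.ker, ∀ x, (τ' x : Γ ⧸ K) = θ' x :=
    ⟨(θ'.comp (Φ.toFun Q π).ker.subtype).codRestrict f.ker (fun x => by
      rw [MonoidHom.mem_ker]
      show f (θ' (x : Λ)) = 1
      rw [hf'']
      exact x.2), fun x => rfl⟩
  have hτ's : Function.Surjective τ' := by
    intro x
    obtain ⟨g, hg⟩ := hθ's x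
    have hx := x.2
    rw [MonoidHom.mem_ker, ← hg, hf''] at hx
    exact ⟨⟨g, hx⟩, Subtype.ext (by rw [hτ']; exact hg)⟩
  obtain ⟨Y, hY⟩ := nm_hom (j.comp (τ'.comp e'.symm.toMonoidHom))
  have hY' : ∀ x : (Φ.toFun Q π).ker, Multiplicative.toAdd (j (τ' x)) = Y.mulVec (nm_cv n (e' x)) := by
    intro x
    have h1 := hY (e' x)
    rw [← h1]
    show _ = Multiplicative.toAdd (j (τ' (e'.symm (e' x))))
    rw [MulEquiv.symm_apply_apply]
  have hYs : Function.Surjective Y.mulVec := by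
    intro v
    obtain ⟨w, hw⟩ := nm_cv_surj n v
    obtain ⟨x, hx⟩ := hτ's (τ (e.symm w))
    refine ⟨nm_cv n (e' x), ?_⟩
    rw [← hY', hx, hj, hs_apply, MulEquiv.apply_symm_apply, toAdd_ofAdd, hw]
  have hYu : IsUnit Y := Matrix.mulVec_surjective_iff_isUnit.mp hYs
  obtain ⟨U, hU⟩ := hYu
  refine ⟨U⁻¹, fun g l hgl => ?_⟩
  -- the key relation
  have key : Y * (red n (Th e' l)).val = (red n (Th e g)).val * Y := by
    rw [Matrix.ext_iff_mulVec]
    intro v
    obtain ⟨w, rfl⟩ := nm_cv_surj n v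
    obtain ⟨x, rfl⟩ := e'.surjective w
    obtain ⟨g', hg'⟩ := hθs (θ' l)
    have hpg : π g' = π g := by rw [← hf', hg', hf'', hgl]
    have hTh : Th e g' = Th e g := by
      have h1 : g' * g⁻¹ ∈ π.ker := by
        rw [MonoidHom.mem_ker, map_mul, map_inv, hpg, mul_inv_cancel]
      have h2 := Th_mem' e _ h1
      rw [map_mul, map_inv, mul_inv_eq_one] at h2
      exact h2
    obtain ⟨y, hy⟩ := hτs (τ' x)
    have h3 : τ' (MulAut.conjNormal l x) = τ (MulAut.conjNormal g' y) := by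
      apply Subtype.ext
      rw [hτ', hτ, MulAut.conjNormal_apply, MulAut.conjNormal_apply, map_mul, map_mul, map_inv,
        map_mul, map_mul, map_inv, hg', ← hτ', ← hτ, hy]
    have h4 := hY' (MulAut.conjNormal l x)
    rw [h3, hj, hcj, ← hj, hy, hY', hTh] at h4
    have h5 : nm_cv n (e' (MulAut.conjNormal l x)) =
        (red n (Th e' l)).val.mulVec (nm_cv n (e' x)) := by
      rw [← cj_e]
      unfold nm_cv
      rw [AM_vec, nm_red]
      rfl
    rw [h5, Matrix.mulVec_mulVec, Matrix.mulVec_mulVec] at h4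
    exact h4.symm
  have key' : U * red n (Th e' l) = red n (Th e g) * U := by
    apply Units.ext
    rw [Units.val_mul, Units.val_mul, hU]
    exact key
  calc U⁻¹ * red n (Th e g) = U⁻¹ * (red n (Th e g) * U) * U⁻¹ := by group
    _ = U⁻¹ * (U * red n (Th e' l)) * U⁻¹ := by rw [key']
    _ = red n (Th e' l) * U⁻¹ := by group

end

end Pool.Agent.F2X
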