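import Pool.Agent.Lib.MP_305fdd_al.F2X.Stm

/-!
# MP_305fdd_al, finite extensions of the free group of rank two: piece [FX out]
-/

set_option autoImplicit false

namespace Pool.Agent.F2X

open Matrix MatrixGroups Pool.Agent.MP_305fdd_al Pool.Agent.Lib.MP_305fdd_al

private theorem out_conj (α : MulAut F) (g : F) : α * MulAut.conj g = MulAut.conj (α g) * α := by
  ext w
  simp only [MulAut.mul_apply, MulAut.conj_apply, map_mul, map_inv]

private theorem out_aI_aI : aI * aI = 1 := by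
  apply aut_ext <;> simp

/-- `aI` is normalised modulo inner automorphisms -/
private theorem out_aI (hniel : S_niel) (α : MulAut F) :
    ∃ g, α * aI = MulAut.conj g * (aI * α) := by
  have hα : α ∈ Subgroup.closure ({aS, aT, aX} : Set (MulAut F)) := by
    have h : El = ⊤ := hniel
    unfold El at h
    rw [h]
    exact Subgroup.mem_top α
  induction hα using Subgroup.closure_induction with
  | mem x hx =>
    rcases hx with rfl | rfl | rfl
    · exact ⟨1, aut_ext (by simp) (by simp)⟩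
    · refine ⟨ga, aut_ext (by simp) (by simp)⟩
    · exact ⟨1, aut_ext (by simp) (by simp)⟩
  | one => exact ⟨1, by simp⟩
  | mul x y _ _ hx hy =>
    obtain ⟨g, hg⟩ := hx
    obtain ⟨h, hh⟩ := hy
    refine ⟨x h * g, ?_⟩
    calc x * y * aI = x * (y * aI) := mul_assoc _ _ _
      _ = x * (MulAut.conj h * (aI * y)) := by rw [hh]
      _ = (x * MulAut.conj h) * aI * y := by simp only [mul_assoc]
      _ = MulAut.conj (x h) * (x * aI) * y := by rw [out_conj]; simp only [mul_assoc]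
      _ = MulAut.conj (x h * g) * (aI * (x * y)) := by
        rw [hg, map_mul]; simp only [mul_assoc]
  | inv x _ hx =>
    obtain ⟨g, hg⟩ := hx
    refine ⟨(x⁻¹ g)⁻¹, ?_⟩
    have h1 : aI * x⁻¹ = MulAut.conj (x⁻¹ g) * (x⁻¹ * aI) := by
      calc aI * x⁻¹ = x⁻¹ * (x * aI) * x⁻¹ := by group
        _ = x⁻¹ * (MulAut.conj g * (aI * x)) * x⁻¹ := by rw [hg]
        _ = (x⁻¹ * MulAut.conj g) * aI := by group
        _ = MulAut.conj (x⁻¹ g) * (x⁻¹ * aI) := by rw [out_conj, mul_assoc]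
    rw [h1, map_inv]
    group

/-- the inner automorphisms, extended by `aI` -/
private def out_K : Subgroup (MulAut F) where
  carrier := {α | ∃ g, α = MulAut.conj g ∨ α = MulAut.conj g * aI}
  one_mem' := ⟨1, Or.inl (by simp)⟩
  mul_mem' := by
    rintro _ _ ⟨g, rfl | rfl⟩ ⟨h, rfl | rfl⟩
    · exact ⟨g * h, Or.inl (map_mul _ _ _).symm⟩
    · exact ⟨g * h, Or.inr (by rw [map_mul, mul_assoc])⟩
    · refine ⟨g * aI h, Or.inr ?_⟩
      rw [mul_assoc, out_conj, map_mul, mul_assoc]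
    · refine ⟨g * aI h, Or.inl ?_⟩
      rw [mul_assoc, ← mul_assoc aI, out_conj, mul_assoc, out_aI_aI, mul_one, map_mul]
  inv_mem' := by
    rintro _ ⟨g, rfl | rfl⟩
    · exact ⟨g⁻¹, Or.inl (map_inv _ _).symm⟩
    · refine ⟨aI g⁻¹, Or.inr ?_⟩
      rw [← out_conj, _root_.mul_inv_rev, map_inv, inv_eq_of_mul_eq_one_left out_aI_aI]

private theorem out_mem {α : MulAut F} :
    α ∈ out_K ↔ ∃ g, α = MulAut.conj g ∨ α = MulAut.conj g * aI := Iff.rfl

private theorem out_normal (hniel : S_niel) : (out_K).Normal := by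
  constructor
  rintro _ ⟨g, rfl | rfl⟩ α
  · refine ⟨α g, Or.inl ?_⟩
    rw [out_conj]
    group
  · obtain ⟨h, hh⟩ := out_aI hniel α
    refine ⟨α g * h, Or.inr ?_⟩
    calc α * (MulAut.conj g * aI) * α⁻¹ = (α * MulAut.conj g) * aI * α⁻¹ := by
          simp only [mul_assoc]
      _ = MulAut.conj (α g) * (α * aI) * α⁻¹ := by rw [out_conj]; simp only [mul_assoc]
      _ = MulAut.conj (α g * h) * aI := by rw [hh, map_mul]; group

private theorem out_c2c3 : PSL2Z.IsC2C3 (Matrix.ProjectiveSpecialLinearGroup (Fin 2) ℤ)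
    (PSL2Z.PslZ.pr ModularGroup.S) (PSL2Z.PslZ.pr PSL2Z.PslZ.Y) := by
  open PSL2Z PSL2Z.PslZ in
  refine ⟨S_sq, Y_cube, gen, ?_⟩
  intro G _ a b ha hb
  let e : Monoid.CoprodI H ≃* Matrix.ProjectiveSpecialLinearGroup (Fin 2) ℤ :=
    MulEquiv.ofBijective (PSL2Z.PslZ.lf S_sq Y_cube) ⟨lf_inj, lf_surj⟩
  refine ⟨(PSL2Z.PslZ.lf ha hb).comp e.symm.toMonoidHom, ?_, ?_⟩
  · have h1 : e.symm (pr ModularGroup.S) = ge false := by
      rw [MulEquiv.symm_apply_eq]
      exact (lf_ge S_sq Y_cube false).symm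
    show PSL2Z.PslZ.lf ha hb (e.symm (pr ModularGroup.S)) = a
    rw [h1]
    exact lf_ge ha hb false
  · have h1 : e.symm (pr PSL2Z.PslZ.Y) = ge true := by
      rw [MulEquiv.symm_apply_eq]
      exact (lf_ge S_sq Y_cube true).symm
    show PSL2Z.PslZ.lf ha hb (e.symm (pr PSL2Z.PslZ.Y)) = b
    rw [h1]
    exact lf_ge ha hb true

private theorem out_cube : (aT * aS) ^ 3 = MulAut.conj (ga * gb) * aI := by
  rw [pow_succ, pow_two]
  apply aut_ext
  · simp only [MulAut.mul_apply, aS_ga, aS_gb, aT_ga, aT_gb, aI_ga, map_mul, map_inv,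
      MulAut.conj_apply]
    group
  · simp only [MulAut.mul_apply, aS_ga, aS_gb, aT_ga, aT_gb, aI_gb, map_mul, map_inv,
      MulAut.conj_apply]
    group

/-- conjugation of `aS`, `aT` with `aX` -/
private theorem out_XS : aS * aX = aX * aS⁻¹ := by
  rw [eq_mul_inv_iff_mul_eq]
  apply aut_ext <;> simp

private theorem out_XT : aT * aX * aS * aT = aX * MulAut.conj gb * aS := by
  apply aut_ext
  · simp
  · simp only [MulAut.mul_apply, aS_ga, aS_gb, aT_ga, aT_gb, aX_ga, aX_gb, map_mul, map_inv,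
      MulAut.conj_apply]
    group

private theorem out_XX : aX * aX = 1 := by
  apply aut_ext <;> simp

private theorem out_AMK {κ : MulAut F} (h : κ ∈ out_K) : (AM κ).val = 1 ∨ (AM κ).val = -1 := by
  obtain ⟨g, rfl | rfl⟩ := h
  · left
    rw [AM_conj]
    rfl
  · right
    rw [map_mul, AM_conj, one_mul, AM_aI]

theorem p_out (hniel : S_niel) : S_out := by
  intro α hα
  have hN : (out_K).Normal := out_normal hniel
  let q : MulAut F →* MulAut F ⧸ out_K := QuotientGroup.mk' out_K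
  have hq1 : ∀ β : MulAut F, β ∈ out_K → q β = 1 := fun β hβ =>
    (QuotientGroup.eq_one_iff β).2 hβ
  have hqe : ∀ β γ : MulAut F, q β = q γ → β⁻¹ * γ ∈ out_K := fun β γ h => QuotientGroup.eq.1 h
  have hS2 : q aS ^ 2 = 1 := by
    rw [← map_pow, pow_two, aS_mul_aS]
    exact hq1 _ ⟨1, Or.inr (by simp)⟩
  have hY3 : q (aT * aS) ^ 3 = 1 := by
    rw [← map_pow, out_cube]
    exact hq1 _ ⟨_, Or.inr rfl⟩
  obtain ⟨f, hfS, hfY⟩ := out_c2c3.lift (MulAut F ⧸ out_K) (q aS) (q (aT * aS)) hS2 hY3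
  have hfT : f (PSL2Z.PslZ.pr ModularGroup.T) = q aT := by
    have h1 : ModularGroup.T = PSL2Z.PslZ.Y * ModularGroup.S⁻¹ := by
      unfold PSL2Z.PslZ.Y; group
    rw [h1, map_mul, map_mul, map_inv, map_inv, hfS, hfY, map_mul]
    group
  -- (1)
  have step1 : ∀ M : SL(2, ℤ), ∃ β : MulAut F, AM β = Matrix.SpecialLinearGroup.toGL M ∧
      q β = f (PSL2Z.PslZ.pr M) := by
    intro M
    have hM : M ∈ Subgroup.closure ({ModularGroup.S, ModularGroup.T} : Set SL(2, ℤ)) := by
      rw [SpecialLinearGroup.SL2Z_generators]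
      exact Subgroup.mem_top M
    induction hM using Subgroup.closure_induction with
    | mem x hx =>
      rcases hx with rfl | rfl
      · refine ⟨aS, Units.ext ?_, hfS.symm⟩
        rw [AM_aS]
        exact ModularGroup.coe_S.symm
      · refine ⟨aT, Units.ext ?_, hfT.symm⟩
        rw [AM_aT]
        exact ModularGroup.coe_T.symm
    | one => exact ⟨1, by rw [map_one, map_one], by rw [map_one, map_one, map_one]⟩
    | mul x y _ _ hx hy =>
      obtain ⟨β, h1, h2⟩ := hx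
      obtain ⟨γ, h3, h4⟩ := hy
      exact ⟨β * γ, by rw [map_mul, map_mul, h1, h3], by rw [map_mul, map_mul, map_mul, h2, h4]⟩
    | inv x _ hx =>
      obtain ⟨β, h1, h2⟩ := hx
      exact ⟨β⁻¹, by rw [map_inv, map_inv, h1], by rw [map_inv, map_inv, map_inv, h2]⟩
  -- (2)
  have hXX : q aX * q aX = 1 := by rw [← map_mul, out_XX, map_one]
  have hXX' : (q aX)⁻¹ = q aX := inv_eq_of_mul_eq_one_left hXX
  have hcS : ∃ M, q aS * q aX = q aX * f (PSL2Z.PslZ.pr M) := by
    refine ⟨ModularGroup.S⁻¹, ?_⟩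
    rw [← map_mul, out_XS, map_mul, map_inv, map_inv, map_inv, hfS]
  have hcT : ∃ M, q aT * q aX = q aX * f (PSL2Z.PslZ.pr M) := by
    refine ⟨ModularGroup.S * ModularGroup.T⁻¹ * ModularGroup.S⁻¹, ?_⟩
    simp only [map_mul, map_inv, hfS, hfT]
    have h1 := congrArg q out_XT
    simp only [map_mul] at h1
    rw [hq1 (MulAut.conj gb) ⟨gb, Or.inl rfl⟩, mul_one] at h1
    calc q aT * q aX = (q aT * q aX * q aS * q aT) * (q aT)⁻¹ * (q aS)⁻¹ := by group
      _ = _ := by rw [h1]; simp only [mul_assoc]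
  have hci : ∀ x : MulAut F, (∃ M, q x * q aX = q aX * f (PSL2Z.PslZ.pr M)) →
      ∃ M, q x⁻¹ * q aX = q aX * f (PSL2Z.PslZ.pr M) := by
    rintro x ⟨M, hM⟩
    refine ⟨M⁻¹, ?_⟩
    rw [map_inv, map_inv, map_inv, eq_mul_inv_iff_mul_eq, mul_assoc, ← hM]
    group
  have step2 : ∃ M, q α = f (PSL2Z.PslZ.pr M) ∨ q α = q aX * f (PSL2Z.PslZ.pr M) := by
    have hα' : α ∈ Subgroup.closure ({aS, aT, aX} : Set (MulAut F)) := by
      have h : El = ⊤ := hniel
      unfold El at h
      rw [h]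
      exact Subgroup.mem_top α
    clear hα
    have key : ∀ x y : MulAut F, (∃ N, q x = f (PSL2Z.PslZ.pr N)) →
        (∃ M, q x * q aX = q aX * f (PSL2Z.PslZ.pr M)) →
        (∃ M, q y = f (PSL2Z.PslZ.pr M) ∨ q y = q aX * f (PSL2Z.PslZ.pr M)) →
        ∃ M, q (x * y) = f (PSL2Z.PslZ.pr M) ∨ q (x * y) = q aX * f (PSL2Z.PslZ.pr M) := by
      rintro x y ⟨N, hN⟩ ⟨M, hM⟩ ⟨L, hL | hL⟩
      · exact ⟨N * L, Or.inl (by rw [map_mul, hN, hL, map_mul, map_mul])⟩
      · refine ⟨M * L, Or.inr ?_⟩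
        rw [map_mul, hL, ← mul_assoc, hM, map_mul, map_mul, mul_assoc]
    have keyX : ∀ y : MulAut F,
        (∃ M, q y = f (PSL2Z.PslZ.pr M) ∨ q y = q aX * f (PSL2Z.PslZ.pr M)) →
        ∃ M, q aX * q y = f (PSL2Z.PslZ.pr M) ∨ q aX * q y = q aX * f (PSL2Z.PslZ.pr M) := by
      rintro y ⟨L, hL | hL⟩
      · exact ⟨L, Or.inr (by rw [hL])⟩
      · exact ⟨L, Or.inl (by rw [hL, ← mul_assoc, hXX, one_mul])⟩
    induction hα' using Subgroup.closure_induction_left with
    | one => exact ⟨1, Or.inl (by rw [map_one, map_one, map_one])⟩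
    | mul_left x hx y _ hy =>
      rcases hx with rfl | rfl | rfl
      · exact key _ _ ⟨_, hfS.symm⟩ hcS hy
      · exact key _ _ ⟨_, hfT.symm⟩ hcT hy
      · rw [map_mul]
        exact keyX y hy
    | inv_mul_cancel x hx y _ hy =>
      rcases hx with rfl | rfl | rfl
      · exact key _ _ ⟨ModularGroup.S⁻¹, by rw [map_inv, map_inv, map_inv, hfS]⟩ (hci _ hcS) hy
      · exact key _ _ ⟨ModularGroup.T⁻¹, by rw [map_inv, map_inv, map_inv, hfT]⟩ (hci _ hcT) hy
      · rw [map_mul, map_inv, hXX']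
        exact keyX y hy
  -- (3)
  obtain ⟨M, hM⟩ := step2
  obtain ⟨β, hβ1, hβ2⟩ := step1 M
  have hMdet : (Matrix.SpecialLinearGroup.toGL M : GL (Fin 2) ℤ).val.det = 1 := M.2
  rcases hM with hM | hM
  · have h1 : β⁻¹ * α ∈ out_K := hqe _ _ (hβ2.trans hM.symm)
    have h2 : (AM (β⁻¹ * α)) = (Matrix.SpecialLinearGroup.toGL M : GL (Fin 2) ℤ)⁻¹ := by
      rw [map_mul, map_inv, hβ1, hα, mul_one]
    have h3 := out_AMK h1
    rw [h2] at h3
    have h4 : q α = 1 := by
      rw [hM]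
      have h5 : PSL2Z.PslZ.pr M = 1 := by
        rcases h3 with h3 | h3
        · have h6 : M = 1 := by
            have h7 : (Matrix.SpecialLinearGroup.toGL M : GL (Fin 2) ℤ)⁻¹ = 1 := Units.ext h3
            have h8 := inv_eq_one.1 h7
            have h9 := congrArg (fun u : GL (Fin 2) ℤ => u.val) h8
            exact Subtype.ext h9
          rw [h6, map_one]
        · apply PSL2Z.PslZ.pr_eq_one
          have h7 : (Matrix.SpecialLinearGroup.toGL M : GL (Fin 2) ℤ)⁻¹ = -1 := Units.ext h3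
          have h8 : (Matrix.SpecialLinearGroup.toGL M : GL (Fin 2) ℤ) = -1 := by
            rw [← inv_inv (Matrix.SpecialLinearGroup.toGL M : GL (Fin 2) ℤ), h7]
            exact inv_eq_of_mul_eq_one_left (by simp)
          exact congrArg (fun u : GL (Fin 2) ℤ => u.val) h8
      rw [h5, map_one]
    obtain ⟨g, hg | hg⟩ := (QuotientGroup.eq_one_iff α).1 h4
    · exact ⟨g, hg⟩
    · exfalso
      rw [hg, map_mul, AM_conj, one_mul] at hα
      have h9 := congrArg (fun u : GL (Fin 2) ℤ => u.val 0 0) hα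
      simp only [AM_aI] at h9
      simp at h9
  · exfalso
    have h0 : q (aX * β) = q α := by rw [map_mul, hβ2, hM]
    have h1 : (aX * β)⁻¹ * α ∈ out_K := hqe _ _ h0
    have h3 := out_AMK h1
    have h2 : (AM aX * AM β) * AM ((aX * β)⁻¹ * α) = 1 := by
      rw [map_mul AM, map_inv, map_mul AM, hα]
      group
    have h4 := congrArg (fun u : GL (Fin 2) ℤ => u.val.det) h2
    simp only [Units.val_mul, Matrix.det_mul, hβ1, hMdet, AM_aX, Units.val_one, Matrix.det_one] at h4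
    rcases h3 with h3 | h3
    · rw [h3] at h4
      simp [Matrix.det_fin_two] at h4
    · rw [h3] at h4
      simp [Matrix.det_fin_two] at h4

end Pool.Agent.F2X
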