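import Pool.Agent.Lib.MP_305fdd_al.F2X.Stm

/-!
# MP_305fdd_al, finite extensions of `F₂`: [FX pre] prefixes
-/

set_option autoImplicit false

namespace Pool.Agent.F2X

open FreeGroup

private theorem pre_norm (L : List (Fin 2 × Bool)) (h : IsReduced L) :
    (FreeGroup.mk L : F).norm = L.length := by
  unfold FreeGroup.norm
  rw [toWord_mk, h.reduce_eq]

theorem p_pre : S_pre := by
  intro x k hk
  have hr : IsReduced x.toWord := isReduced_toWord
  have h1 : IsReduced (x.toWord.take k) := List.IsChain.take hr k
  have h2 : IsReduced (x.toWord.drop k) := List.IsChain.drop hr k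
  have hl : k ≤ x.toWord.length := hk
  refine ⟨FreeGroup.mk (x.toWord.take k), ?_, ?_⟩
  · rw [pre_norm _ h1, List.length_take, min_eq_left hl]
  · have e : x = FreeGroup.mk (x.toWord.take k) * FreeGroup.mk (x.toWord.drop k) := by
      rw [FreeGroup.mul_mk, List.take_append_drop, FreeGroup.mk_toWord]
    have e2 : (FreeGroup.mk (x.toWord.take k))⁻¹ * x = FreeGroup.mk (x.toWord.drop k) := by
      conv_lhs => rw [e]
      have e3 : (FreeGroup.mk (x.toWord.take k) * FreeGroup.mk (x.toWord.drop k) : F).toWord =
        x.toWord := by rw [← e]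
      rw [e3, inv_mul_cancel_left]
    rw [e2, pre_norm _ h2, List.length_drop]
    have : x.norm = x.toWord.length := rfl
    omega

end Pool.Agent.F2X
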