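import Pool.Agent.Lib.MP_305fdd_al.F2X.Stm

/-!
# MP_305fdd_al, [FX refl]: normal forms of reflections
-/

set_option autoImplicit false

namespace Pool.Agent.F2X

open Matrix

/-- a primitive fixed vector, from any fixed vector -/
private theorem refl_prim (p q r m n : ℤ) (h1 : p * m + q * n = m) (h2 : r * m - p * n = n)
    (h0 : m ≠ 0 ∨ n ≠ 0) : ∃ a b c d : ℤ, p * a + q * b = a ∧ r * a - p * b = b ∧
      a * d - b * c = 1 := by
  have hg : 0 < Int.gcd m n := by
    rcases h0 with h | h
    · exact Int.gcd_pos_of_ne_zero_left _ h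
    · exact Int.gcd_pos_of_ne_zero_right _ h
  obtain ⟨a, b, hab, hm, hn⟩ := Int.exists_gcd_one hg
  have hg' : ((Int.gcd m n : ℕ) : ℤ) ≠ 0 := by exact_mod_cast hg.ne'
  obtain ⟨u, v, huv⟩ := Int.isCoprime_iff_gcd_eq_one.2 hab
  refine ⟨a, b, -v, u, ?_, ?_, by linear_combination huv⟩
  · apply mul_right_cancel₀ hg'
    linear_combination h1 - (p - 1) * hm - q * hn
  · apply mul_right_cancel₀ hg'
    linear_combination h2 - r * hm + (p + 1) * hn

/-- conjugation to a normal form -/
private theorem refl_conj (S D K : Matrix (Fin 2) (Fin 2) ℤ) (B Y : GL (Fin 2) ℤ)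
    (h1 : S * B.val = B.val * K) (h2 : Y.val * K = D * Y.val) :
    (Y * B⁻¹).val * S = D * (Y * B⁻¹).val := by
  rw [Units.val_mul]
  calc Y.val * (B⁻¹).val * S = Y.val * (B⁻¹).val * (S * B.val) * (B⁻¹).val := by
        rw [mul_assoc _ (S * B.val), mul_assoc S, Units.mul_inv, mul_one]
    _ = Y.val * K * (B⁻¹).val := by
        rw [h1, mul_assoc Y.val, ← mul_assoc (B⁻¹).val, Units.inv_mul, one_mul]
    _ = D * (Y.val * (B⁻¹).val) := by rw [h2, mul_assoc]

/-- a matrix of determinant one is invertible -/
private theorem refl_unit (a b c d : ℤ) (h : a * d - b * c = 1) :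
    ∃ U : GL (Fin 2) ℤ, U.val = !![a, b; c, d] := by
  have hu : IsUnit (!![a, b; c, d] : Matrix (Fin 2) (Fin 2) ℤ) := by
    rw [Matrix.isUnit_iff_isUnit_det, Matrix.det_fin_two_of, h]
    exact isUnit_one
  exact hu

private theorem refl_z2 (x : ZMod 2) : x ^ 2 = 0 → x = 0 := by
  revert x
  decide

/-- [FX refl] -/
theorem p_refl : S_refl := by
  intro s hs hs1 hs2
  obtain ⟨p, q, r, t, hM⟩ : ∃ p q r t : ℤ, s.val = !![p, q; r, t] :=
    ⟨_, _, _, _, Matrix.eta_fin_two _⟩
  have hsq : (!![p, q; r, t] : Matrix (Fin 2) (Fin 2) ℤ) * !![p, q; r, t] = 1 := by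
    rw [← hM, ← Units.val_mul, hs, Units.val_one]
  rw [Matrix.mul_fin_two, Matrix.one_fin_two] at hsq
  have e00 := congrFun (congrFun hsq 0) 0
  have e01 := congrFun (congrFun hsq 0) 1
  have e10 := congrFun (congrFun hsq 1) 0
  have e11 := congrFun (congrFun hsq 1) 1
  simp at e00 e01 e10 e11
  -- trace zero
  have htr : t = -p := by
    by_contra hne
    have hpt : p + t ≠ 0 := fun h => hne (by linarith)
    have hq : q = 0 := by
      have : (p + t) * q = 0 := by linear_combination e01
      exact (mul_eq_zero.1 this).resolve_left hpt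
    have hr : r = 0 := by
      have : (p + t) * r = 0 := by linear_combination e10
      exact (mul_eq_zero.1 this).resolve_left hpt
    subst hq hr
    have hpt2 : p = t := by
      have : (p + t) * (p - t) = 0 := by linear_combination e00 - e11
      have := (mul_eq_zero.1 this).resolve_left hpt
      linarith
    subst hpt2
    have hp : p * p = 1 := by linear_combination e00
    rcases Int.eq_one_or_neg_one_of_mul_eq_one hp with rfl | rfl
    · apply hs1
      apply Units.ext
      rw [hM, Units.val_one, Matrix.one_fin_two]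
    · apply hs2
      rw [hM, Matrix.one_fin_two]
      ext i j
      fin_cases i <;> fin_cases j <;> simp
  subst htr
  -- a primitive fixed vector
  obtain ⟨a, b, c, d, ha, hb, hd⟩ : ∃ a b c d : ℤ, p * a + q * b = a ∧ r * a - p * b = b ∧
      a * d - b * c = 1 := by
    by_cases h : p + 1 ≠ 0 ∨ r ≠ 0
    · exact refl_prim p q r (p + 1) r (by linear_combination e00) (by ring) h
    · push Not at h
      obtain ⟨h1, h2⟩ := h
      have hp : p = -1 := by linarith
      subst hp h2
      exact refl_prim (-1) q 0 q 2 (by ring) (by ring) (Or.inr (by norm_num))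
  -- the matrix in the new basis
  obtain ⟨k, hk⟩ : ∃ k : ℤ, k = d * ((p + 1) * c + q * d) - c * (r * c + (1 - p) * d) := ⟨_, rfl⟩
  have k1 : p * c + q * d = k * a - c := by
    rw [hk]
    linear_combination (-((p + 1) * c + q * d)) * hd + c * (-d * ha + c * hb)
  have k2 : r * c - p * d = k * b - d := by
    rw [hk]
    linear_combination (-(r * c + (1 - p) * d)) * hd + d * (-d * ha + c * hb)
  clear hk
  have hq : q = k * a ^ 2 - 2 * a * c := by
    linear_combination (-q) * hd + a * k1 - c * ha
  have hr : r = 2 * b * d - k * b ^ 2 := by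
    linear_combination (-r) * hd + d * hb - b * k2
  have hp : p = 1 + 2 * b * c - k * a * b := by
    linear_combination (-p + 1 - k * a * b) * hd + d * ha + c * hb + (-b * d) * hq - a * c * hr
  obtain ⟨B, hB⟩ := refl_unit a c b d (by linear_combination hd)
  have h2 : (2 : ZMod 2) = 0 := rfl
  have hSB : s.val * B.val = B.val * !![1, k; 0, -1] := by
    rw [hM, hB, Matrix.mul_fin_two, Matrix.mul_fin_two]
    ext i j
    fin_cases i <;> fin_cases j
    · show p * a + q * b = a * 1 + c * 0
      linear_combination ha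
    · show p * c + q * d = a * k + c * -1
      linear_combination k1
    · show r * a + -p * b = b * 1 + d * 0
      linear_combination hb
    · show r * c + -p * d = b * k + d * -1
      linear_combination k2
  rcases Int.even_or_odd' k with ⟨m, hm | hm⟩
  · obtain ⟨Y, hY⟩ := refl_unit 1 m 0 1 (by ring)
    refine ⟨Y * B⁻¹, Or.inl ⟨?_, refl_conj _ _ _ _ _ hSB ?_⟩⟩
    · apply Units.ext
      ext i j
      show ((s.val i j : ℤ) : ZMod 2) = (1 : Matrix (Fin 2) (Fin 2) (ZMod 2)) i j
      rw [hM, Matrix.one_fin_two]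
      fin_cases i <;> fin_cases j
      · show ((p : ℤ) : ZMod 2) = 1
        rw [hp, hm]
        push_cast
        linear_combination ((b : ZMod 2) * c - m * a * b) * h2
      · show ((q : ℤ) : ZMod 2) = 0
        rw [hq, hm]
        push_cast
        linear_combination ((m : ZMod 2) * a ^ 2 - a * c) * h2
      · show ((r : ℤ) : ZMod 2) = 0
        rw [hr, hm]
        push_cast
        linear_combination ((b : ZMod 2) * d - m * b ^ 2) * h2
      · show ((-p : ℤ) : ZMod 2) = 1
        rw [hp, hm]
        push_cast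
        linear_combination (-1 - (b : ZMod 2) * c + m * a * b) * h2
    · rw [hY, hm, Matrix.mul_fin_two, Matrix.mul_fin_two]
      ext i j
      fin_cases i <;> fin_cases j <;> simp <;> ring
  · obtain ⟨Y, hY⟩ := refl_unit 1 m 1 (m + 1) (by ring)
    refine ⟨Y * B⁻¹, Or.inr ⟨?_, refl_conj _ _ _ _ _ hSB ?_⟩⟩
    · intro hred
      have h1 : ∀ i j, ((s.val i j : ℤ) : ZMod 2) = (1 : Matrix (Fin 2) (Fin 2) (ZMod 2)) i j := by
        intro i j
        have h3 : (red 2 s).val i j = (1 : GL (Fin 2) (ZMod 2)).val i j := by rw [hred]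
        exact h3
      have h01 := h1 0 1
      have h10 := h1 1 0
      rw [hM, Matrix.one_fin_two] at h01 h10
      replace h01 : ((q : ℤ) : ZMod 2) = 0 := h01
      replace h10 : ((r : ℤ) : ZMod 2) = 0 := h10
      rw [hq, hm] at h01
      rw [hr, hm] at h10
      push_cast at h01 h10
      have ha0 : (a : ZMod 2) = 0 := by
        have h3 : (a : ZMod 2) ^ 2 = 0 := by
          linear_combination h01 - ((m : ZMod 2) * a ^ 2 - a * c) * h2
        exact refl_z2 _ h3
      have hb0 : (b : ZMod 2) = 0 := by
        have h3 : (b : ZMod 2) ^ 2 = 0 := by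
          linear_combination (-1 : ZMod 2) * h10 + ((b : ZMod 2) * d - m * b ^ 2) * h2
        exact refl_z2 _ h3
      have hd' := congrArg (Int.cast : ℤ → ZMod 2) hd
      push_cast at hd'
      rw [ha0, hb0, zero_mul, zero_mul, sub_zero] at hd'
      exact zero_ne_one hd'
    · rw [hY, hm, Matrix.mul_fin_two, Matrix.mul_fin_two]
      ext i j
      fin_cases i <;> fin_cases j <;> simp <;> ring

end Pool.Agent.F2X
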