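import Pool.Agent.Lib.MP_305fdd_al.F2X.Stm
import Mathlib.GroupTheory.FreeGroup.CyclicallyReduced

/-!
# MP_305fdd_al, finite extensions of the free group of rank two: [FX sqn]
-/

set_option autoImplicit false

namespace Pool.Agent.F2X

open FreeGroup FreeGroup.reduceCyclically in
theorem p_sqn : S_sqn := by
  intro x hx
  have h1 : (x * x).toWord = conjugator x.toWord ++
      (List.replicate 2 (reduceCyclically x.toWord)).flatten ++ invRev (conjugator x.toWord) := by
    rw [← reduce_flatten_replicate_succ isReduced_toWord 1, ← pow_two, FreeGroup.toWord_pow]
  have h2 := conj_conjugator_reduceCyclically x.toWord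
  have hne : reduceCyclically x.toWord ≠ [] := by
    intro h0
    rw [h0] at h2
    apply hx
    have h3 : mk (conjugator x.toWord ++ [] ++ invRev (conjugator x.toWord)) = x := by
      rw [h2, mk_toWord]
    rw [← h3, List.append_nil, ← mul_mk, ← inv_mk, mul_inv_cancel]
  have hpos : 0 < (reduceCyclically x.toWord).length := List.length_pos_iff.mpr hne
  have h4 : x.norm = (conjugator x.toWord ++ reduceCyclically x.toWord ++
      invRev (conjugator x.toWord)).length := by
    rw [h2]; rfl
  have h5 : (x * x).norm = (conjugator x.toWord ++
      (List.replicate 2 (reduceCyclically x.toWord)).flatten ++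
      invRev (conjugator x.toWord)).length := by
    rw [← h1]; rfl
  rw [h4, h5]
  simp only [List.length_append, List.length_flatten, List.map_replicate, List.sum_replicate,
    smul_eq_mul]
  omega

end Pool.Agent.F2X
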