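import Pool.Agent.Lib.MP_305fdd_al.F2X.Stm

/-!
# MP_305fdd_al, [FX std]: normal form of elliptic elements
-/

set_option autoImplicit false

namespace Pool.Agent.F2X

open Matrix

/-- one reduction step: `|A| < |B|` -/
private theorem std_step (A B C : ℤ) (hd : B ^ 2 - 4 * A * C < 0) (hAB : |A| < |B|) :
    ∃ k : ℤ, |B + 2 * k * A| < |B| ∧ (k = 1 ∨ k = -1) := by
  have hA : A ≠ 0 := by
    rintro rfl
    nlinarith [sq_nonneg B]
  rcases lt_or_gt_of_ne hA with h1 | h1
  · rw [abs_of_neg h1] at hAB
    rcases le_or_gt B 0 with h2 | h2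
    · refine ⟨-1, ?_, Or.inr rfl⟩
      rw [abs_of_nonpos h2] at hAB ⊢
      rw [abs_lt]
      constructor <;> linarith
    · refine ⟨1, ?_, Or.inl rfl⟩
      rw [abs_of_pos h2] at hAB ⊢
      rw [abs_lt]
      constructor <;> linarith
  · rw [abs_of_pos h1] at hAB
    rcases le_or_gt B 0 with h2 | h2
    · refine ⟨1, ?_, Or.inl rfl⟩
      rw [abs_of_nonpos h2] at hAB ⊢
      rw [abs_lt]
      constructor <;> linarith
    · refine ⟨-1, ?_, Or.inr rfl⟩
      rw [abs_of_pos h2] at hAB ⊢
      rw [abs_lt]
      constructor <;> linarith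

/-- definite forms of discriminant `-4` or `-3` represent `1` or `-1` -/
private theorem std_form (N : ℕ) : ∀ A B C : ℤ, |B| ≤ N →
    (B ^ 2 - 4 * A * C = -4 ∨ B ^ 2 - 4 * A * C = -3) →
    ∃ x y : ℤ, A * x ^ 2 + B * x * y + C * y ^ 2 = 1 ∨ A * x ^ 2 + B * x * y + C * y ^ 2 = -1 := by
  induction N with
  | zero =>
    intro A B C hB hd
    have hB0 : B = 0 := by
      have : |B| ≤ 0 := by exact_mod_cast hB
      exact abs_nonpos_iff.1 this
    subst hB0
    have hAC : A * C = 1 := by
      rcases hd with hd | hd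
      · linarith
      · exfalso; ring_nf at hd; omega
    refine ⟨1, 0, ?_⟩
    rcases Int.eq_one_or_neg_one_of_mul_eq_one hAC with h | h
    · left; rw [h]; ring
    · right; rw [h]; ring
  | succ N ih =>
    intro A B C hB hd
    push_cast at hB
    have hdn : B ^ 2 - 4 * A * C < 0 := by rcases hd with h | h <;> linarith
    by_cases h1 : |A| < |B|
    · obtain ⟨k, hk, hk1⟩ := std_step A B C hdn h1
      have hk2 : k ^ 2 = 1 := by rcases hk1 with rfl | rfl <;> norm_num
      obtain ⟨x, y, hxy⟩ := ih A (B + 2 * k * A) (C + k * B + A) (by linarith) (by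
        have he : (B + 2 * k * A) ^ 2 - 4 * A * (C + k * B + A) = B ^ 2 - 4 * A * C := by
          linear_combination (4 * A ^ 2) * hk2
        rw [he]; exact hd)
      refine ⟨x + k * y, y, ?_⟩
      have he : A * (x + k * y) ^ 2 + B * (x + k * y) * y + C * y ^ 2 =
          A * x ^ 2 + (B + 2 * k * A) * x * y + (C + k * B + A) * y ^ 2 := by
        linear_combination (A * y ^ 2) * hk2
      rw [he]; exact hxy
    · by_cases h2 : |C| < |B|
      · obtain ⟨k, hk, hk1⟩ := std_step C B A (by linarith) h2
        have hk2 : k ^ 2 = 1 := by rcases hk1 with rfl | rfl <;> norm_num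
        obtain ⟨x, y, hxy⟩ := ih (A + k * B + C) (B + 2 * k * C) C (by linarith) (by
          have he : (B + 2 * k * C) ^ 2 - 4 * (A + k * B + C) * C = B ^ 2 - 4 * A * C := by
            linear_combination (4 * C ^ 2) * hk2
          rw [he]; exact hd)
        refine ⟨x, y + k * x, ?_⟩
        have he : A * x ^ 2 + B * x * (y + k * x) + C * (y + k * x) ^ 2 =
            (A + k * B + C) * x ^ 2 + (B + 2 * k * C) * x * y + C * y ^ 2 := by
          linear_combination (C * x ^ 2) * hk2
        rw [he]; exact hxy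
      · -- reduced
        push Not at h1 h2
        have hAC : 4 * (|A| * |C|) = B ^ 2 + 4 ∨ 4 * (|A| * |C|) = B ^ 2 + 3 := by
          rw [← abs_mul]
          have hpos : 0 ≤ A * C := by nlinarith [sq_nonneg B]
          rw [abs_of_nonneg hpos]
          rcases hd with h | h
          · left; linarith
          · right; linarith
        have hB2 : B ^ 2 = |B| ^ 2 := (sq_abs B).symm
        have hb0 := abs_nonneg B
        have ha0 := abs_nonneg A
        have hc0 := abs_nonneg C
        have hB1 : |B| ≤ 1 := by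
          by_contra hcon
          push Not at hcon
          have : |B| * |B| ≤ |A| * |C| := mul_le_mul h1 h2 hb0 ha0
          rcases hAC with h | h <;> nlinarith
        have hAC1 : |A| * |C| ≤ 1 := by
          have : |B| ^ 2 ≤ 1 := by nlinarith
          rcases hAC with h | h
          · by_contra hcon
            push Not at hcon
            nlinarith
          · nlinarith
        have hA0 : A ≠ 0 := by
          rintro rfl
          nlinarith [sq_nonneg B]
        have hC0 : C ≠ 0 := by
          rintro rfl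
          nlinarith [sq_nonneg B]
        have hA1 : 1 ≤ |A| := Int.one_le_abs hA0
        have hC1 : 1 ≤ |C| := Int.one_le_abs hC0
        have hA2 : |A| = 1 := by nlinarith
        refine ⟨1, 0, ?_⟩
        rcases (abs_eq (by norm_num : (0 : ℤ) ≤ 1)).1 hA2 with h | h
        · left; rw [h]; ring
        · right; rw [h]; ring

/-- [FX std] -/
theorem p_std : S_std := by
  intro J hJ ht
  obtain ⟨p, q, r, s, hM⟩ : ∃ p q r s : ℤ, J.val = !![p, q; r, s] :=
    ⟨_, _, _, _, Matrix.eta_fin_two _⟩
  rw [hM] at hJ ht ⊢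
  rw [Matrix.det_fin_two_of] at hJ
  rw [Matrix.trace_fin_two_of] at ht ⊢
  have ht2 : (p + s) ^ 2 = 0 ∨ (p + s) ^ 2 = 1 := by
    have := abs_le.1 ht
    have h3 : p + s = -1 ∨ p + s = 0 ∨ p + s = 1 := by omega
    rcases h3 with h | h | h <;> rw [h] <;> norm_num
  obtain ⟨x, y, hxy⟩ := std_form (s - p).natAbs r (s - p) (-q) (by simp) (by
    rcases ht2 with h | h
    · left; linear_combination h - 4 * hJ
    · right; linear_combination h - 4 * hJ)
  -- the basis `x, J x`
  have hdet : (!![x, p * x + q * y; y, r * x + s * y] : Matrix (Fin 2) (Fin 2) ℤ).det =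
      r * x ^ 2 + (s - p) * x * y + -q * y ^ 2 := by
    rw [Matrix.det_fin_two_of]; ring
  have hu : IsUnit (!![x, p * x + q * y; y, r * x + s * y] : Matrix (Fin 2) (Fin 2) ℤ) := by
    rw [Matrix.isUnit_iff_isUnit_det, hdet, Int.isUnit_iff]
    exact hxy
  obtain ⟨U, hU⟩ := hu
  have hJU : !![p, q; r, s] * U.val = U.val * !![0, -1; 1, p + s] := by
    rw [hU]
    ext i j
    fin_cases i <;> fin_cases j <;> simp [Matrix.mul_apply, Fin.sum_univ_two]
    · linear_combination (-x) * hJ
    · linear_combination (-y) * hJ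
  refine ⟨U⁻¹, ?_⟩
  calc (U⁻¹).val * !![p, q; r, s]
      = (U⁻¹).val * (!![p, q; r, s] * U.val) * (U⁻¹).val := by
        rw [mul_assoc, mul_assoc, Units.mul_inv, mul_one]
    _ = !![0, -1; 1, p + s] * (U⁻¹).val := by
        rw [hJU, ← mul_assoc (U⁻¹).val, Units.inv_mul, one_mul]

end Pool.Agent.F2X
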