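import Pool.Agent.Lib.MP_305fdd_al.F2X.Stm

/-! Every matrix in `GL₂(ℤ)` is the matrix of an automorphism of the free group of rank two. -/

set_option autoImplicit false

namespace Pool.Agent.F2X

open Matrix

private theorem sur_sl (M : SpecialLinearGroup (Fin 2) ℤ) :
    SpecialLinearGroup.toGL M ∈ AM.range := by
  have h : M ∈ Subgroup.closure ({ModularGroup.S, ModularGroup.T} :
      Set (SpecialLinearGroup (Fin 2) ℤ)) := by
    rw [SpecialLinearGroup.SL2Z_generators]; trivial
  have hle : Subgroup.closure ({ModularGroup.S, ModularGroup.T} :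
      Set (SpecialLinearGroup (Fin 2) ℤ)) ≤ AM.range.comap SpecialLinearGroup.toGL := by
    rw [Subgroup.closure_le]
    rintro x (rfl | rfl)
    · refine ⟨aS, ?_⟩
      apply Units.ext
      rw [AM_aS]
      rfl
    · refine ⟨aT, ?_⟩
      apply Units.ext
      rw [AM_aT]
      rfl
  exact hle h

theorem p_sur : S_sur := by
  intro X
  have hd : X.val.det = 1 ∨ X.val.det = -1 := by
    have h : IsUnit X.val.det := (Matrix.isUnit_iff_isUnit_det _).1 X.isUnit
    exact Int.isUnit_iff.1 h
  rcases hd with hd | hd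
  · obtain ⟨α, hα⟩ := sur_sl ⟨X.val, hd⟩
    refine ⟨α, ?_⟩
    rw [hα]
    apply Units.ext
    rfl
  · have hd2 : ((AM aX * X : GL (Fin 2) ℤ)).val.det = 1 := by
      rw [Units.val_mul, Matrix.det_mul, hd, AM_aX]
      simp [Matrix.det_fin_two]
    obtain ⟨α, hα⟩ := sur_sl ⟨(AM aX * X : GL (Fin 2) ℤ).val, hd2⟩
    refine ⟨aX⁻¹ * α, ?_⟩
    rw [map_mul, hα, map_inv]
    have : SpecialLinearGroup.toGL (⟨(AM aX * X : GL (Fin 2) ℤ).val, hd2⟩ :
        SpecialLinearGroup (Fin 2) ℤ) = AM aX * X := by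
      apply Units.ext
      rfl
    rw [this, inv_mul_cancel_left]

end Pool.Agent.F2X
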