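import Pool.Agent.Lib.MP_305fdd_al.F2X.Stm

/-!
# MP_305fdd_al, finite extensions of the free group of rank two: piece [FX un]
-/

set_option autoImplicit false

namespace Pool.Agent.F2X

open Matrix

noncomputable section

private theorem un_eq (n : ℕ) (t a c : ℤ) (X : Matrix (Fin 2) (Fin 2) (ZMod n))
    (h1 : X * (!![0, -1; 1, t] : Matrix (Fin 2) (Fin 2) ℤ).map (Int.castRingHom (ZMod n)) =
      (!![0, -1; 1, t] : Matrix (Fin 2) (Fin 2) ℤ).map (Int.castRingHom (ZMod n)) * X)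
    (h2 : X = (!![a, -c; c, a + t * c] : Matrix (Fin 2) (Fin 2) ℤ).map
      (Int.castRingHom (ZMod n)) * X.adjugate) :
    ∃ x z : ZMod n, X.det = x * x + t * x * z + z * z ∧ x = a * x + (a * t + c) * z ∧
      z = c * x - a * z := by
  have e1 := congrFun (congrFun h1 0) 0
  have e2 := congrFun (congrFun h1 1) 0
  have e3 := congrFun (congrFun h2 0) 0
  have e4 := congrFun (congrFun h2 1) 0
  rw [Matrix.adjugate_fin_two] at e3 e4
  simp [Matrix.mul_apply, Fin.sum_univ_two] at e1 e2 e3 e4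
  refine ⟨X 0 0, X 1 0, ?_, ?_, ?_⟩
  · rw [Matrix.det_fin_two, e1, e2]; ring
  · rw [e2] at e3
    linear_combination e3
  · rw [e2] at e4
    linear_combination e4

private theorem un_no (n : ℕ) [Nontrivial (ZMod n)] (X : GL (Fin 2) (ZMod n))
    (h : X.val.det = 0) : False := by
  have h1 : IsUnit X.val.det := (Matrix.isUnit_iff_isUnit_det _).1 X.isUnit
  rw [h] at h1
  exact not_isUnit_zero h1

private theorem un_fin (A B u : Matrix (Fin 2) (Fin 2) ℤ) (t : ℤ) (h : A * B = 1)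
    (h' : B * A = 1) (h1 : A * !![0, -1; 1, t] = !![0, -1; 1, t] * A) (h2 : A.det = 1)
    (h3 : u = A * A) :
    ∃ v : GL (Fin 2) ℤ, v.val * !![0, -1; 1, t] = !![0, -1; 1, t] * v.val ∧ v.val.det = 1 ∧
      u = v.val * v.val := ⟨⟨A, B, h, h'⟩, h1, h2, h3⟩

private theorem un_form (t : ℤ) (u : Matrix (Fin 2) (Fin 2) ℤ)
    (h : u * !![0, -1; 1, t] = !![0, -1; 1, t] * u) :
    u = !![u 0 0, -u 1 0; u 1 0, u 0 0 + t * u 1 0] := by
  have e1 := congrFun (congrFun h 0) 0
  have e2 := congrFun (congrFun h 1) 0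
  simp [Matrix.mul_apply, Fin.sum_univ_two] at e1 e2
  ext i j
  fin_cases i <;> fin_cases j
  · rfl
  · exact e1
  · rfl
  · exact e2

theorem p_un : S_un := by
  intro t ht u hu hdet hX
  have hform := un_form t u hu
  obtain ⟨a, ha⟩ : ∃ a, a = u 0 0 := ⟨_, rfl⟩
  obtain ⟨c, hc⟩ : ∃ c, c = u 1 0 := ⟨_, rfl⟩
  rw [← ha, ← hc] at hform
  subst hform
  clear ha hc hu
  rw [Matrix.det_fin_two_of] at hdet
  have ht' := abs_le.1 ht
  obtain ⟨ht1, ht2⟩ := ht'
  clear ht
  have hq : a * a + t * (a * c) + c * c = 1 := by linear_combination hdet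
  clear hdet
  have h2 := hX 2 (by norm_num)
  have h3 := hX 3 (by norm_num)
  clear hX
  obtain ⟨X2, k1, k2⟩ := h2
  obtain ⟨x2, z2, d2, E1, E2⟩ := un_eq 2 t a c X2.val k1 k2
  obtain ⟨X3, k3, k4⟩ := h3
  obtain ⟨x3, z3, d3, E3, E4⟩ := un_eq 3 t a c X3.val k3 k4
  have hn2 : x2 * x2 + t * x2 * z2 + z2 * z2 ≠ 0 := fun h => un_no 2 X2 (d2.trans h)
  have hn3 : x3 * x3 + t * x3 * z3 + z3 * z3 ≠ 0 := fun h => un_no 3 X3 (d3.trans h)
  clear k1 k2 k3 k4 d2 d3
  have hca : -1 ≤ c ∧ c ≤ 1 ∧ -1 ≤ a ∧ a ≤ 1 := by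
    interval_cases t
    · refine ⟨?_, ?_, ?_, ?_⟩ <;> nlinarith [sq_nonneg (2 * a - c), sq_nonneg (2 * c - a)]
    · refine ⟨?_, ?_, ?_, ?_⟩ <;> nlinarith [sq_nonneg a, sq_nonneg c]
    · refine ⟨?_, ?_, ?_, ?_⟩ <;> nlinarith [sq_nonneg (2 * a + c), sq_nonneg (2 * c + a)]
  obtain ⟨c1, c2, a1, a2⟩ := hca
  interval_cases t <;> interval_cases a <;> interval_cases c <;>
    first
    | (exfalso; omega)
    | (exfalso; push_cast at E3 E4 hn3; clear E1 E2 hn2; revert x3 z3; decide)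
    | (exfalso; push_cast at E1 E2 hn2; clear E3 E4 hn3; revert x2 z2; decide)
    | exact un_fin !![1, 0; 0, 1] !![1, 0; 0, 1] _ _ (by decide) (by decide) (by decide)
        (by decide) (by decide)
    | exact un_fin !![0, -1; 1, 0] !![0, 1; -1, 0] _ _ (by decide) (by decide) (by decide)
        (by decide) (by decide)
    | exact un_fin !![0, -1; 1, 1] !![1, 1; -1, 0] _ _ (by decide) (by decide) (by decide)
        (by decide) (by decide)
    | exact un_fin !![-1, -1; 1, 0] !![0, 1; -1, -1] _ _ (by decide) (by decide) (by decide)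
        (by decide) (by decide)
    | exact un_fin !![0, -1; 1, -1] !![-1, 1; -1, 0] _ _ (by decide) (by decide) (by decide)
        (by decide) (by decide)
    | exact un_fin !![-1, 1; -1, 0] !![0, -1; 1, -1] _ _ (by decide) (by decide) (by decide)
        (by decide) (by decide)

end

end Pool.Agent.F2X
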