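import Pool.Agent.Lib.MP_305fdd_al.F2X.Stm

/-!
# MP_305fdd_al, [FX word]: products of letters of a reduced pair are long
-/

set_option autoImplicit false

namespace Pool.Agent.F2X

/-- the cancellation between `x` and the first letter of `L` -/
private noncomputable def word_cc (x : F) : List F → ℤ
  | [] => 0
  | y :: _ => gp x⁻¹ y

private theorem word_gp (x y : F) : gp x⁻¹ y = (x.norm : ℤ) + y.norm - (x * y).norm := by
  unfold gp
  rw [FreeGroup.norm_inv_eq, inv_inv]

private theorem word_pos {u v : F} (h : NRed u v) {x : F} (hx : x ∈ Lt u v) : 1 ≤ x.norm := by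
  have h1 : x ≠ 1 := by
    rcases hx with rfl | rfl | rfl | rfl
    · exact h.u1
    · exact inv_ne_one.2 h.u1
    · exact h.v1
    · exact inv_ne_one.2 h.v1
  have h2 : x.norm ≠ 0 := fun h3 => h1 (FreeGroup.norm_eq_zero.1 h3)
  omega

private theorem word_key (h4 : S_four) {u v : F} (h : NRed u v) (L : List F) :
    ∀ x : F, (∀ z ∈ x :: L, z ∈ Lt u v) → (x :: L).IsChain (fun x y => x * y ≠ 1) →
      ((x :: L).prod.norm : ℤ) = x.norm + L.prod.norm - word_cc x L ∧
        2 * (x.norm : ℤ) - word_cc x L + 2 * L.length ≤ 2 * ((x :: L).prod.norm : ℤ) := by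
  induction L with
  | nil =>
    intro x _ _
    simp [word_cc]
  | cons y L ih =>
    intro x hm hc
    have hx : x ∈ Lt u v := hm x (by simp)
    have hy : y ∈ Lt u v := hm y (by simp)
    rw [List.isChain_cons_cons] at hc
    obtain ⟨hxy, hc'⟩ := hc
    obtain ⟨i1, i2⟩ := ih y (fun z hz => hm z (List.mem_cons_of_mem _ hz)) hc'
    have hg1 := word_gp x y
    obtain ⟨t1, t2⟩ := h.two x hx y hy hxy
    have hy1 := word_pos h hy
    obtain ⟨c1, hc1⟩ := (h4.2 x⁻¹ y).2.2.2
    -- the two cancellations at `y`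
    have hlt : gp x⁻¹ y + word_cc y L + 2 ≤ 2 * (y.norm : ℤ) := by
      cases L with
      | nil =>
        show gp x⁻¹ y + 0 + 2 ≤ _
        omega
      | cons z L =>
        show gp x⁻¹ y + gp y⁻¹ z + 2 ≤ _
        have hz : z ∈ Lt u v := hm z (by simp)
        rw [List.isChain_cons_cons] at hc'
        have h3 := h.three x hx y hy z hz hxy hc'.1
        obtain ⟨c2, hc2⟩ := (h4.2 y⁻¹ z).2.2.2
        omega
    -- the product of the rest
    have hprod : (y :: L).prod = y * L.prod := List.prod_cons
    have hgy : gp y (y :: L).prod = 2 * (y.norm : ℤ) - word_cc y L := by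
      unfold gp
      rw [i1, hprod, inv_mul_cancel_left]
      ring
    have hA := h4.1 x⁻¹ y (y :: L).prod
    have hB := h4.1 x⁻¹ (y :: L).prod y
    rw [(h4.2 (y :: L).prod y).1] at hB
    have hgx : gp x⁻¹ (y :: L).prod = gp x⁻¹ y := by
      rcases min_le_iff.1 hA with hA | hA <;> rcases min_le_iff.1 hB with hB | hB <;> omega
    have hn : ((x :: y :: L).prod.norm : ℤ) = x.norm + (y :: L).prod.norm - gp x⁻¹ y := by
      rw [← hgx, word_gp, List.prod_cons (a := x)]
      ring
    refine ⟨hn, ?_⟩
    rw [hn]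
    show 2 * (x.norm : ℤ) - gp x⁻¹ y + 2 * ((y :: L).length : ℤ) ≤ _
    rw [List.length_cons]
    push_cast
    omega

/-- [FX word] -/
theorem p_word (h4 : S_four) : S_word := by
  intro u v h L hm hc
  cases L with
  | nil => simp
  | cons x L =>
    obtain ⟨-, h2⟩ := word_key h4 h L x hm hc
    have hx : x ∈ Lt u v := hm x (by simp)
    have hx1 := word_pos h hx
    have h3 : word_cc x L + 2 ≤ 2 * (x.norm : ℤ) := by
      cases L with
      | nil =>
        show (0 : ℤ) + 2 ≤ _
        omega
      | cons y L =>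
        show gp x⁻¹ y + 2 ≤ _
        have hy : y ∈ Lt u v := hm y (by simp)
        rw [List.isChain_cons_cons] at hc
        have hg1 := word_gp x y
        obtain ⟨t1, t2⟩ := h.two x hx y hy hc.1
        obtain ⟨c1, hc1⟩ := (h4.2 x⁻¹ y).2.2.2
        omega
    rw [List.length_cons]
    omega

end Pool.Agent.F2X
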