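import Pool.Agent.Lib.MP_305fdd_al.F2X.Stm

/-!
# MP_305fdd_al, F2X, piece `ap1`

`C₂ * ℤ` contains a normal subgroup of index `2` isomorphic to the free group of rank two: the
semidirect product of `F` with `C₂`, the generator acting by `aX`, is isomorphic to `C₂ * ℤ`.
-/

set_option autoImplicit false

namespace Pool.Agent.F2X

open Matrix Monoid

noncomputable section

private abbrev ap1_C : Type := Multiplicative (ZMod 2)

/-- the generator -/
private abbrev ap1_c : ap1_C := Multiplicative.ofAdd 1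

private theorem ap1_cases (z : ap1_C) : z = 1 ∨ z = ap1_c := by
  revert z
  decide

private theorem ap1_cc : ap1_c * ap1_c = 1 := by decide

private theorem ap1_ne : ap1_c ≠ 1 := by decide

/-- homomorphisms from `C₂` -/
private def ap1_hom {H : Type} [Group H] (x : H) (hx : x * x = 1) : ap1_C →* H where
  toFun z := if z = 1 then 1 else x
  map_one' := if_pos rfl
  map_mul' := by
    intro y z
    rcases ap1_cases y with rfl | rfl <;> rcases ap1_cases z with rfl | rfl
    · simp
    · simp
    · simp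
    · rw [ap1_cc, if_pos rfl, if_neg ap1_ne, hx]

private theorem ap1_hom_c {H : Type} [Group H] (x : H) (hx : x * x = 1) :
    ap1_hom x hx ap1_c = x := by
  show (if ap1_c = 1 then 1 else x) = x
  exact if_neg ap1_ne

private theorem ap1_aX : aX * aX = 1 := by
  apply aut_ext <;> simp

private abbrev ap1_ph : ap1_C →* MulAut F := ap1_hom aX ap1_aX

private abbrev ap1_G : Type := F ⋊[ap1_ph] ap1_C

private abbrev ap1_Γ : Type := Coprod ap1_C (Multiplicative ℤ)

/-- the map from the free product -/
private def ap1_f : ap1_Γ →* ap1_G :=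
  Coprod.lift SemidirectProduct.inr (zpowersHom ap1_G (SemidirectProduct.inl ga))

private abbrev ap1_t : ap1_Γ := Coprod.inr (Multiplicative.ofAdd 1)

private abbrev ap1_x : ap1_Γ := Coprod.inl ap1_c

private theorem ap1_xx : ap1_x * ap1_x = 1 := by
  rw [← map_mul, ap1_cc, map_one]

private theorem ap1_f_x : ap1_f ap1_x = SemidirectProduct.inr ap1_c := by
  unfold ap1_f
  rw [Coprod.lift_apply_inl]

private theorem ap1_f_t : ap1_f ap1_t = SemidirectProduct.inl ga := by
  unfold ap1_f
  rw [Coprod.lift_apply_inr, zpowersHom_apply, toAdd_ofAdd, zpow_one]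

private def ap1_fn : F →* ap1_Γ := FreeGroup.lift ![ap1_t, ap1_x * ap1_t * ap1_x⁻¹]

private theorem ap1_fn_ga : ap1_fn ga = ap1_t := by
  unfold ap1_fn; rw [FreeGroup.lift_apply_of]; rfl

private theorem ap1_fn_gb : ap1_fn gb = ap1_x * ap1_t * ap1_x⁻¹ := by
  unfold ap1_fn; rw [FreeGroup.lift_apply_of]; rfl

private theorem ap1_h (g : ap1_C) : ap1_fn.comp (ap1_ph g).toMonoidHom =
    (MulAut.conj (Coprod.inl g : ap1_Γ)).toMonoidHom.comp ap1_fn := by
  rcases ap1_cases g with rfl | rfl
  · rw [map_one, map_one, map_one]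
    rfl
  · have h : ap1_ph ap1_c = aX := ap1_hom_c aX ap1_aX
    rw [h]
    apply hom_ext
    · show ap1_fn (aX ga) = ap1_x * ap1_fn ga * ap1_x⁻¹
      rw [aX_ga, ap1_fn_gb, ap1_fn_ga]
    · show ap1_fn (aX gb) = ap1_x * ap1_fn gb * ap1_x⁻¹
      have h2 : ap1_x⁻¹ = ap1_x := inv_eq_of_mul_eq_one_left ap1_xx
      rw [aX_gb, ap1_fn_gb, ap1_fn_ga, h2]
      calc ap1_t = 1 * ap1_t * 1 := by rw [one_mul, mul_one]
        _ = (ap1_x * ap1_x) * ap1_t * (ap1_x * ap1_x) := by rw [ap1_xx]
        _ = _ := by simp only [mul_assoc]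

/-- the map to the free product -/
private def ap1_g : ap1_G →* ap1_Γ := SemidirectProduct.lift ap1_fn Coprod.inl ap1_h

private theorem ap1_fg (y : ap1_G) : ap1_f (ap1_g y) = y := by
  have h : ap1_f.comp ap1_g = MonoidHom.id ap1_G := by
    apply SemidirectProduct.hom_ext
    · apply hom_ext
      · show ap1_f (ap1_g (SemidirectProduct.inl ga)) = SemidirectProduct.inl ga
        unfold ap1_g
        rw [SemidirectProduct.lift_inl, ap1_fn_ga, ap1_f_t]
      · show ap1_f (ap1_g (SemidirectProduct.inl gb)) = SemidirectProduct.inl gb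
        unfold ap1_g
        rw [SemidirectProduct.lift_inl, ap1_fn_gb, map_mul, map_mul, map_inv, ap1_f_t, ap1_f_x,
          ← map_inv, ← SemidirectProduct.inl_aut, ap1_hom_c, aX_ga]
    · apply MonoidHom.ext
      intro z
      show ap1_f (ap1_g (SemidirectProduct.inr z)) = SemidirectProduct.inr z
      unfold ap1_g ap1_f
      rw [SemidirectProduct.lift_inr, Coprod.lift_apply_inl]
  exact DFunLike.congr_fun h y

private theorem ap1_gf (y : ap1_Γ) : ap1_g (ap1_f y) = y := by
  have h : ap1_g.comp ap1_f = MonoidHom.id ap1_Γ := by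
    apply Coprod.hom_ext
    · apply MonoidHom.ext
      intro z
      show ap1_g (ap1_f (Coprod.inl z)) = Coprod.inl z
      unfold ap1_g ap1_f
      rw [Coprod.lift_apply_inl, SemidirectProduct.lift_inr]
    · apply MonoidHom.ext_mint
      show ap1_g (ap1_f ap1_t) = ap1_t
      rw [ap1_f_t]
      unfold ap1_g
      rw [SemidirectProduct.lift_inl, ap1_fn_ga]
  exact DFunLike.congr_fun h y

private abbrev ap1_N : Subgroup ap1_Γ := (SemidirectProduct.rightHom.comp ap1_f).ker

private def ap1_e : F →* ap1_N :=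
  (ap1_g.comp SemidirectProduct.inl).codRestrict ap1_N (by
    intro w
    show SemidirectProduct.rightHom (ap1_f (ap1_g (SemidirectProduct.inl w))) = 1
    rw [ap1_fg, SemidirectProduct.rightHom_inl])

/-- `C₂ * ℤ` has a normal subgroup of finite index isomorphic to `F` -/
theorem p_ap1 : S_ap1 := by
  refine ⟨ap1_N, inferInstance, Subgroup.finiteIndex_ker _, ⟨(MulEquiv.ofBijective ap1_e ⟨?_, ?_⟩).symm⟩⟩
  · intro v w h
    have h1 : ap1_g (SemidirectProduct.inl v) = ap1_g (SemidirectProduct.inl w) :=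
      congrArg Subtype.val h
    have h2 := congrArg ap1_f h1
    rw [ap1_fg, ap1_fg] at h2
    exact SemidirectProduct.inl_injective h2
  · rintro ⟨y, hy⟩
    have hy' : ap1_f y ∈ (SemidirectProduct.rightHom : ap1_G →* ap1_C).ker := hy
    rw [← SemidirectProduct.range_inl_eq_ker_rightHom] at hy'
    obtain ⟨w, hw⟩ := hy'
    refine ⟨w, Subtype.ext ?_⟩
    show ap1_g (SemidirectProduct.inl w) = y
    rw [hw, ap1_gf]

end

end Pool.Agent.F2X
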