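import Pool.Agent.Lib.MP_305fdd_al.F2X.Stm

/-!
# MP_305fdd_al: an elliptic element and an element which does not commute with it
-/

set_option autoImplicit false

namespace Pool.Agent.F2X

open Matrix

/-! ### Matrices which commute with `[[0, -1], [1, t]]` -/

section ring

variable {R : Type} [CommRing R]

private theorem g3_ent (t a b c d : R)
    (h : !![a, b; c, d] * !![0, -1; 1, t] = !![0, -1; 1, t] * !![a, b; c, d]) :
    b = - c ∧ d = a + t * c := by
  rw [Matrix.mul_fin_two, Matrix.mul_fin_two] at h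
  have h00 := congrFun (congrFun h 0) 0
  have h10 := congrFun (congrFun h 1) 0
  simp at h00 h10
  exact ⟨h00, h10⟩

private theorem g3_comm (t : R) (Z W : Matrix (Fin 2) (Fin 2) R)
    (hZ : Z * !![0, -1; 1, t] = !![0, -1; 1, t] * Z)
    (hW : W * !![0, -1; 1, t] = !![0, -1; 1, t] * W) : Z * W = W * Z := by
  obtain ⟨a, b, c, d, rfl⟩ : ∃ a b c d, Z = !![a, b; c, d] := ⟨_, _, _, _, Matrix.eta_fin_two Z⟩
  obtain ⟨a', b', c', d', rfl⟩ : ∃ a b c d, W = !![a, b; c, d] :=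
    ⟨_, _, _, _, Matrix.eta_fin_two W⟩
  obtain ⟨rfl, rfl⟩ := g3_ent t a b c d hZ
  obtain ⟨rfl, rfl⟩ := g3_ent t a' b' c' d' hW
  rw [Matrix.mul_fin_two, Matrix.mul_fin_two]
  congr 1
  ext i j
  fin_cases i <;> fin_cases j <;> simp <;> ring

private theorem g3_adj (t : R) (C Z : Matrix (Fin 2) (Fin 2) R)
    (hC : !![0, -1; 1, t] * C * !![0, -1; 1, t] = C)
    (hZ : Z * !![0, -1; 1, t] = !![0, -1; 1, t] * Z) : C * Z = Z.adjugate * C := by
  obtain ⟨a, b, c, d, rfl⟩ : ∃ a b c d, Z = !![a, b; c, d] := ⟨_, _, _, _, Matrix.eta_fin_two Z⟩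
  obtain ⟨a', b', c', d', rfl⟩ : ∃ a b c d, C = !![a, b; c, d] :=
    ⟨_, _, _, _, Matrix.eta_fin_two C⟩
  obtain ⟨rfl, rfl⟩ := g3_ent t a b c d hZ
  rw [Matrix.mul_fin_two, Matrix.mul_fin_two] at hC
  have h00 := congrFun (congrFun hC 0) 0
  have h01 := congrFun (congrFun hC 0) 1
  simp at h00 h01
  subst h00
  rw [← h01, Matrix.adjugate_fin_two_of, Matrix.mul_fin_two, Matrix.mul_fin_two]
  congr 1
  ext i j
  fin_cases i <;> fin_cases j <;> simp <;> ring

private theorem g3_commG (t : R) (J Z W : GL (Fin 2) R) (hJ : J.val = !![0, -1; 1, t])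
    (hZ : Z * J = J * Z) (hW : W * J = J * W) : Z * W = W * Z := by
  apply Units.ext
  exact g3_comm t Z.val W.val (by rw [← hJ]; exact congrArg Units.val hZ)
    (by rw [← hJ]; exact congrArg Units.val hW)

private theorem g3_adjG (t : R) (J C Z : GL (Fin 2) R) (hJ : J.val = !![0, -1; 1, t])
    (hC : C * J = J⁻¹ * C) (hZ : Z * J = J * Z) : C.val * Z.val = Z.val.adjugate * C.val := by
  have hC' : J * C * J = C := by rw [mul_assoc, hC, mul_inv_cancel_left]
  exact g3_adj t C.val Z.val (by rw [← hJ]; exact congrArg Units.val hC')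
    (by rw [← hJ]; exact congrArg Units.val hZ)

private theorem g3_invadj (A : GL (Fin 2) R) (h : A.val.det = 1) :
    (A⁻¹).val = A.val.adjugate := by
  have h1 : A.val * A.val.adjugate = 1 := by rw [Matrix.mul_adjugate, h, one_smul]
  calc (A⁻¹).val = (A⁻¹).val * (A.val * A.val.adjugate) := by rw [h1, mul_one]
    _ = _ := by rw [← mul_assoc, Units.inv_mul, one_mul]

end ring

/-! ### Reductions and finite groups -/

/-- the reductions determine the matrix -/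
private theorem g3_inj (A B : GL (Fin 2) ℤ) (h : ∀ n : ℕ, 0 < n → red n A = red n B) :
    A = B := by
  apply Units.ext
  ext i j
  have h1 := h ((B.val i j - A.val i j).natAbs + 1) (Nat.succ_pos _)
  have h2 : ((A.val i j : ℤ) : ZMod ((B.val i j - A.val i j).natAbs + 1)) =
      ((B.val i j : ℤ) : ZMod ((B.val i j - A.val i j).natAbs + 1)) :=
    congrArg (fun M : GL (Fin 2) (ZMod ((B.val i j - A.val i j).natAbs + 1)) => M.val i j) h1
  rw [ZMod.intCast_eq_intCast_iff_dvd_sub] at h2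
  have h3 : B.val i j - A.val i j = 0 := by
    refine Int.eq_zero_of_dvd_of_natAbs_lt_natAbs h2 ?_
    rw [Int.natAbs_natCast]
    exact Nat.lt_succ_self _
  linarith

private theorem g3_redval (n : ℕ) (A : GL (Fin 2) ℤ) :
    (red n A).val = A.val.map (Int.castRingHom (ZMod n)) := rfl

private theorem g3_map (n : ℕ) (t : ℤ) :
    (!![0, -1; 1, t] : Matrix (Fin 2) (Fin 2) ℤ).map (Int.castRingHom (ZMod n)) =
      !![0, -1; 1, (t : ZMod n)] := by
  ext i j
  fin_cases i <;> fin_cases j <;> simp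

section fin

variable {Q : Type} [Group Q] [Finite Q]

private theorem g3_tr (hfo : S_fo) (θ : Q →* GL (Fin 2) ℤ) (q : Q)
    (hd : (θ q).val.det = 1) : (θ q).val.trace ≤ 2 := by
  have h := (hfo (θ q).val (orderOf q) (orderOf_pos q) ?_).1 hd
  · rcases h with h | h | h
    · have := (abs_le.1 h).2
      omega
    · rw [h]
      simp [Matrix.trace_one]
    · rw [h]
      simp [Matrix.trace_one]
  · rw [← Units.val_pow_eq_pow_val, ← map_pow, pow_orderOf_eq_one, map_one]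
    rfl

private theorem g3_cm (hfo : S_fo) (θ : Q →* GL (Fin 2) ℤ) (a b : Q)
    (ha : (θ a).val.det = 1) (hb : (θ b).val.det = 1) :
    ((θ a).val * (θ b).val * (θ a).val.adjugate * (θ b).val.adjugate).trace ≤ 2 := by
  have h : (θ a).val * (θ b).val * (θ a).val.adjugate * (θ b).val.adjugate =
      (θ (a * b * a⁻¹ * b⁻¹)).val := by
    rw [← g3_invadj _ ha, ← g3_invadj _ hb]
    simp only [map_mul, map_inv, Units.val_mul]
  rw [h]
  apply g3_tr hfo
  rw [← h, Matrix.det_mul, Matrix.det_mul, Matrix.det_mul, Matrix.det_adjugate,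
    Matrix.det_adjugate, ha, hb]
  simp

/-- every element commutes with the elliptic element or inverts it -/
private theorem g3_dih (hfo : S_fo) (hell : S_ell) (hinv : S_inv) (θ : Q →* GL (Fin 2) ℤ)
    (q₀ q : Q) (hd : (θ q₀).val.det = 1) (ht : |(θ q₀).val.trace| ≤ 1) :
    θ q * θ q₀ = θ q₀ * θ q ∨ θ q * θ q₀ = (θ q₀)⁻¹ * θ q := by
  have hB : (θ (q * q₀ * q⁻¹)).val = (θ q).val * (θ q₀).val * ((θ q)⁻¹).val := by
    simp only [map_mul, map_inv, Units.val_mul]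
  have hBd : (θ (q * q₀ * q⁻¹)).val.det = 1 := by
    rw [hB, Matrix.det_units_conj, hd]
  have hBt : (θ (q * q₀ * q⁻¹)).val.trace = (θ q₀).val.trace := by
    rw [hB, Matrix.trace_units_conj]
  have h1 := g3_cm hfo θ q₀ (q * q₀ * q⁻¹) hd hBd
  have h2 := hell _ _ hd ht hBd h1
  have hc : θ q * θ q₀ = θ (q * q₀ * q⁻¹) * θ q := by
    rw [← map_mul, ← map_mul]
    congr 1
    group
  rcases hinv _ _ hd ht hBd hBt h2 with h | h
  · left
    rw [hc, Units.ext h]
  · right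
    rw [← g3_invadj _ hd] at h
    rw [hc, Units.ext h]

/-- the homomorphisms agree if they agree at `q₀, q₁` -/
private theorem g3_core (hfo : S_fo) (hell : S_ell) (hinv : S_inv) (θ θ' : Q →* GL (Fin 2) ℤ)
    (hLC : LC θ θ') (q₀ q₁ : Q) (t : ℤ) (ht : |t| ≤ 1) (h0 : (θ q₀).val = !![0, -1; 1, t])
    (h0' : θ' q₀ = θ q₀) (h1 : θ' q₁ = θ q₁) (h2 : θ q₁ * θ q₀ = (θ q₀)⁻¹ * θ q₁) (q : Q) :
    θ q = θ' q := by
  have hd : (θ q₀).val.det = 1 := by
    rw [h0, Matrix.det_fin_two_of]; ring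
  have htr : |(θ q₀).val.trace| ≤ 1 := by
    rw [h0, Matrix.trace_fin_two_of]; simpa using ht
  apply g3_inj
  intro n hn
  obtain ⟨X, hX⟩ := hLC n hn
  have hXJ : X * red n (θ q₀) = red n (θ q₀) * X := by
    have := hX q₀
    rwa [h0'] at this
  have hXC : X * red n (θ q₁) = red n (θ q₁) * X := by
    have := hX q₁
    rwa [h1] at this
  have hJ : (red n (θ q₀)).val = !![0, -1; 1, (t : ZMod n)] := by
    rw [g3_redval, h0, g3_map]
  have key : X * red n (θ q) = red n (θ q) * X := by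
    rcases g3_dih hfo hell hinv θ q₀ q hd htr with h | h
    · exact g3_commG _ _ X (red n (θ q)) hJ hXJ (by rw [← map_mul, h, map_mul])
    · have hw : (θ q * (θ q₁)⁻¹) * θ q₀ = θ q₀ * (θ q * (θ q₁)⁻¹) := by
        have e1 : (θ q₁)⁻¹ * θ q₀ = (θ q₀)⁻¹ * (θ q₁)⁻¹ := by
          rw [← _root_.mul_inv_rev, h2, _root_.mul_inv_rev, inv_inv]
        have e2 : θ q * (θ q₀)⁻¹ = θ q₀ * θ q := by
          rw [mul_inv_eq_iff_eq_mul, mul_assoc, h, mul_inv_cancel_left]
        rw [mul_assoc, e1, ← mul_assoc, e2, mul_assoc]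
      have hw' := g3_commG _ _ X (red n (θ q * (θ q₁)⁻¹)) hJ hXJ
        (by rw [← map_mul, hw, map_mul])
      have e : θ q = (θ q * (θ q₁)⁻¹) * θ q₁ := by group
      rw [e, map_mul, ← mul_assoc, hw', mul_assoc, hXC, mul_assoc]
  have h3 := hX q
  rw [key] at h3
  exact mul_right_cancel h3

/-- the normalised case -/
private theorem g3_norm (htr : S_tr) (hfo : S_fo) (hell : S_ell) (hinv : S_inv) (hun : S_un)
    (θ θ' : Q →* GL (Fin 2) ℤ) (hLC : LC θ θ') (q₀ q₁ : Q) (t : ℤ) (ht : |t| ≤ 1)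
    (h0 : (θ q₀).val = !![0, -1; 1, t]) (h0' : θ' q₀ = θ q₀)
    (h1 : θ q₁ * θ q₀ ≠ θ q₀ * θ q₁) : ∃ X : GL (Fin 2) ℤ, ∀ q, X * θ q = θ' q * X := by
  have hd : (θ q₀).val.det = 1 := by
    rw [h0, Matrix.det_fin_two_of]; ring
  have htr0 : |(θ q₀).val.trace| ≤ 1 := by
    rw [h0, Matrix.trace_fin_two_of]; simpa using ht
  have hC : θ q₁ * θ q₀ = (θ q₀)⁻¹ * θ q₁ :=
    (g3_dih hfo hell hinv θ q₀ q₁ hd htr0).resolve_left h1
  -- relations carry over
  have hker : ∀ a b, θ a = θ b → θ' a = θ' b := by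
    intro a b hab
    apply g3_inj
    intro n hn
    obtain ⟨X, hX⟩ := hLC n hn
    have ha := hX a
    rw [hab, hX b] at ha
    exact (mul_right_cancel ha).symm
  have hC' : θ' q₁ * θ q₀ = (θ q₀)⁻¹ * θ' q₁ := by
    have h2 := hker (q₁ * q₀) (q₀⁻¹ * q₁) (by rw [map_mul, map_mul, map_inv, hC])
    rwa [map_mul, map_mul, map_inv, h0'] at h2
  -- the quotient
  have hu : θ' q₁ * (θ q₁)⁻¹ * θ q₀ = θ q₀ * (θ' q₁ * (θ q₁)⁻¹) := by
    have e1 : (θ q₁)⁻¹ * θ q₀ = (θ q₀)⁻¹ * (θ q₁)⁻¹ := by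
      rw [← _root_.mul_inv_rev, hC, _root_.mul_inv_rev, inv_inv]
    have e2 : θ' q₁ * (θ q₀)⁻¹ = θ q₀ * θ' q₁ := by
      rw [mul_inv_eq_iff_eq_mul, mul_assoc, hC', mul_inv_cancel_left]
    rw [mul_assoc, e1, ← mul_assoc, e2, mul_assoc]
  have huC : θ' q₁ * (θ q₁)⁻¹ * θ q₁ = θ' q₁ := by group
  generalize hu0 : θ' q₁ * (θ q₁)⁻¹ = u at hu huC
  have hdetC : (θ q₁).val.det = (θ' q₁).val.det := by
    refine (htr (θ q₁) (θ' q₁) fun n hn => ?_).2
    obtain ⟨X, hX⟩ := hLC n hn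
    exact ⟨X, hX q₁⟩
  have hud : u.val.det = 1 := by
    have e1 : u.val.det * (θ q₁).val.det = (θ q₁).val.det := by
      rw [← Matrix.det_mul, ← Units.val_mul, huC, hdetC]
    have e2 : (θ q₁).val.det * ((θ q₁)⁻¹).val.det = 1 := by
      rw [← Matrix.det_mul, Units.mul_inv, Matrix.det_one]
    have e3 : (θ q₁).val.det ≠ 0 := by
      intro h
      rw [h, zero_mul] at e2
      exact zero_ne_one e2
    exact mul_right_cancel₀ e3 (by rw [e1, one_mul])
  obtain ⟨v, hv1, hv2, hv3⟩ := hun t ht u.val (by rw [← h0]; exact congrArg Units.val hu) hud (by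
    intro n hn
    obtain ⟨X, hX⟩ := hLC n hn
    have hJ : (red n (θ q₀)).val = !![0, -1; 1, (t : ZMod n)] := by
      rw [g3_redval, h0, g3_map]
    have hXJ : X * red n (θ q₀) = red n (θ q₀) * X := by
      have := hX q₀
      rwa [h0'] at this
    refine ⟨X, ?_, ?_⟩
    · rw [g3_map, ← hJ]
      exact congrArg Units.val hXJ
    · have e1 : (red n (θ q₁)).val * X.val = X.val.adjugate * (red n (θ q₁)).val := by
        refine g3_adjG _ (red n (θ q₀)) _ _ hJ ?_ hXJ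
        rw [← map_mul, hC, map_mul, map_inv]
      have e2 : X.val * (red n (θ q₁)).val =
          (red n u).val * ((red n (θ q₁)).val * X.val) := by
        have e3 : X * red n (θ q₁) = red n u * (red n (θ q₁) * X) := by
          rw [← mul_assoc, ← map_mul, huC]
          exact hX q₁
        exact congrArg Units.val e3
      rw [e1, ← mul_assoc] at e2
      have e4 := congrArg (fun M => M * ((red n (θ q₁))⁻¹).val) e2
      simp only [mul_assoc, Units.mul_inv, mul_one] at e4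
      exact e4)
  have hvJ : v * θ q₀ = θ q₀ * v := Units.ext (by rw [Units.val_mul, Units.val_mul, h0, hv1])
  have hvu : u = v * v := Units.ext (by rw [Units.val_mul, hv3])
  have hvJ' : v⁻¹ * θ q₀ = θ q₀ * v⁻¹ := by
    rw [inv_mul_eq_iff_eq_mul, ← mul_assoc, hvJ, mul_inv_cancel_right]
  have hvC : θ q₁ * v⁻¹ = v * θ q₁ := by
    apply Units.ext
    have e1 := g3_adjG t (θ q₀) (θ q₁) v⁻¹ h0 hC hvJ'
    have hvd : (v⁻¹).val.det = 1 := by
      rw [g3_invadj v hv2, Matrix.det_adjugate, hv2]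
      simp
    rw [← g3_invadj _ hvd, inv_inv] at e1
    rw [Units.val_mul, Units.val_mul, e1]
  -- conjugate and apply the core lemma
  refine ⟨v, fun q => ?_⟩
  have h3 := g3_core hfo hell hinv ((MulAut.conj v).toMonoidHom.comp θ) θ' (by
      intro n hn
      obtain ⟨X, hX⟩ := hLC n hn
      refine ⟨X * (red n v)⁻¹, fun q => ?_⟩
      show X * (red n v)⁻¹ * red n (v * θ q * v⁻¹) = red n (θ' q) * (X * (red n v)⁻¹)
      rw [map_mul, map_mul, map_inv, ← mul_assoc (red n (θ' q)), ← hX q]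
      group) q₀ q₁ t ht (by
      show (v * θ q₀ * v⁻¹).val = _
      rw [hvJ, mul_inv_cancel_right, h0]) (by
      show θ' q₀ = v * θ q₀ * v⁻¹
      rw [hvJ, mul_inv_cancel_right, h0']) (by
      show θ' q₁ = v * θ q₁ * v⁻¹
      rw [mul_assoc, hvC, ← mul_assoc, ← hvu, huC]) (by
      show v * θ q₁ * v⁻¹ * (v * θ q₀ * v⁻¹) = (v * θ q₀ * v⁻¹)⁻¹ * (v * θ q₁ * v⁻¹)
      have e1 : v * θ q₁ * v⁻¹ * (v * θ q₀ * v⁻¹) = v * (θ q₁ * θ q₀) * v⁻¹ := by group
      rw [e1, hC]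
      group) q
  have h4 : v * θ q * v⁻¹ = θ' q := h3
  rw [← h4, inv_mul_cancel_right]

end fin

theorem p_g3 (htr : S_tr) (hfo : S_fo) (hell : S_ell) (hinv : S_inv) (hstd : S_std)
    (hun : S_un) : S_g3 := by
  intro Q _ _ θ θ' hLC q₀ hd ht q₁ h1
  obtain ⟨ht', hd'⟩ := htr (θ q₀) (θ' q₀) fun n hn => by
    obtain ⟨X, hX⟩ := hLC n hn
    exact ⟨X, hX q₀⟩
  obtain ⟨X₀, hX₀⟩ := hstd (θ q₀) hd ht
  obtain ⟨X₁, hX₁⟩ := hstd (θ' q₀) (by rw [← hd', hd]) (by rw [← ht']; exact ht)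
  have e0 : (X₀ * θ q₀ * X₀⁻¹).val = !![0, -1; 1, (θ q₀).val.trace] := by
    rw [Units.val_mul, Units.val_mul, hX₀, mul_assoc, Units.mul_inv, mul_one]
  have e1 : (X₁ * θ' q₀ * X₁⁻¹).val = !![0, -1; 1, (θ q₀).val.trace] := by
    rw [Units.val_mul, Units.val_mul, hX₁, mul_assoc, Units.mul_inv, mul_one, ht']
  obtain ⟨Y, hY⟩ := g3_norm htr hfo hell hinv hun ((MulAut.conj X₀).toMonoidHom.comp θ)
    ((MulAut.conj X₁).toMonoidHom.comp θ') (by
      intro n hn
      obtain ⟨X, hX⟩ := hLC n hn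
      refine ⟨red n X₁ * X * (red n X₀)⁻¹, fun q => ?_⟩
      show red n X₁ * X * (red n X₀)⁻¹ * red n (X₀ * θ q * X₀⁻¹) =
        red n (X₁ * θ' q * X₁⁻¹) * (red n X₁ * X * (red n X₀)⁻¹)
      have e2 : red n X₁ * X * (red n X₀)⁻¹ * red n (X₀ * θ q * X₀⁻¹) =
          red n X₁ * (X * red n (θ q)) * (red n X₀)⁻¹ := by
        rw [map_mul, map_mul, map_inv]
        group
      rw [e2, hX q, map_mul, map_mul, map_inv]
      group) q₀ q₁ (θ q₀).val.trace ht e0 (Units.ext (e1.trans e0.symm)) (by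
      intro h
      apply h1
      have h2 : MulAut.conj X₀ (θ q₁ * θ q₀) = MulAut.conj X₀ (θ q₀ * θ q₁) := by
        rw [map_mul, map_mul]
        exact h
      exact (MulAut.conj X₀).injective h2)
  refine ⟨X₁⁻¹ * Y * X₀, fun q => ?_⟩
  have h2 : Y * (X₀ * θ q * X₀⁻¹) = X₁ * θ' q * X₁⁻¹ * Y := hY q
  have e2 : X₁⁻¹ * Y * X₀ * θ q = X₁⁻¹ * (Y * (X₀ * θ q * X₀⁻¹)) * X₀ := by group
  rw [e2, h2]
  group

end Pool.Agent.F2X
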