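import Pool.Agent.Lib.MP_305fdd_al.F2X.Stm

/-!
# MP_305fdd_al, F2X: corresponding kernels have the same finite quotients
-/

set_option autoImplicit false

namespace Pool.Agent.F2X

open Pool.Agent.MP_305fdd_al Pool.Agent.Lib.MP_305fdd_al

/-- one direction -/
theorem same_aux (Γ Λ : Type) [Group Γ] [Group Λ] (Φ : NatBij Γ Λ) (Q : Type) [Group Q]
    [Finite Q] (π : Γ →* Q) (P : Type) [Group P] [Finite P]
    (ψ : π.ker →* P) (hψ : Function.Surjective ψ) :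
    ∃ χ : (Φ.toFun Q π).ker →* P, Function.Surjective χ := by
  classical
  let K : Subgroup Γ := ψ.ker.map π.ker.subtype
  have hKle : K ≤ π.ker := Subgroup.map_subtype_le _
  have hKfin : K.FiniteIndex := by
    refine ⟨?_⟩
    have h1 : K.index = ψ.ker.index * π.ker.index := Subgroup.index_map_subtype _
    have h2 : ψ.ker.index ≠ 0 := (Subgroup.finiteIndex_ker ψ).index_ne_zero
    have h3 : π.ker.index ≠ 0 := (Subgroup.finiteIndex_ker π).index_ne_zero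
    rw [h1]
    exact mul_ne_zero h2 h3
  let K₀ : Subgroup Γ := K.normalCore
  have hK₀ : K₀ ≤ K := Subgroup.normalCore_le K
  have hK₀fin : K₀.FiniteIndex := Subgroup.finiteIndex_normalCore K
  have hfq : Finite (Γ ⧸ K₀) := Subgroup.finite_quotient_of_finiteIndex
  let θ : Γ →* Γ ⧸ K₀ := QuotientGroup.mk' K₀
  have hθ : Function.Surjective θ := QuotientGroup.mk'_surjective K₀
  let f : (Γ ⧸ K₀) →* Q := QuotientGroup.lift K₀ π (hK₀.trans hKle)
  have hf : f.comp θ = π := by ext x; rfl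
  have hfx : ∀ x, f (θ x) = π x := fun x => rfl
  have hf' : f.comp (Φ.toFun _ θ) = Φ.toFun Q π := by rw [← Φ.nat f θ, hf]
  have hθ' : Function.Surjective (Φ.toFun _ θ) := by
    rw [← MonoidHom.range_eq_top, Φ.range_eq θ, MonoidHom.range_eq_top]
    exact hθ
  have hfx' : ∀ x, f (Φ.toFun _ θ x) = Φ.toFun Q π x := fun x => DFunLike.congr_fun hf' x
  -- well defined
  have hwd : ∀ ν ν' : π.ker, θ ν = θ ν' → ψ ν = ψ ν' := by
    intro ν ν' h
    have h1 : (ν : Γ)⁻¹ * ν' ∈ K₀ := QuotientGroup.eq.1 h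
    obtain ⟨k, hk, hk2⟩ := hK₀ h1
    have h2 : k = ν⁻¹ * ν' := Subtype.ext hk2
    have h3 : ψ k = 1 := hk
    rw [h2, map_mul, map_inv] at h3
    exact inv_mul_eq_one.1 h3
  have hch : ∀ w : (Φ.toFun Q π).ker, ∃ ν : π.ker, θ ν = Φ.toFun _ θ w := by
    intro w
    obtain ⟨g, hg⟩ := hθ (Φ.toFun _ θ (w : Λ))
    refine ⟨⟨g, ?_⟩, hg⟩
    rw [MonoidHom.mem_ker, ← hfx, hg, hfx']
    exact w.2
  choose ν hν using hch
  refine ⟨MonoidHom.mk' (fun w => ψ (ν w)) ?_, ?_⟩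
  · intro w w'
    rw [← map_mul]
    apply hwd
    rw [hν, Subgroup.coe_mul, map_mul, ← hν, ← hν, Subgroup.coe_mul, map_mul]
  · intro p
    obtain ⟨x, hx⟩ := hψ p
    obtain ⟨w, hw⟩ := hθ' (θ (x : Γ))
    have hw1 : Φ.toFun Q π w = 1 := by
      rw [← hfx', hw, hfx]
      exact x.2
    refine ⟨⟨w, hw1⟩, ?_⟩
    show ψ (ν ⟨w, hw1⟩) = p
    rw [← hx]
    apply hwd
    rw [hν]
    exact hw

theorem p_same : S_same := by
  intro Γ Λ _ _ Φ Q _ _ π _ P _ _
  constructor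
  · rintro ⟨φ, hφ⟩
    have h := same_aux Λ Γ Φ.symm Q (Φ.toFun Q π) P φ hφ
    have h1 : Φ.symm.toFun Q (Φ.toFun Q π) = π := Φ.left_inv Q π
    rw [h1] at h
    exact h
  · rintro ⟨φ, hφ⟩
    exact same_aux Γ Λ Φ Q π P φ hφ

end Pool.Agent.F2X
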